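import Pool.Agent.Lib.MP_1ef7cf_nt_g.Lem

/-!
# Definitions for the arithmetic part

All objects here depend only on the data `UD` of a unit of norm `-1` (given by its trace `T`)
and on the lemniscatic data `LemData`.
-/

open Complex

namespace Pool.Agent.STg

/-- Primary Gaussian integers: congruent to `1` modulo `(1 + i) ^ 3`. -/
def Prim (a : GaussianInt) : Prop := (⟨1, 1⟩ : GaussianInt) ^ 3 ∣ a - 1

/-- `Ψ` is the quadratic residue symbol `[δ / β]` for primary `β` prime to `δ`. -/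
structure IsPsi (δ : GaussianInt) (Ψ : GaussianInt → ℤˣ) : Prop where
  mul : ∀ a b, Prim a → Prim b → IsCoprime a δ → IsCoprime b δ → Ψ (a * b) = Ψ a * Ψ b
  per : ∀ a b, Prim a → IsCoprime a δ → 16 * δ ∣ a - b → Ψ a = Ψ b
  leg : ∀ p : GaussianInt, Prime p → Prim p → ¬ p ∣ δ →
    p ∣ δ ^ ((gN p - 1) / 2) - (((Ψ p : ℤˣ) : ℤ) : GaussianInt)

/-- The data of a real unit `ε` with `ε - 1 / ε = T`: a factorization `T + 2 i = δ γ ^ 2` with
squarefree norm of `δ`, and the residue symbol of `δ`. -/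
structure UD where
  T : ℤ
  δ : GaussianInt
  γ : GaussianInt
  Ψ : GaussianInt → ℤˣ
  fac : (⟨T, 2⟩ : GaussianInt) = δ * γ ^ 2
  sqf : Squarefree (gN δ)
  one_lt : 1 < gN δ
  psi : IsPsi δ Ψ

/-- The unit `ε = (T + √(T ^ 2 + 4)) / 2`, so that `ε - 1 / ε = T`. -/
noncomputable def UD.e (U : UD) : ℝ := (U.T + Real.sqrt ((U.T : ℝ) ^ 2 + 4)) / 2

/-- `√ε` -/
noncomputable def UD.r (U : UD) : ℝ := Real.sqrt U.e

/-- `√(T + 2 i) = √ε + i / √ε` -/
noncomputable def UD.A (U : UD) : ℂ := (U.r : ℂ) + I / (U.r : ℂ)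

/-- the modulus `2 ^ J δ` -/
def UD.f (U : UD) (J : ℕ) : GaussianInt := 2 ^ J * U.δ

/-- `cos (2 π / 2 ^ k)` -/
noncomputable def ck (k : ℕ) : ℝ := Real.cos (2 * Real.pi / 2 ^ k)

/-- `exp (2 π i / 2 ^ k)` -/
noncomputable def zk (k : ℕ) : ℂ := Complex.exp (2 * Real.pi * I / 2 ^ k)

/-- the group of the coordinates: signs and classes modulo `2 ^ k` -/
abbrev Gam (k : ℕ) : Type := ℤˣ × (ZMod (2 ^ k))ˣ

/-- the class of an odd number -/
def nu (k n : ℕ) : (ZMod (2 ^ k))ˣ :=
  if h : n.Coprime (2 ^ k) then ZMod.unitOfCoprime n h else 1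

/-- the coordinates of complex conjugation over the second embedding -/
def zc (k : ℕ) : Gam k := (-1, 1)

/-- the coordinates of the Artin symbol of a primary element `β` -/
def sM (U : UD) (k : ℕ) (β : GaussianInt) : Gam k := (U.Ψ β, nu k (gN β))

/-- `S` is a system of representatives of the primary residue classes prime to `f`. -/
def IsPR (f : GaussianInt) (S : Finset GaussianInt) : Prop :=
  (∀ a ∈ S, Prim a ∧ IsCoprime a f) ∧
    ∀ β : GaussianInt, Prim β → IsCoprime β f → ∃! a, a ∈ S ∧ f ∣ β - a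

open Classical in
/-- a system of representatives of the primary residue classes prime to `f` -/
noncomputable def PR (f : GaussianInt) : Finset GaussianInt :=
  if h : ∃ S, IsPR f S then h.choose else ∅

open Classical in
/-- the sum of `ell (a / f)` over the primary residue classes `a` with coordinates `g` -/
noncomputable def SS (D : LemData) (U : UD) (k J : ℕ) (g : Gam k) : ℝ :=
  ∑ a ∈ PR (U.f J), if sM U k a = g then D.ell ((a : ℂ) / (U.f J : ℂ)) else 0

/-- the numbers which will be the Stark units -/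
noncomputable def xv (D : LemData) (U : UD) (k J : ℕ) (g : Gam k) : ℝ :=
  Real.exp (2 * (SS D U k J g - SS D U k J (zc k * g)))

/-- the real field `ℚ(√ε, cos (2 π / 2 ^ k))` -/
noncomputable def Rk (U : UD) (k : ℕ) : IntermediateField ℚ ℝ :=
  IntermediateField.adjoin ℚ {U.r, ck k}

/-- the complex field `ℚ(i, √ε, exp (2 π i / 2 ^ k))` -/
noncomputable def Nk (U : UD) (k : ℕ) : IntermediateField ℚ ℂ :=
  IntermediateField.adjoin ℚ {I, (U.r : ℂ), zk k}

/-- the algebraic numbers -/
noncomputable def Qb : IntermediateField ℚ ℂ := algebraicClosure ℚ ℂ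

open Classical in
/-- Total version of the application of a homomorphism `φ : F → ℂ` (junk value `0` outside `F`). -/
noncomputable def ap {E : Type*} [Field E] [Algebra ℚ E] {F : IntermediateField ℚ E}
    (φ : F →+* ℂ) (x : E) : ℂ := if h : x ∈ F then φ ⟨x, h⟩ else 0

/-- `y` is a Galois function with values in the units of norm one over the second embedding
(without integrality). -/
structure IsGF (U : UD) (k : ℕ) (y : Gam k → ℝ) : Prop where
  pos : ∀ g, 0 < y g
  mem : ∀ g, y g ∈ Rk U k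
  gal : ∀ (φ : Rk U k →+* ℂ) (s : ℤˣ) (n : ℕ), n % 4 = 1 →
    ap φ U.r = ((s : ℤ) : ℂ) * (U.r : ℂ) →
    ap φ (ck k) = (Real.cos (2 * Real.pi * n / 2 ^ k) : ℂ) →
    ∀ g, ap φ (y g) = (y ((s, nu k n) * g) : ℂ)
  abs : ∀ φ : Rk U k →+* ℂ, ap φ U.e = -((U.e : ℂ))⁻¹ → ∀ g, ‖ap φ (y g)‖ = 1

/-- `∏_t (X (a / f) - t)`, `t` running over the values of `X` at the `α`-torsion points -/
noncomputable def th (D : LemData) (α f a : GaussianInt) : ℂ :=
  ∏ t ∈ TFin D.X α, (D.X ((a : ℂ) / (f : ℂ)) - t)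

open Classical in
/-- the elliptic units -/
noncomputable def vv (D : LemData) (U : UD) (k J : ℕ) (α : GaussianInt) (g : Gam k) : ℂ :=
  (∏ a ∈ PR (U.f J), if sM U k a = g then th D α (U.f J) a else 1) /
    (∏ a ∈ PR (U.f J), if sM U k a = zc k * g then th D α (U.f J) a else 1)

end Pool.Agent.STg
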