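import Pool.Agent.Lib.MP_1ef7cf_nt_g.Q

/-!
# Lattice points and non-torsion points
-/

open Complex Polynomial

namespace Pool.Agent.STg

/-- no multiple of `z` by a non-zero Gaussian integer is in the lattice -/
def NT (z : ℂ) : Prop := ∀ β : GaussianInt, β ≠ 0 → (β : ℂ) * z ∉ Lam

/-- the field `ℚ(i)` -/
noncomputable def QI : IntermediateField ℚ ℂ := IntermediateField.adjoin ℚ {I}

lemma I_mem_QI : I ∈ QI := IntermediateField.mem_adjoin_of_mem ℚ (Set.mem_singleton I)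

lemma mem_Lam_iff (z : ℂ) : z ∈ Lam ↔ ∃ a : GaussianInt, (a : ℂ) = z := Iff.rfl

lemma Lam_add {z u : ℂ} (hz : z ∈ Lam) (hu : u ∈ Lam) : z + u ∈ Lam := by
  obtain ⟨a, rfl⟩ := hz
  obtain ⟨b, rfl⟩ := hu
  exact ⟨a + b, GaussianInt.toComplex_add a b⟩

lemma Lam_neg {z : ℂ} (hz : z ∈ Lam) : -z ∈ Lam := by
  obtain ⟨a, rfl⟩ := hz
  exact ⟨-a, GaussianInt.toComplex_neg a⟩

lemma Lam_sub {z u : ℂ} (hz : z ∈ Lam) (hu : u ∈ Lam) : z - u ∈ Lam := by
  rw [sub_eq_add_neg]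
  exact Lam_add hz (Lam_neg hu)

lemma Lam_mul (β : GaussianInt) {z : ℂ} (hz : z ∈ Lam) : (β : ℂ) * z ∈ Lam := by
  obtain ⟨a, rfl⟩ := hz
  exact ⟨β * a, GaussianInt.toComplex_mul β a⟩

private lemma D1a_one_I : ((⟨1, 1⟩ : GaussianInt) : ℂ) = 1 + I := by
  rw [GaussianInt.toComplex_def]
  simp

private lemma D1a_two : ((2 : GaussianInt) : ℂ) = 2 := by
  have h : (2 : GaussianInt) = 1 + 1 := by norm_num
  rw [h, GaussianInt.toComplex_add, GaussianInt.toComplex_one]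
  norm_num

private lemma D1a_gN_two : gN 2 = 4 := by
  decide

/-- `(1 + i) / 2` times an odd Gaussian integer is not in the lattice. -/
lemma w0_notMem {β : GaussianInt} (hβ : gOdd β) : (β : ℂ) * ((1 + I) / 2) ∉ Lam := by
  rintro ⟨γ, hγ⟩
  have h1 : β * ⟨1, 1⟩ = 2 * γ := by
    apply GaussianInt.toComplex_inj.1
    rw [GaussianInt.toComplex_mul, GaussianInt.toComplex_mul, D1a_one_I, D1a_two]
    change ((γ : GaussianInt) : ℂ) = _ at hγ
    rw [hγ]
    ring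
  have h2 := congrArg gN h1
  rw [gN_mul, gN_mul, D1a_gN_two] at h2
  have h3 : gN ⟨1, 1⟩ = 2 := by decide
  rw [h3] at h2
  obtain ⟨m, hm⟩ := hβ
  omega

lemma half_notMem {β : GaussianInt} (hβ : gOdd β) : (β : ℂ) * (1 / 2) ∉ Lam := by
  rintro ⟨γ, hγ⟩
  have h1 : β = 2 * γ := by
    apply GaussianInt.toComplex_inj.1
    rw [GaussianInt.toComplex_mul, D1a_two]
    change ((γ : GaussianInt) : ℂ) = _ at hγ
    rw [hγ]
    ring
  have h2 := congrArg gN h1
  rw [gN_mul, D1a_gN_two] at h2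
  obtain ⟨m, hm⟩ := hβ
  omega

/-- If `(1 + i) u` is in the lattice and `u` is not, then `u = (1 + i) / 2` modulo the lattice. -/
lemma sub_w0_mem {u : ℂ} (hu : u ∉ Lam) (h : (1 + I) * u ∈ Lam) : u - (1 + I) / 2 ∈ Lam := by
  obtain ⟨γ, hγ⟩ := h
  change ((γ : GaussianInt) : ℂ) = _ at hγ
  have h1 : u = (γ : ℂ) * (1 - I) / 2 := by
    rw [hγ]
    have : (1 + I) * (1 - I) = 2 := by
      ring_nf
      rw [I_sq]
      norm_num
    calc u = 2 * u / 2 := by ring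
      _ = (1 + I) * u * (1 - I) / 2 := by rw [← this]; ring
  rw [GaussianInt.toComplex_def] at h1
  rcases Int.even_or_odd' (γ.re + γ.im) with ⟨m, hm | hm⟩
  · exfalso
    apply hu
    refine ⟨⟨m, γ.im - m⟩, ?_⟩
    change ((⟨m, γ.im - m⟩ : GaussianInt) : ℂ) = u
    have h2 : (γ.re : ℂ) = 2 * m - γ.im := by
      have : (γ.re : ℤ) = 2 * m - γ.im := by omega
      rw [this]
      push_cast
      ring
    rw [h1, GaussianInt.toComplex_def, h2]
    push_cast
    ring_nf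
    rw [I_sq]
    ring
  · refine ⟨⟨m, γ.im - m - 1⟩, ?_⟩
    change ((⟨m, γ.im - m - 1⟩ : GaussianInt) : ℂ) = u - (1 + I) / 2
    have h2 : (γ.re : ℂ) = 2 * m + 1 - γ.im := by
      have : (γ.re : ℤ) = 2 * m + 1 - γ.im := by omega
      rw [this]
      push_cast
      ring
    rw [h1, GaussianInt.toComplex_def, h2]
    push_cast
    ring_nf
    rw [I_sq]
    ring

/-- `√2` is irrational -/
lemma nt_sqrt (n : ℕ) : NT (((n : ℂ) + 1) * (Real.sqrt 2 : ℂ)) := by
  rintro β hβ ⟨γ, hγ⟩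
  change ((γ : GaussianInt) : ℂ) = _ at hγ
  have key : ∀ a b : ℤ, a ≠ 0 → (a : ℝ) * (((n : ℝ) + 1) * Real.sqrt 2) ≠ b := by
    intro a b ha hab
    have h1 : Real.sqrt 2 = ((b / (a * ((n : ℚ) + 1)) : ℚ) : ℝ) := by
      push_cast
      rw [eq_div_iff]
      · linarith
      · have h2 : (a : ℝ) ≠ 0 := by exact_mod_cast ha
        have h3 : (n : ℝ) + 1 ≠ 0 := by positivity
        exact mul_ne_zero h2 h3
    exact irrational_sqrt_two ⟨_, h1.symm⟩
  have hr : ((n : ℂ) + 1) * (Real.sqrt 2 : ℂ) = ((((n : ℝ) + 1) * Real.sqrt 2 : ℝ) : ℂ) := by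
    push_cast
    ring
  rw [hr, GaussianInt.toComplex_def, GaussianInt.toComplex_def] at hγ
  have h1 := congrArg Complex.re hγ
  have h2 := congrArg Complex.im hγ
  simp at h1 h2
  rw [← GaussianInt.intCast_re, ← GaussianInt.intCast_re] at h1
  rw [← GaussianInt.intCast_im, ← GaussianInt.intCast_im] at h2
  by_cases hre : β.re = 0
  · have him : β.im ≠ 0 := by
      intro him
      exact hβ (Zsqrtd.ext hre him)
    exact key β.im γ.im him h2.symm
  · exact key β.re γ.re hre h1.symm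

end Pool.Agent.STg
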