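import Pool.Agent.Lib.MP_1ef7cf_nt_g.Q

/-!
# Valuation rings of `ℂ` and Gaussian integers
-/

open Complex

namespace Pool.Agent.STg

variable (V : ValuationSubring ℂ) {π : GaussianInt}

/-- the valuation of `i` -/
lemma D5a_val_I : V.valuation I = 1 := by
  have h1 : V.valuation I ^ 2 = 1 := by
    rw [← map_pow, I_sq, Valuation.map_neg, map_one]
  rcases pow_eq_one_iff.mp h1 with h2 | h2
  · exact h2
  · exact absurd h2 (by norm_num)

/-- Gaussian integers are integral. -/
lemma val_gauss (a : GaussianInt) : V.valuation (a : ℂ) ≤ 1 := by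
  rw [GaussianInt.toComplex_def, ValuationSubring.valuation_le_one_iff]
  have hI : I ∈ V := by
    rw [← ValuationSubring.valuation_le_one_iff, D5a_val_I]
  exact add_mem (intCast_mem V _) (mul_mem (intCast_mem V _) hI)

lemma D5a_lt_mul {x y : ℂ} (hx : V.valuation x ≤ 1) (hy : V.valuation y < 1) :
    V.valuation (x * y) < 1 := by
  rw [map_mul]
  calc V.valuation x * V.valuation y ≤ 1 * V.valuation y := by gcongr
    _ < 1 := by rwa [one_mul]

/-- if `π ∤ a` then `x π + y a = 1`. -/
lemma val_gauss_lt (hπ : Prime π) (h : V.valuation (π : ℂ) < 1) (a : GaussianInt) :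
    V.valuation (a : ℂ) < 1 ↔ π ∣ a := by
  constructor
  · intro ha
    by_contra hd
    have hc : IsCoprime π a := (Irreducible.coprime_iff_not_dvd hπ.irreducible).mpr hd
    obtain ⟨x, y, hxy⟩ := hc
    have h1 : (x : ℂ) * (π : ℂ) + (y : ℂ) * (a : ℂ) = 1 := by
      have := congrArg GaussianInt.toComplex hxy
      simpa using this
    have h2 : V.valuation ((x : ℂ) * (π : ℂ) + (y : ℂ) * (a : ℂ)) < 1 :=
      Valuation.map_add_lt _ (D5a_lt_mul V (val_gauss V x) h) (D5a_lt_mul V (val_gauss V y) ha)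
    rw [h1, map_one] at h2
    exact lt_irrefl _ h2
  · rintro ⟨b, rfl⟩
    have h1 : ((π * b : GaussianInt) : ℂ) = (b : ℂ) * (π : ℂ) := by
      rw [map_mul, mul_comm]
    rw [h1]
    exact D5a_lt_mul V (val_gauss V b) h

lemma val_gauss_eq (hπ : Prime π) (h : V.valuation (π : ℂ) < 1) {a : GaussianInt} (ha : ¬ π ∣ a) :
    V.valuation (a : ℂ) = 1 := by
  apply le_antisymm (val_gauss V a)
  rw [← not_lt, val_gauss_lt V hπ h a]
  exact ha

/-- `2` is a unit if `π` is odd -/
lemma val_two (hπ : Prime π) (hodd : gOdd π) (h : V.valuation (π : ℂ) < 1) :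
    V.valuation (2 : ℂ) = 1 := by
  have h2 : ¬ π ∣ (2 : GaussianInt) := by
    rintro ⟨b, hb⟩
    have h3 : gN (2 : GaussianInt) = gN π * gN b := by rw [hb, gN_mul]
    have h4 : gN (2 : GaussianInt) = 4 := by
      unfold gN
      rfl
    rw [h4] at h3
    have h5 : gN π ∣ 2 ^ 2 := ⟨gN b, by rw [← h3]; norm_num⟩
    obtain ⟨k, -, hk⟩ := (Nat.dvd_prime_pow Nat.prime_two).mp h5
    have hk0 : k = 0 := by
      by_contra hk0
      unfold gOdd at hodd
      rw [hk] at hodd
      have : Even (2 ^ k) := (Nat.even_pow.mpr ⟨even_two, hk0⟩)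
      exact (Nat.not_even_iff_odd.mpr hodd) this
    rw [hk0, pow_zero] at hk
    apply hπ.not_isUnit
    unfold gN at hk
    exact (Zsqrtd.norm_eq_one_iff (x := π)).mp hk
  have h3 := val_gauss_eq V hπ h h2
  have h4 : ((2 : GaussianInt) : ℂ) = 2 := map_ofNat GaussianInt.toComplex 2
  rwa [h4] at h3

/-- `i` is a unit -/
lemma val_I : V.valuation I = 1 := D5a_val_I V

/-- roots of `y ^ 2 - s y + p` with `s, p` in the maximal ideal are in the maximal ideal -/
lemma val_root {y s p : ℂ} (hs : V.valuation s < 1) (hp : V.valuation p < 1)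
    (h : y ^ 2 - s * y + p = 0) : V.valuation y < 1 := by
  by_contra hy
  rw [not_lt] at hy
  have hy0 : V.valuation y ≠ 0 := by
    intro h0
    rw [h0] at hy
    exact absurd hy (by simp)
  have h1 : y ^ 2 = s * y - p := by linear_combination h
  have h2 : V.valuation (s * y) < V.valuation y ^ 2 := by
    rw [map_mul, pow_two]
    have : V.valuation s < V.valuation y := lt_of_lt_of_le hs hy
    exact mul_lt_mul_of_pos_right this (zero_lt_iff.mpr hy0)
  have h3 : V.valuation p < V.valuation y ^ 2 :=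
    lt_of_lt_of_le hp (one_le_pow₀ hy)
  have h4 : V.valuation (s * y - p) < V.valuation y ^ 2 := Valuation.map_sub_lt _ h2 h3
  rw [← h1, map_pow] at h4
  exact lt_irrefl _ h4

end Pool.Agent.STg
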