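import Pool.Agent.Lib.MP_1ef7cf_nt_g.D1a

/-!
# The values of `X` at odd torsion points
-/

open Complex Polynomial

namespace Pool.Agent.STg

variable (D : LemData)

lemma LemData.mem_TFin {β : GaussianInt} (hβ : β ≠ 0) (t : ℂ) :
    t ∈ TFin D.X β ↔ ∃ u : ℂ, u ∉ Lam ∧ (β : ℂ) * u ∈ Lam ∧ D.X u = t := by
  classical
  unfold TFin
  rw [dif_pos (D.finite_T β hβ), Set.Finite.mem_toFinset]
  rfl

lemma gOdd.ne_zero {β : GaussianInt} (hβ : gOdd β) : β ≠ 0 := by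
  rintro rfl
  obtain ⟨m, hm⟩ := hβ
  have : gN 0 = 0 := by decide
  omega

private lemma D2a_w0 : ((1 + I) / 2 : ℂ) ∉ Lam := by
  have h1 : gOdd 1 := by
    refine ⟨0, ?_⟩
    rw [gN_one]; norm_num
  have h := w0_notMem h1
  rwa [GaussianInt.toComplex_one, one_mul] at h

/-- `X u = 0 = X ((1 + i) / 2)` would give `β (1 + i) / 2 ∈ Lam` by `X_inj`. -/
lemma LemData.T_ne_zero {β : GaussianInt} (hβ : gOdd β) {t : ℂ} (ht : t ∈ TFin D.X β) : t ≠ 0 := by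
  obtain ⟨u, hu, hβu, rfl⟩ := (D.mem_TFin hβ.ne_zero t).1 ht
  intro h0
  rw [← D.X_w0] at h0
  rcases D.X_inj u _ hu D2a_w0 h0 with h1 | h1
  · have h2 := Lam_sub hβu (Lam_mul β h1)
    apply w0_notMem hβ
    have h3 : (β : ℂ) * u - (β : ℂ) * (u - (1 + I) / 2) = (β : ℂ) * ((1 + I) / 2) := by ring
    rwa [h3] at h2
  · have h2 := Lam_sub (Lam_mul β h1) hβu
    apply w0_notMem hβ
    have h3 : (β : ℂ) * (u + (1 + I) / 2) - (β : ℂ) * u = (β : ℂ) * ((1 + I) / 2) := by ring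
    rwa [h3] at h2

/-- Let `t = X u`, `t' = X u'`; `-1 / t = X (u + w₀)`, `w₀ = (1 + i) / 2` (`X_add_w0`). If
`1 + t t' = 0` then `X u' = X (u + w₀)`, so `β w₀ ∈ Lam` by `X_inj`. -/
lemma LemData.T_mul_ne {β : GaussianInt} (hβ : gOdd β) {t t' : ℂ} (ht : t ∈ TFin D.X β)
    (ht' : t' ∈ TFin D.X β) : 1 + t * t' ≠ 0 := by
  have ht0 := D.T_ne_zero hβ ht
  obtain ⟨u, hu, hβu, rfl⟩ := (D.mem_TFin hβ.ne_zero t).1 ht
  obtain ⟨u', hu', hβu', rfl⟩ := (D.mem_TFin hβ.ne_zero t').1 ht'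
  intro h0
  have h1 : u + (1 + I) / 2 ∉ Lam := by
    intro h
    have h2 := Lam_sub (Lam_mul β h) hβu
    apply w0_notMem hβ
    have h3 : (β : ℂ) * (u + (1 + I) / 2) - (β : ℂ) * u = (β : ℂ) * ((1 + I) / 2) := by ring
    rwa [h3] at h2
  have h2 := D.X_add_w0 u hu h1
  have h3 : D.X (u + (1 + I) / 2) = D.X u' := by
    apply mul_right_cancel₀ ht0
    rw [h2]
    linear_combination -h0
  rcases D.X_inj _ _ h1 hu' h3 with h4 | h4
  · have h5 := Lam_add (Lam_sub (Lam_mul β h4) hβu) hβu'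
    apply w0_notMem hβ
    have h6 : (β : ℂ) * (u + (1 + I) / 2 - u') - (β : ℂ) * u + (β : ℂ) * u' =
        (β : ℂ) * ((1 + I) / 2) := by ring
    rwa [h6] at h5
  · have h5 := Lam_sub (Lam_sub (Lam_mul β h4) hβu) hβu'
    apply w0_notMem hβ
    have h6 : (β : ℂ) * (u + (1 + I) / 2 + u') - (β : ℂ) * u - (β : ℂ) * u' =
        (β : ℂ) * ((1 + I) / 2) := by ring
    rwa [h6] at h5

/-- Coprime polynomials over `ℂ`: no common roots. -/
lemma LemData.coprime_den {β : GaussianInt} (hβ : gOdd β) (c : ℂ) (hc : c ≠ 0) :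
    IsCoprime (∏ t ∈ TFin D.X β, (Polynomial.X - C t) ^ 2)
      (C c * Polynomial.X * ∏ t ∈ TFin D.X β, (1 + C t * Polynomial.X) ^ 2) := by
  refine IsCoprime.prod_left fun t ht => IsCoprime.pow_left ?_
  rw [(Polynomial.irreducible_X_sub_C t).coprime_iff_not_dvd, Polynomial.dvd_iff_isRoot,
    Polynomial.IsRoot.def]
  rw [Polynomial.eval_mul, Polynomial.eval_mul, Polynomial.eval_C, Polynomial.eval_X,
    Polynomial.eval_prod]
  refine mul_ne_zero (mul_ne_zero hc (D.T_ne_zero hβ ht)) (Finset.prod_ne_zero_iff.2 fun t' ht' => ?_)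
  rw [Polynomial.eval_pow, Polynomial.eval_add, Polynomial.eval_mul, Polynomial.eval_C,
    Polynomial.eval_X, Polynomial.eval_one]
  exact pow_ne_zero 2 (D.T_mul_ne hβ ht' ht)

end Pool.Agent.STg
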