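import Mathlib

/-!
# Descent of the coefficients of coprime polynomials
-/

open Polynomial

namespace Pool.Agent.STg

/-- Purely algebraic: if `A q = r B` with `q, r` coprime polynomials over a field `L`, `q` monic, `B ≠ 0`
and `A, B` have coefficients in a subfield `F`, then `q` has coefficients in `F`. Divide `A, B` by
their gcd over `F`: then they are coprime over `F`, so over `L`, and `q ∣ B`, `B ∣ q`; so
`q = B / (leading coefficient)`. -/
lemma exists_descent {F L : Type*} [Field F] [Field L] [Algebra F L] {A B : Polynomial F}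
    {q r : Polynomial L} (hB : B ≠ 0) (hq : q.Monic) (hqr : IsCoprime q r)
    (h : A.map (algebraMap F L) * q = r * B.map (algebraMap F L)) :
    ∃ q₀ : Polynomial F, q₀.map (algebraMap F L) = q := by
  classical
  have hinj : Function.Injective (algebraMap F L) := (algebraMap F L).injective
  obtain ⟨g, A', B', hcop, hA, hB'⟩ : ∃ g A' B' : Polynomial F, IsCoprime A' B' ∧ A = A' * g ∧
      B = B' * g := by
    obtain ⟨A', hA'⟩ := EuclideanDomain.gcd_dvd_left A B
    obtain ⟨B', hB'⟩ := EuclideanDomain.gcd_dvd_right A B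
    refine ⟨EuclideanDomain.gcd A B, A', B', ?_, ?_, ?_⟩
    · have h1 := EuclideanDomain.gcd_eq_gcd_ab A B
      have h2 : EuclideanDomain.gcd A B ≠ 0 := by
        intro h0
        rw [h0, zero_mul] at hB'
        exact hB hB'
      refine ⟨EuclideanDomain.gcdA A B, EuclideanDomain.gcdB A B, ?_⟩
      apply mul_left_cancel₀ h2
      calc EuclideanDomain.gcd A B * (EuclideanDomain.gcdA A B * A' + EuclideanDomain.gcdB A B * B')
          = (EuclideanDomain.gcd A B * A') * EuclideanDomain.gcdA A B +
            (EuclideanDomain.gcd A B * B') * EuclideanDomain.gcdB A B := by ring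
        _ = EuclideanDomain.gcd A B * 1 := by rw [← hA', ← hB', ← h1, mul_one]
    · rw [mul_comm]
      exact hA'
    · rw [mul_comm]
      exact hB'
  have hg : g ≠ 0 := by
    rintro rfl
    rw [mul_zero] at hB'
    exact hB hB'
  have hB0 : B' ≠ 0 := by
    rintro rfl
    rw [zero_mul] at hB'
    exact hB hB'
  have hg' : g.map (algebraMap F L) ≠ 0 := (Polynomial.map_ne_zero_iff hinj).2 hg
  have hcop' : IsCoprime (A'.map (algebraMap F L)) (B'.map (algebraMap F L)) :=
    hcop.map (Polynomial.mapRingHom (algebraMap F L))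
  have h1 : A'.map (algebraMap F L) * q = r * B'.map (algebraMap F L) := by
    rw [hA, hB', Polynomial.map_mul, Polynomial.map_mul] at h
    apply mul_right_cancel₀ hg'
    calc A'.map (algebraMap F L) * q * g.map (algebraMap F L)
        = A'.map (algebraMap F L) * g.map (algebraMap F L) * q := by ring
      _ = r * (B'.map (algebraMap F L) * g.map (algebraMap F L)) := h
      _ = r * B'.map (algebraMap F L) * g.map (algebraMap F L) := by ring
  have h2 : q ∣ B'.map (algebraMap F L) := by
    refine hqr.dvd_of_dvd_mul_left ?_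
    exact ⟨A'.map (algebraMap F L), by rw [← h1, mul_comm]⟩
  have h3 : B'.map (algebraMap F L) ∣ q := by
    refine hcop'.symm.dvd_of_dvd_mul_left ?_
    exact ⟨r, by rw [h1, mul_comm]⟩
  have hlc : B'.leadingCoeff ≠ 0 := Polynomial.leadingCoeff_ne_zero.2 hB0
  refine ⟨C B'.leadingCoeff⁻¹ * B', ?_⟩
  have h4 : (C B'.leadingCoeff⁻¹ * B').Monic := by
    rw [mul_comm]
    exact Polynomial.monic_mul_leadingCoeff_inv hB0
  have h5 : ((C B'.leadingCoeff⁻¹ * B').map (algebraMap F L)).Monic := h4.map _
  refine Polynomial.eq_of_monic_of_associated h5 hq ?_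
  refine associated_of_dvd_dvd ?_ ?_
  · rw [Polynomial.map_mul, Polynomial.map_C]
    refine (IsUnit.mul_left_dvd ?_).2 h3
    rw [Polynomial.isUnit_C]
    exact (IsUnit.mk0 _ ((_root_.map_ne_zero _).2 (inv_ne_zero hlc)))
  · rw [Polynomial.map_mul]
    exact h2.mul_left _

end Pool.Agent.STg
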