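import Mathlib

/-!
# Weighted numbers of ideals with given norm
-/

open NumberField IsDedekindDomain

namespace Pool.Agent.STg

variable {F : Type*} [Field F] [NumberField F]

/-- the number of the ideals of norm `n`, weighted by `χ` -/
noncomputable def cS (χ : Ideal (𝓞 F) → ℤ) (n : ℕ) : ℤ :=
  ∑ᶠ I ∈ {I : Ideal (𝓞 F) | Ideal.absNorm I = n}, χ I

/-- the sum of `χ(P) ^ k log N(P)` over the pairs `(P, k)`, `k ≥ 1`, with `N(P) ^ k = m` -/
noncomputable def bS (χ : Ideal (𝓞 F) → ℤ) (m : ℕ) : ℝ :=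
  ∑ᶠ x ∈ {x : HeightOneSpectrum (𝓞 F) × ℕ | 1 ≤ x.2 ∧ Ideal.absNorm x.1.asIdeal ^ x.2 = m},
    (χ x.1.asIdeal : ℝ) ^ x.2 * Real.log (Ideal.absNorm x.1.asIdeal)

/-- completely multiplicative functions on the non-zero ideals -/
structure CM (χ : Ideal (𝓞 F) → ℤ) : Prop where
  one : χ ⊤ = 1
  mul : ∀ I J : Ideal (𝓞 F), I ≠ ⊥ → J ≠ ⊥ → χ (I * J) = χ I * χ J

/-- Mathlib: `Ideal.finite_setOf_absNorm_eq` -/
lemma finite_norm {n : ℕ} (hn : n ≠ 0) : {I : Ideal (𝓞 F) | Ideal.absNorm I = n}.Finite := by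
  exact Ideal.finite_setOf_absNorm_eq n

lemma S1a_two_le (P : HeightOneSpectrum (𝓞 F)) : 2 ≤ Ideal.absNorm P.asIdeal := by
  have h0 : Ideal.absNorm P.asIdeal ≠ 0 := by
    rw [Ne, Ideal.absNorm_eq_zero_iff]
    exact P.ne_bot
  have h1 : Ideal.absNorm P.asIdeal ≠ 1 := by
    rw [Ne, Ideal.absNorm_eq_one_iff]
    exact P.isPrime.ne_top
  omega

/-- `N(P) ≥ 2`, so `N(P) ^ k = m` gives `k ≤ m` and `N(P) ≤ m`. -/
lemma finite_pairs {m : ℕ} (hm : m ≠ 0) : {x : HeightOneSpectrum (𝓞 F) × ℕ | 1 ≤ x.2 ∧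
    Ideal.absNorm x.1.asIdeal ^ x.2 = m}.Finite := by
  have h1 : {I : Ideal (𝓞 F) | Ideal.absNorm I ≤ m}.Finite := Ideal.finite_setOf_absNorm_le m
  have h2 : {P : HeightOneSpectrum (𝓞 F) | Ideal.absNorm P.asIdeal ≤ m}.Finite := by
    refine Set.Finite.of_finite_image (f := fun P : HeightOneSpectrum (𝓞 F) => P.asIdeal)
      (h1.subset ?_) ?_
    · rintro _ ⟨P, hP, rfl⟩
      exact hP
    · intro P _ Q _ h
      exact HeightOneSpectrum.ext h
  refine (h2.prod (Set.finite_Iic m)).subset ?_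
  rintro ⟨P, k⟩ ⟨hk, h⟩
  simp only at hk h
  have h2 := S1a_two_le P
  constructor
  · simp only [Set.mem_setOf_eq]
    calc Ideal.absNorm P.asIdeal = Ideal.absNorm P.asIdeal ^ 1 := (pow_one _).symm
      _ ≤ Ideal.absNorm P.asIdeal ^ k := Nat.pow_le_pow_right (by omega) hk
      _ = m := h
  · simp only [Set.mem_Iic]
    calc k ≤ 2 ^ k := Nat.lt_two_pow_self.le
      _ ≤ Ideal.absNorm P.asIdeal ^ k := Nat.pow_le_pow_left h2 k
      _ = m := h

lemma S1a_set (P : HeightOneSpectrum (𝓞 F)) {J : Ideal (𝓞 F)} (hJ : J ≠ ⊥) :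
    {x : HeightOneSpectrum (𝓞 F) × ℕ | 1 ≤ x.2 ∧ x.1.asIdeal ^ x.2 ∣ P.asIdeal * J} =
      insert (P, multiplicity P.asIdeal J + 1)
        {x : HeightOneSpectrum (𝓞 F) × ℕ | 1 ≤ x.2 ∧ x.1.asIdeal ^ x.2 ∣ J} := by
  have hP : Prime P.asIdeal := P.prime
  have hfin : FiniteMultiplicity P.asIdeal J :=
    FiniteMultiplicity.of_not_isUnit hP.not_unit hJ
  ext ⟨Q, k⟩
  simp only [Set.mem_setOf_eq, Set.mem_insert_iff, Prod.mk.injEq]
  by_cases hQ : Q = P
  · subst hQ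
    rw [hfin.pow_dvd_iff_le_multiplicity]
    constructor
    · rintro ⟨hk, h⟩
      obtain ⟨j, rfl⟩ : ∃ j, k = j + 1 := ⟨k - 1, by omega⟩
      rw [pow_succ', mul_dvd_mul_iff_left hP.ne_zero, hfin.pow_dvd_iff_le_multiplicity] at h
      by_cases h' : j = multiplicity Q.asIdeal J
      · left; exact ⟨rfl, by rw [h']⟩
      · right; exact ⟨hk, by omega⟩
    · rintro (⟨-, rfl⟩ | ⟨hk, h⟩)
      · refine ⟨by omega, ?_⟩
        rw [pow_succ', mul_dvd_mul_iff_left hP.ne_zero, hfin.pow_dvd_iff_le_multiplicity]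
      · refine ⟨hk, ?_⟩
        rw [← hfin.pow_dvd_iff_le_multiplicity] at h
        exact h.mul_left _
  · have hcop : IsCoprime (Q.asIdeal ^ k) P.asIdeal := by
      refine IsCoprime.pow_left ?_
      rw [Ideal.isCoprime_iff_sup_eq]
      exact Q.isMaximal.coprime_of_ne P.isMaximal
        (fun h => hQ (HeightOneSpectrum.ext h))
    constructor
    · rintro ⟨hk, h⟩
      right
      exact ⟨hk, hcop.dvd_of_dvd_mul_left h⟩
    · rintro (⟨h, -⟩ | ⟨hk, h⟩)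
      · exact absurd h hQ
      · exact ⟨hk, h.mul_left _⟩

lemma S1a_both {I : Ideal (𝓞 F)} (hI : I ≠ ⊥) :
    {x : HeightOneSpectrum (𝓞 F) × ℕ | 1 ≤ x.2 ∧ x.1.asIdeal ^ x.2 ∣ I}.Finite ∧
    Real.log (Ideal.absNorm I) =
    ∑ᶠ x ∈ {x : HeightOneSpectrum (𝓞 F) × ℕ | 1 ≤ x.2 ∧ x.1.asIdeal ^ x.2 ∣ I},
      Real.log (Ideal.absNorm x.1.asIdeal) := by
  induction I using UniqueFactorizationMonoid.induction_on_prime with
  | h₁ => exact absurd rfl hI
  | h₂ u hu =>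
    have hS : {x : HeightOneSpectrum (𝓞 F) × ℕ | 1 ≤ x.2 ∧ x.1.asIdeal ^ x.2 ∣ u} = ∅ := by
      ext ⟨Q, k⟩
      simp only [Set.mem_setOf_eq, Set.mem_empty_iff_false, iff_false, not_and]
      intro hk h
      have h1 : IsUnit (Q.asIdeal ^ k) := isUnit_of_dvd_unit h hu
      rw [isUnit_pow_iff (by omega)] at h1
      exact Q.prime.not_unit h1
    rw [hS]
    refine ⟨Set.finite_empty, ?_⟩
    rw [finsum_mem_empty]
    have : u = ⊤ := by rwa [Ideal.isUnit_iff] at hu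
    rw [this, Ideal.absNorm_top]
    simp
  | h₃ J p hJ hp ih =>
    have hJ' : J ≠ ⊥ := hJ
    obtain ⟨hf, hl⟩ := ih hJ'
    have hpb : p ≠ ⊥ := hp.ne_zero
    have hpp : p.IsPrime := Ideal.isPrime_of_prime hp
    let P : HeightOneSpectrum (𝓞 F) := ⟨p, hpp, hpb⟩
    have hS := S1a_set P hJ'
    have hPp : P.asIdeal = p := rfl
    rw [hPp] at hS
    rw [hS]
    refine ⟨hf.insert _, ?_⟩
    rw [finsum_mem_insert _ _ hf]
    · rw [← hl, map_mul, Nat.cast_mul, Real.log_mul]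
      · simpa [Ideal.absNorm_eq_zero_iff] using hpb
      · simpa [Ideal.absNorm_eq_zero_iff] using hJ'
    · simp only [Set.mem_setOf_eq, not_and]
      intro _ h
      have hfin : FiniteMultiplicity p J :=
        FiniteMultiplicity.of_not_isUnit hp.not_unit hJ
      rw [hPp, hfin.pow_dvd_iff_le_multiplicity] at h
      omega

/-- `log N(I)` is the sum of `log N(P)` over the pairs `(P, k)`, `k ≥ 1`, `P ^ k ∣ I`; these pairs
have `N(P) ^ k ∣ N(I)`. (Factorization of ideals: `Ideal.finprod_heightOneSpectrum_factorization`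
or induction on the factorization, `UniqueFactorizationMonoid.induction_on_coprime`, or
`Ideal.absNorm` and `multiplicity`.) -/
lemma log_norm {I : Ideal (𝓞 F)} (hI : I ≠ ⊥) : Real.log (Ideal.absNorm I) =
    ∑ᶠ x ∈ {x : HeightOneSpectrum (𝓞 F) × ℕ | 1 ≤ x.2 ∧ x.1.asIdeal ^ x.2 ∣ I},
      Real.log (Ideal.absNorm x.1.asIdeal) := by
  exact (S1a_both hI).2

end Pool.Agent.STg
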