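import Pool.Agent.Lib.MP_1ef7cf_nt_g.Mg.G013
import Pool.Agent.Lib.MP_1ef7cf_nt_g.Mg.G001

set_option autoImplicit false

open Complex Filter Topology
open scoped ComplexConjugate

namespace Pool.Agent.STg.An

/-! multiplication by `1 + i`. -/

private theorem AnX2_oneI_mem : (1 + I : ℂ) ∈ Lam := add_mem_Lam one_mem_Lam I_mem_Lam

private theorem AnX2_notMem {z : ℂ} (hz : (1 + I) * z ∉ Lam) : z ∉ Lam :=
  fun h => hz (mul_mem_Lam AnX2_oneI_mem h)

/-- Proof: `XX_mul` with `u = I z` (note `z ± I z = (1 ± I) z`, `(1 - I) z = -(I * ((1 + I) z))`):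
`XX ((1 - I) z) = -XX ((1 + I) z)`, `XX (I z) = -XX z`. -/
theorem oneI_sq {c : ℝ} (hK : Kron c) {z : ℂ} (hz : (1 + I) * z ∉ Lam) :
    (XX ((1 + I) * z) * (2 * I * XX z)) ^ 2 = (XX z ^ 2 - 1) ^ 2 := by
  have h1 : z ∉ Lam := AnX2_notMem hz
  have h2 : I * z ∉ Lam := fun h => h1 (I_mul_mem_iff.mp h)
  have e1 : z + I * z = (1 + I) * z := by ring
  have e2 : z - I * z = -(I * ((1 + I) * z)) := by
    linear_combination z * I_mul_I
  have h3 : z + I * z ∉ Lam := by rwa [e1]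
  have h4 : z - I * z ∉ Lam := by
    rw [e2]
    intro h
    exact hz (I_mul_mem_iff.mp (neg_mem_iff_Lam.mp h))
  have h5 := XX_mul hK h1 h2 h3 h4
  rw [e1, e2, XX_neg, XX_I hK, XX_I hK] at h5
  linear_combination h5 + 4 * XX ((1 + I) * z) ^ 2 * XX z ^ 2 * I_mul_I

/-- Proof: by `oneI_sq` the norms of the two sides are equal on the complement of the closed countable
set `{z | (1 + I) z ∈ Lam}`; `modulus'` gives `left = κ * right` with a constant `κ`. Multiply by `z ^ 4`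
and let `z → 0` (`XX_tendsto`, `eventually_notMem`): both `z ^ 4 * left` and `z ^ 4 * right` tend to
`1 / PP (1 / 2) ^ 2`, as `(1 + I) ^ 2 = 2 I`; so `κ = 1`. -/
theorem XX_oneI {c : ℝ} (hK : Kron c) {z : ℂ} (hz : (1 + I) * z ∉ Lam) :
    XX ((1 + I) * z) * (2 * I * XX z) = XX z ^ 2 - 1 := by
  have hne : (1 + I : ℂ) ≠ 0 := by
    intro h
    have := congrArg Complex.re h
    simp at this
  have hcl : IsClosed {z : ℂ | (1 + I) * z ∈ Lam} := isClosed_DD (1 + I)
  have hct : {z : ℂ | (1 + I) * z ∈ Lam}.Countable := countable_DD hne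
  have hf : DifferentiableOn ℂ (fun z => XX ((1 + I) * z) * (2 * I * XX z))
      {z : ℂ | (1 + I) * z ∈ Lam}ᶜ := by
    intro w hw
    have hw' : (1 + I) * w ∉ Lam := hw
    have d1 : DifferentiableAt ℂ (fun z => XX ((1 + I) * z)) w :=
      (XX_diff hw').comp w (differentiableAt_id.const_mul (1 + I))
    have d2 : DifferentiableAt ℂ (fun z => 2 * I * XX z) w :=
      (XX_diff (AnX2_notMem hw')).const_mul _
    exact (d1.mul d2).differentiableWithinAt
  have hg : DifferentiableOn ℂ (fun z => XX z ^ 2 - 1) {z : ℂ | (1 + I) * z ∈ Lam}ᶜ := by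
    intro w hw
    have hw' : (1 + I) * w ∉ Lam := hw
    exact (((XX_diff (AnX2_notMem hw')).pow 2).sub_const 1).differentiableWithinAt
  have hnorm : ∀ w ∈ {z : ℂ | (1 + I) * z ∈ Lam}ᶜ,
      ‖XX ((1 + I) * w) * (2 * I * XX w)‖ = 1 * ‖XX w ^ 2 - 1‖ := by
    intro w hw
    have hw' : (1 + I) * w ∉ Lam := hw
    rw [one_mul]
    rcases sq_eq_sq_iff_eq_or_eq_neg.mp (oneI_sq hK hw') with h | h
    · rw [h]
    · rw [h, norm_neg]
  obtain ⟨κ, hκ⟩ := modulus' hcl (le_refl _) hct hf hg hnorm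
  have t1 := XX_tendsto
  have t2 : Tendsto (fun z : ℂ => (1 + I) * z) (𝓝[≠] 0) (𝓝[≠] 0) := by
    apply tendsto_nhdsWithin_of_tendsto_nhds_of_eventually_within
    · have : Tendsto (fun z : ℂ => (1 + I) * z) (𝓝 0) (𝓝 ((1 + I) * 0)) :=
        (continuous_const.mul continuous_id).tendsto 0
      rw [mul_zero] at this
      exact this.mono_left nhdsWithin_le_nhds
    · filter_upwards [self_mem_nhdsWithin] with w hw
      exact mul_ne_zero hne hw
  have t3 := t1.comp t2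
  have t4 := t3.mul t1
  have t5 : Tendsto (fun w : ℂ => w ^ 4) (𝓝[≠] 0) (𝓝 0) := by
    have : Tendsto (fun w : ℂ => w ^ 4) (𝓝 0) (𝓝 (0 ^ 4)) := (continuous_pow 4).tendsto 0
    rw [zero_pow (by norm_num)] at this
    exact this.mono_left nhdsWithin_le_nhds
  have t6 := ((t1.pow 2).sub t5).const_mul κ
  have hev : (fun w => κ * ((w ^ 2 * XX w) ^ 2 - w ^ 4)) =ᶠ[𝓝[≠] (0 : ℂ)]
      (fun w => ((fun z => z ^ 2 * XX z) ∘ fun z => (1 + I) * z) w * (w ^ 2 * XX w)) := by
    filter_upwards [eventually_notMem hne] with w hw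
    have h6 := hκ w hw
    simp only [Function.comp]
    linear_combination (-(w ^ 4)) * h6 - w ^ 4 * XX ((1 + I) * w) * XX w * I_mul_I
  have t7 := t6.congr' hev
  have h8 := tendsto_nhds_unique t7 t4
  have he : PP (1 / 2) ≠ 0 := PP_half_ne
  have h9 : κ = 1 := by
    have h10 : (1 / PP (1 / 2)) ^ 2 ≠ 0 := pow_ne_zero _ (one_div_ne_zero he)
    apply mul_right_cancel₀ h10
    linear_combination h8
  have h11 := hκ z hz
  rw [h9, one_mul] at h11
  exact h11

end Pool.Agent.STg.An
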