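import Pool.Agent.Lib.MP_1ef7cf_nt_g.Mg.G015

set_option autoImplicit false

open Complex Filter Topology
open scoped ComplexConjugate

namespace Pool.Agent.STg.An

/-! the sum over all lattice points and the sum over the quadrant. -/

/-- Proof: with the bijection `e` of `exists_quadrant`, `(z / a) ^ 4 = z ^ 4 / gp (e a).2 ^ 4` as
`(I ^ k) ^ 4 = 1`. So the sum over `NZ` is the sum over `Fin 4 × (ℕ × ℕ)` of a function of the second
component, i.e. `4` times the sum `hasSum_log`. -/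
theorem hasSum_log_NZ {z : ℂ} (hz : z ∉ Lam) :
    HasSum (fun a : NZ => Real.log ‖1 - (z / ((a : GaussianInt) : ℂ)) ^ 4‖)
      (4 * (Real.log ‖sg z‖ - Real.log ‖z‖)) := by
  obtain ⟨e, he⟩ := exists_quadrant
  have h1 := hasSum_log hz
  have h2 : HasSum (fun _ : Fin 4 => (1 : ℝ)) 4 := by
    have h3 := hasSum_fintype (fun _ : Fin 4 => (1 : ℝ))
    simpa using h3
  have h3 : Summable fun x : Fin 4 × (ℕ × ℕ) => (1 : ℝ) * Real.log ‖1 - z ^ 4 / gp x.2 ^ 4‖ :=
    summable_mul_of_summable_norm (f := fun _ : Fin 4 => (1 : ℝ)) h2.summable.norm h1.summable.norm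
  have h4 := h2.mul h1 h3
  rw [← e.hasSum_iff] at h4
  refine h4.congr_fun ?_
  intro a
  simp only [Function.comp]
  rw [one_mul, he a]
  have h5 : (I ^ ((e a).1 : ℕ)) ^ 4 = 1 := by
    rw [← pow_mul, mul_comm, pow_mul, I_pow_four, one_pow]
  rw [div_pow, mul_pow, h5, one_mul]

end Pool.Agent.STg.An
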