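import Pool.Agent.Lib.MP_1ef7cf_nt_g.Lem

/-!
# Definitions for the construction of the lemniscatic data

`sg` is an entire function with simple zeros exactly in the lattice `ℤ[i]`; everything is expressed
by it.
-/

set_option autoImplicit false

open Complex

namespace Pool.Agent.STg.An

/-- The point `(1 + i) / 2`. -/
noncomputable def w0 : ℂ := (1 + I) / 2

/-- The nonzero Gaussian integers. -/
abbrev NZ : Type := {a : GaussianInt // a ≠ 0}

/-- The nonzero Gaussian integers `m + n i` with `m > 0`, `n ≥ 0`, one of each class `{w, iw, -w, -iw}`. -/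
noncomputable def gp (p : ℕ × ℕ) : ℂ := ((p.1 : ℂ) + 1) + (p.2 : ℂ) * I

/-- The entire function with simple zeros in the lattice. -/
noncomputable def sg (z : ℂ) : ℂ := z * ∏' p : ℕ × ℕ, (1 - z ^ 4 / gp p ^ 4)

/-- `log |sg z| - π |z|² / 2` -/
noncomputable def ell (z : ℂ) : ℝ := Real.log ‖sg z‖ - Real.pi * ‖z‖ ^ 2 / 2

/-- The function with divisor `(u) + (-u) - 2 (0)`. -/
noncomputable def Phi (u z : ℂ) : ℂ := -(sg (z + u) * sg (z - u)) / (sg z ^ 2 * sg u ^ 2)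

/-- The Weierstrass function. -/
noncomputable def PP (z : ℂ) : ℂ := Phi w0 z

/-- The normalized Weierstrass function. -/
noncomputable def XX (z : ℂ) : ℂ := PP z / PP (1 / 2)

/-- The average of `|1 + i ^ k w| ^ (-2 s)` over `k = 0, 1, 2, 3`. -/
noncomputable def hh (s w : ℂ) : ℂ :=
  (((‖1 + w‖ : ℝ) : ℂ) ^ (-2 * s) + ((‖1 + I * w‖ : ℝ) : ℂ) ^ (-2 * s) +
    ((‖1 - w‖ : ℝ) : ℂ) ^ (-2 * s) + ((‖1 - I * w‖ : ℝ) : ℂ) ^ (-2 * s)) / 4

/-- The terms of the series `RR`. -/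
noncomputable def TT (z : ℂ) (a : NZ) (s : ℂ) : ℂ :=
  ((‖((a : GaussianInt) : ℂ)‖ : ℝ) : ℂ) ^ (-2 * s) *
    (hh s (z / ((a : GaussianInt) : ℂ)) - 1 - s ^ 2 * ((‖z / ((a : GaussianInt) : ℂ)‖ ^ 2 : ℝ) : ℂ))

/-- The regularized difference of the two Dirichlet series. -/
noncomputable def RR (z s : ℂ) : ℂ := ∑' a : NZ, TT z a s

/-- The open disc in which the identity theorem is applied. -/
def UU : Set ℂ := Metric.ball 1 (3 / 2)

/-- `F s / (s - 1)` is the continuation of the Dirichlet series `∑ |z + a| ^ (-2 s)`. -/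
def DirS (z : ℂ) (F : ℂ → ℂ) : Prop :=
  Differentiable ℂ F ∧ ∀ s : ℂ, 1 < s.re →
    HasSum (fun a : GaussianInt => ((‖z + (a : ℂ)‖ : ℝ) : ℂ) ^ (-2 * s)) (F s / (s - 1))

/-- `F s / (s - 1)` is the continuation of the Dirichlet series `∑ |a| ^ (-2 s)`, `a ≠ 0`. -/
def DirS0 (F : ℂ → ℂ) : Prop :=
  Differentiable ℂ F ∧ F 1 = (Real.pi : ℂ) ∧ ∀ s : ℂ, 1 < s.re →
    HasSum (fun a : NZ => ((‖((a : GaussianInt) : ℂ)‖ : ℝ) : ℂ) ^ (-2 * s)) (F s / (s - 1))

/-- Kronecker's limit formula with the constant `c`. -/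
def Kron (c : ℝ) : Prop :=
  ∀ z : ℂ, z ∉ Lam → ∃ F : ℂ → ℂ, DirS z F ∧ F 0 = 0 ∧ F 1 = (Real.pi : ℂ) ∧
    deriv (fun s => F s / (s - 1)) 0 = ((c - 2 * ell z : ℝ) : ℂ)

/-- `S` is a complete system of representatives of the residue classes modulo `β`. -/
def RS (β : GaussianInt) (S : Finset GaussianInt) : Prop :=
  ∀ a : GaussianInt, ∃! r, r ∈ S ∧ β ∣ a - r

end Pool.Agent.STg.An
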