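import Pool.Agent.Lib.MP_1ef7cf_nt_g.D1a

/-!
# The sum formula
-/

open Complex

namespace Pool.Agent.STg

variable (D : LemData)

private lemma D5b_torsion {β : GaussianInt} {z u : ℂ} (hβz : (β : ℂ) * z ∈ Lam)
    (hu : (β : ℂ) * u ∉ Lam) : z - u ∉ Lam ∧ z + u ∉ Lam := by
  constructor
  · intro h
    apply hu
    have h1 := Lam_sub hβz (Lam_mul β h)
    have e : (β : ℂ) * z - (β : ℂ) * (z - u) = (β : ℂ) * u := by ring
    rwa [e] at h1
  · intro h
    apply hu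
    have h1 := Lam_sub (Lam_mul β h) hβz
    have e : (β : ℂ) * (z + u) - (β : ℂ) * z = (β : ℂ) * u := by ring
    rwa [e] at h1

private lemma D5b_I_half {β : GaussianInt} (hβ : gOdd β) : (β : ℂ) * (I * (1 / 2)) ∉ Lam := by
  intro h
  apply half_notMem hβ
  have h1 := Lam_neg (Lam_mul ⟨0, 1⟩ h)
  have e : -(((⟨0, 1⟩ : GaussianInt) : ℂ) * ((β : ℂ) * (I * (1 / 2)))) = (β : ℂ) * (1 / 2) := by
    have : ((⟨0, 1⟩ : GaussianInt) : ℂ) = I := by
      rw [GaussianInt.toComplex_def']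
      simp
    rw [this]
    linear_combination (-(β : ℂ) * (1 / 2)) * Complex.I_mul_I
  rwa [e] at h1

private lemma D5b_sq {β : GaussianInt} (hβ : gOdd β) {z : ℂ} (hz : z ∉ Lam)
    (hβz : (β : ℂ) * z ∈ Lam) : D.X z ^ 2 + 1 ≠ 0 := by
  intro h0
  have h1 : (1 + I) * z ∉ Lam := by
    intro h
    have h2 := sub_w0_mem hz h
    exact (D5b_torsion hβz (w0_notMem hβ)).1 h2
  have h2 := D.X_oneI z hz h1
  have hx : (D.X z - I) * (D.X z + I) = 0 := by
    linear_combination h0 - Complex.I_sq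
  have hβ1 : (β : ℂ) * ((1 + I) * z) ∈ Lam := by
    have h3 := Lam_mul ⟨1, 1⟩ hβz
    have e : ((⟨1, 1⟩ : GaussianInt) : ℂ) * ((β : ℂ) * z) = (β : ℂ) * ((1 + I) * z) := by
      have : ((⟨1, 1⟩ : GaussianInt) : ℂ) = 1 + I := by
        rw [GaussianInt.toComplex_def']
        simp
      rw [this]
      ring
    rwa [e] at h3
  have hhalf : (1 / 2 : ℂ) ∉ Lam := by
    intro h
    exact half_notMem hβ (Lam_mul β h)
  have hIhalf : (I * (1 / 2) : ℂ) ∉ Lam := by
    intro h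
    exact D5b_I_half hβ (Lam_mul β h)
  rcases mul_eq_zero.mp hx with h3 | h3
  · have h4 : D.X z = I := by linear_combination h3
    rw [h4] at h2
    have h5 : D.X ((1 + I) * z) = D.X (1 / 2) := by
      rw [D.X_half]
      linear_combination (-1 / 2 : ℂ) * h2 + (D.X ((1 + I) * z) - 1 / 2) * Complex.I_sq
    have h6 := D5b_torsion hβ1 (half_notMem hβ)
    rcases D.X_inj _ _ h1 hhalf h5 with h7 | h7
    · exact h6.1 h7
    · exact h6.2 h7
  · have h4 : D.X z = -I := by linear_combination h3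
    rw [h4] at h2
    have h5 : D.X ((1 + I) * z) = D.X (I * (1 / 2)) := by
      rw [D.X_I, D.X_half]
      linear_combination (1 / 2 : ℂ) * h2 + (D.X ((1 + I) * z) + 1 / 2) * Complex.I_sq
    have h6 := D5b_torsion hβ1 (D5b_I_half hβ)
    rcases D.X_inj _ _ h1 hIhalf h5 with h7 | h7
    · exact h6.1 h7
    · exact h6.2 h7

/-- **Sum formula** for odd torsion points. With `x = X z`, `x' = X u`, `S = X (z+u) + X (z-u)`,
`P = X (z+u) X (z-u)`: `X_mul` for `z, u` gives `P (x - x') ^ 2 = (1 + x x') ^ 2`; `X_mul` for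
`z + 1/2, u` and `X_add_half` (for `z`, `z + u`, `z - u`) give
`(P + 1 + S) (x + 1 - x x' + x') ^ 2 = (P + 1 - S) (x - 1 + x x' + x') ^ 2`. With `a = x + x'`,
`b = 1 - x x'` this is `S (a ^ 2 + b ^ 2) = -2 (P + 1) a b`, and
`a ^ 2 + b ^ 2 = (1 + x ^ 2) (1 + x' ^ 2) = (P + 1) (x - x') ^ 2`. It remains that `x ^ 2 + 1 ≠ 0`:
if `x ^ 2 = -1` then by `X_oneI`, `X ((1 + i) z) = i / x` is `1` or `-1`, so it is `X (1 / 2)` or
`X (i / 2)` and `(1 + i) z = 1 / 2` or `i / 2` modulo `Lam` (up to sign) by `X_inj`, impossible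
for `β`-torsion points with odd `β`. In the same way all points occurring (`z + 1/2`, ...) are not
in `Lam`, and `x - 1 ≠ 0` etc. -/
theorem LemData.X_sum {β : GaussianInt} (hβ : gOdd β) {z u : ℂ} (hz : z ∉ Lam) (hu : u ∉ Lam)
    (hzu : z + u ∉ Lam) (hzu' : z - u ∉ Lam) (hβz : (β : ℂ) * z ∈ Lam) (hβu : (β : ℂ) * u ∈ Lam) :
    (D.X (z + u) + D.X (z - u)) * (D.X z - D.X u) ^ 2 =
      2 * (D.X z + D.X u) * (D.X z * D.X u - 1) := by
  have t1 : (β : ℂ) * (z + u) ∈ Lam := by rw [mul_add]; exact Lam_add hβz hβu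
  have t2 : (β : ℂ) * (z - u) ∈ Lam := by rw [mul_sub]; exact Lam_sub hβz hβu
  have s1 := (D5b_torsion hβz (half_notMem hβ)).2
  have s2 := (D5b_torsion t1 (half_notMem hβ)).2
  have s3 := (D5b_torsion t2 (half_notMem hβ)).2
  have e2 : z + 1 / 2 + u = z + u + 1 / 2 := by ring
  have e3 : z + 1 / 2 - u = z - u + 1 / 2 := by ring
  have h1 := D.X_mul z u hz hu hzu hzu'
  have h2 := D.X_mul (z + 1 / 2) u s1 hu (by rw [e2]; exact s2) (by rw [e3]; exact s3)
  rw [e2, e3] at h2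
  have h3 := D.X_add_half z hz s1
  have h4 := D.X_add_half (z + u) hzu s2
  have h5 := D.X_add_half (z - u) hzu' s3
  have n1 := D5b_sq D hβ hz hβz
  have n2 := D5b_sq D hβ hu hβu
  generalize D.X (z + 1 / 2) = p at h2 h3
  generalize D.X (z + u + 1 / 2) = q at h2 h4
  generalize D.X (z - u + 1 / 2) = r at h2 h5
  generalize D.X (z + u) = m at h1 h4 ⊢
  generalize D.X (z - u) = n at h1 h5 ⊢
  generalize D.X z = x at h1 h3 n1 ⊢
  generalize D.X u = x' at h1 h2 n2 ⊢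
  have K : (m + 1) * (n + 1) * ((x + 1) - (x - 1) * x') ^ 2 =
      (m - 1) * (n - 1) * ((x - 1) + (x + 1) * x') ^ 2 := by
    rw [← h3, ← h4, ← h5]
    linear_combination ((m - 1) * (n - 1) * (x - 1) ^ 2) * h2
  have h7 : (m * n + 1) * (x - x') ^ 2 = (x ^ 2 + 1) * (x' ^ 2 + 1) := by
    linear_combination h1
  have h8 : m * n + 1 ≠ 0 := by
    intro h0
    rw [h0, zero_mul] at h7
    exact mul_ne_zero n1 n2 h7.symm
  apply mul_left_cancel₀ h8
  linear_combination (m + n) * h7 + (1 / 2 : ℂ) * K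

end Pool.Agent.STg
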