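import Pool.Agent.Lib.MP_1ef7cf_nt_g.D2a
import Pool.Agent.Lib.MP_1ef7cf_nt_g.D5a
import Pool.Agent.Lib.MP_1ef7cf_nt_g.D5b

/-!
# The kernel of reduction
-/

open Complex

namespace Pool.Agent.STg

variable (D : LemData) (V : ValuationSubring ℂ) {π : GaussianInt}

/-- the kernel of reduction -/
def LemData.Red (u : ℂ) : Prop := u ∈ Lam ∨ 1 < V.valuation (D.X u)

lemma LemData.red_neg {u : ℂ} (h : D.Red V u) : D.Red V (-u) := by
  rcases h with h | h
  · exact Or.inl (Lam_neg h)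
  · right
    rw [D.X_neg]
    exact h

private lemma D5_coeI : ((⟨0, 1⟩ : GaussianInt) : ℂ) = I := by
  rw [GaussianInt.toComplex_def']
  simp

private lemma D5_coe1I : ((⟨1, 1⟩ : GaussianInt) : ℂ) = 1 + I := by
  rw [GaussianInt.toComplex_def']
  simp

lemma LemData.red_I {u : ℂ} (h : D.Red V u) : D.Red V (I * u) := by
  rcases h with h | h
  · left
    have := Lam_mul ⟨0, 1⟩ h
    rwa [D5_coeI] at this
  · right
    rw [D.X_I, Valuation.map_neg]
    exact h

lemma LemData.red_congr {u u' : ℂ} (h : D.Red V u) (hu : u - u' ∈ Lam) : D.Red V u' := by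
  rcases h with h | h
  · left
    have := Lam_sub h hu
    rwa [sub_sub_cancel] at this
  · right
    obtain ⟨a, ha⟩ := (mem_Lam_iff _).mp hu
    have e : u = u' + (a : ℂ) := by rw [ha]; ring
    rw [e, D.X_add] at h
    exact h

private lemma D5_two : V.valuation (2 : ℂ) ≤ 1 := by
  have h := val_gauss V (⟨2, 0⟩ : GaussianInt)
  have e : ((⟨2, 0⟩ : GaussianInt) : ℂ) = 2 := by
    rw [GaussianInt.toComplex_def']
    simp
  rwa [e] at h

/-- `X ((1 + i) u) = (x ^ 2 - 1) / (2 i x)`, `v x > 1`, `v 2 ≤ 1`. -/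
lemma LemData.red_oneI {u : ℂ} (h : D.Red V u) : D.Red V ((1 + I) * u) := by
  rcases h with h | h
  · left
    have := Lam_mul ⟨1, 1⟩ h
    rwa [D5_coe1I] at this
  · by_cases h1 : (1 + I) * u ∈ Lam
    · exact Or.inl h1
    · by_cases h0 : u ∈ Lam
      · left
        have := Lam_mul ⟨1, 1⟩ h0
        rwa [D5_coe1I] at this
      · right
        have h2 := D.X_oneI u h0 h1
        by_contra h3
        have h3' : V.valuation (D.X ((1 + I) * u)) ≤ 1 := not_lt.mp h3
        have h4 := congrArg V.valuation h2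
        have hsq : 1 < V.valuation (D.X u ^ 2) := by
          rw [map_pow]
          exact one_lt_pow₀ h two_ne_zero
        have h5 : V.valuation (D.X u ^ 2 - 1) = V.valuation (D.X u ^ 2) := by
          apply Valuation.map_sub_eq_of_lt_left
          rw [map_one]
          exact hsq
        have h2v : V.valuation (2 : ℂ) ≤ 1 := D5_two V
        have hIv : V.valuation I ≤ 1 := by
          have := val_gauss V (⟨0, 1⟩ : GaussianInt)
          rwa [D5_coeI] at this
        rw [h5, map_mul, map_mul, map_mul, map_pow] at h4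
        have h6 : V.valuation (D.X ((1 + I) * u)) * (V.valuation 2 * V.valuation I * V.valuation (D.X u))
            ≤ 1 * (1 * 1 * V.valuation (D.X u)) := by gcongr
        rw [h4, one_mul, one_mul, one_mul, pow_two] at h6
        have h7 : V.valuation (D.X u) * 1 < V.valuation (D.X u) * V.valuation (D.X u) :=
          mul_lt_mul_of_pos_left h (lt_trans zero_lt_one h)
        rw [mul_one] at h7
        exact absurd h6 (not_le.mpr h7)

private lemma D5_inv_lt {x : ℂ} (h : 1 < V.valuation x) : V.valuation x⁻¹ < 1 := by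
  rw [map_inv₀]
  exact inv_lt_one_of_one_lt₀ h

private lemma D5_of_inv_lt {x : ℂ} (hx : x ≠ 0) (h : V.valuation x⁻¹ < 1) : 1 < V.valuation x := by
  rw [map_inv₀] at h
  have h0 : 0 < V.valuation x := (Valuation.pos_iff _).mpr hx
  exact (inv_lt_one₀ h0).mp h

/-- **The kernel of reduction is closed under addition** (odd torsion points). Let `a = 1 / X z`,
`b = 1 / X u`, in the maximal ideal. If `z + u ∉ Lam` and `z - u ∉ Lam` then `1 / X (z + u)`,
`1 / X (z - u)` are the roots of `y ^ 2 - s y + p`, `p = (b - a) ^ 2 / (1 + a b) ^ 2`,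
`s = 2 (a + b) (1 - a b) / (1 + a b) ^ 2` by `X_mul` and `X_sum`: use `val_root`. If `z - u ∈ Lam`
then `z + u = 2 z = -i (1 + i) ^ 2 z` modulo `Lam`: use `red_oneI` twice. -/
theorem LemData.red_add {β : GaussianInt} (hβ : gOdd β) {z u : ℂ} (hβz : (β : ℂ) * z ∈ Lam)
    (hβu : (β : ℂ) * u ∈ Lam) (hz : D.Red V z) (hu : D.Red V u) : D.Red V (z + u) := by
  by_cases hzL : z ∈ Lam
  · apply D.red_congr V hu
    have e : u - (z + u) = -z := by ring
    rw [e]
    exact Lam_neg hzL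
  by_cases huL : u ∈ Lam
  · apply D.red_congr V hz
    have e : z - (z + u) = -u := by ring
    rw [e]
    exact Lam_neg huL
  by_cases hp : z + u ∈ Lam
  · exact Or.inl hp
  by_cases hm : z - u ∈ Lam
  · have h1 := D.red_oneI V (D.red_oneI V hz)
    have h2 := D.red_neg V (D.red_I V h1)
    apply D.red_congr V h2
    have e : -(I * ((1 + I) * ((1 + I) * z))) - (z + u) = z - u := by
      linear_combination (-(I + 2) * z) * Complex.I_sq
    rw [e]
    exact hm
  right
  have hx := hz.resolve_left hzL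
  have hx' := hu.resolve_left huL
  have h1 := D.X_mul z u hzL huL hp hm
  have h2 := D.X_sum hβ hzL huL hp hm hβz hβu
  generalize D.X (z + u) = m at h1 h2 ⊢
  generalize D.X (z - u) = n at h1 h2
  generalize D.X z = x at h1 h2 hx
  generalize D.X u = x' at h1 h2 hx'
  have hx0 : x ≠ 0 := by
    rintro rfl
    rw [map_zero] at hx
    exact absurd hx (not_lt.mpr zero_le_one)
  have hx0' : x' ≠ 0 := by
    rintro rfl
    rw [map_zero] at hx'
    exact absurd hx' (not_lt.mpr zero_le_one)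
  obtain ⟨a, ha⟩ : ∃ a, a = x⁻¹ := ⟨_, rfl⟩
  obtain ⟨b, hb⟩ : ∃ b, b = x'⁻¹ := ⟨_, rfl⟩
  have hxa : x * a = 1 := by rw [ha]; exact mul_inv_cancel₀ hx0
  have hxb : x' * b = 1 := by rw [hb]; exact mul_inv_cancel₀ hx0'
  have va : V.valuation a < 1 := by rw [ha]; exact D5_inv_lt V hx
  have vb : V.valuation b < 1 := by rw [hb]; exact D5_inv_lt V hx'
  have vab : V.valuation (a * b) < 1 := by
    rw [map_mul]
    exact mul_lt_one_of_lt_of_le va vb.le
  have v1 : V.valuation (1 + a * b) = 1 := Valuation.map_one_add_of_lt _ vab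
  have v2 : V.valuation (1 - a * b) ≤ 1 := by
    refine (Valuation.map_sub _ _ _).trans ?_
    rw [map_one]
    exact max_le le_rfl vab.le
  have n1 : 1 + a * b ≠ 0 := by
    intro h0
    rw [h0, map_zero] at v1
    exact zero_ne_one v1
  have hM : m * n * (b - a) ^ 2 = (1 + a * b) ^ 2 := by
    have e1 : (b - a) = (x - x') * (a * b) := by
      linear_combination b * (-hxa) + a * hxb
    have e2 : (1 + a * b) = (1 + x * x') * (a * b) := by
      linear_combination (-(x' * b)) * hxa - hxb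
    rw [e1, e2]
    linear_combination (a * b) ^ 2 * h1
  have hS : (m + n) * (b - a) ^ 2 = 2 * (a + b) * (1 - a * b) := by
    have e1 : (b - a) = (x - x') * (a * b) := by
      linear_combination b * (-hxa) + a * hxb
    have e3 : (a + b) = (x + x') * (a * b) := by
      linear_combination b * (-hxa) - a * hxb
    have e4 : (1 - a * b) = (x * x' - 1) * (a * b) := by
      linear_combination (-(x' * b)) * hxa - hxb
    rw [e1, e3, e4]
    linear_combination (a * b) ^ 2 * h2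
  have hmn : m * n ≠ 0 := by
    intro h0
    rw [h0, zero_mul] at hM
    exact pow_ne_zero 2 n1 hM.symm
  have hm0 : m ≠ 0 := left_ne_zero_of_mul hmn
  have hn0 : n ≠ 0 := right_ne_zero_of_mul hmn
  have hwi : (1 + a * b) * (1 + a * b)⁻¹ = 1 := mul_inv_cancel₀ n1
  have hmi : m * m⁻¹ = 1 := mul_inv_cancel₀ hm0
  have hni : n * n⁻¹ = 1 := mul_inv_cancel₀ hn0
  have vw : V.valuation (1 + a * b)⁻¹ = 1 := by rw [map_inv₀, v1, inv_one]
  have ep : m⁻¹ * n⁻¹ = (b - a) ^ 2 * ((1 + a * b)⁻¹) ^ 2 := by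
    calc m⁻¹ * n⁻¹ = m⁻¹ * n⁻¹ * ((1 + a * b) * (1 + a * b)⁻¹) ^ 2 := by
          rw [hwi, one_pow, mul_one]
      _ = m⁻¹ * n⁻¹ * (1 + a * b) ^ 2 * ((1 + a * b)⁻¹) ^ 2 := by ring
      _ = m⁻¹ * n⁻¹ * (m * n * (b - a) ^ 2) * ((1 + a * b)⁻¹) ^ 2 := by rw [hM]
      _ = (m * m⁻¹) * (n * n⁻¹) * (b - a) ^ 2 * ((1 + a * b)⁻¹) ^ 2 := by ring
      _ = (b - a) ^ 2 * ((1 + a * b)⁻¹) ^ 2 := by rw [hmi, hni, one_mul, one_mul]
  have es : m⁻¹ + n⁻¹ = 2 * (a + b) * (1 - a * b) * ((1 + a * b)⁻¹) ^ 2 := by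
    have e5 : m⁻¹ + n⁻¹ = (m + n) * (m⁻¹ * n⁻¹) := by
      field_simp
      ring
    rw [e5, ep, ← hS]
    ring
  apply D5_of_inv_lt V hm0
  have hba : V.valuation (b - a) < 1 := (Valuation.map_sub _ _ _).trans_lt (max_lt vb va)
  have hab : V.valuation (a + b) < 1 := (Valuation.map_add _ _ _).trans_lt (max_lt va vb)
  have h2v : V.valuation (2 : ℂ) ≤ 1 := D5_two V
  apply val_root V (s := m⁻¹ + n⁻¹) (p := m⁻¹ * n⁻¹)
  · rw [es, map_mul, map_mul, map_mul, map_pow, vw, one_pow, mul_one]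
    calc V.valuation 2 * V.valuation (a + b) * V.valuation (1 - a * b)
        ≤ 1 * V.valuation (a + b) * 1 := by gcongr
      _ = V.valuation (a + b) := by rw [one_mul, mul_one]
      _ < 1 := hab
  · rw [ep, map_mul, map_pow, map_pow, vw, one_pow, mul_one]
    exact pow_lt_one₀ zero_le hba two_ne_zero
  · ring

private lemma D5_nat {β : GaussianInt} (hβ : gOdd β) {z : ℂ} (hβz : (β : ℂ) * z ∈ Lam)
    (hz : D.Red V z) (n : ℕ) : D.Red V ((n : ℂ) * z) ∧ (β : ℂ) * ((n : ℂ) * z) ∈ Lam := by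
  induction n with
  | zero =>
    constructor
    · left
      rw [Nat.cast_zero, zero_mul]
      exact ⟨0, by simp⟩
    · rw [Nat.cast_zero, zero_mul, mul_zero]
      exact ⟨0, by simp⟩
  | succ n ih =>
    have e : ((n + 1 : ℕ) : ℂ) * z = (n : ℂ) * z + z := by
      push_cast
      ring
    rw [e]
    constructor
    · exact D.red_add V hβ ih.2 hβz ih.1 hz
    · rw [mul_add]
      exact Lam_add ih.2 hβz

private lemma D5_int {β : GaussianInt} (hβ : gOdd β) {z : ℂ} (hβz : (β : ℂ) * z ∈ Lam)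
    (hz : D.Red V z) (n : ℤ) : D.Red V ((n : ℂ) * z) ∧ (β : ℂ) * ((n : ℂ) * z) ∈ Lam := by
  rcases Int.eq_nat_or_neg n with ⟨k, rfl | rfl⟩
  · exact_mod_cast D5_nat D V hβ hβz hz k
  · have h := D5_nat D V hβ hβz hz k
    have e : ((-(k : ℤ) : ℤ) : ℂ) * z = -((k : ℂ) * z) := by
      push_cast
      ring
    rw [e]
    constructor
    · exact D.red_neg V h.1
    · rw [mul_neg]
      exact Lam_neg h.2

/-- by additivity, `red_neg` and `red_I`. -/
lemma LemData.red_mul {β : GaussianInt} (hβ : gOdd β) {z : ℂ} (hβz : (β : ℂ) * z ∈ Lam)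
    (hz : D.Red V z) (a : GaussianInt) : D.Red V (a * z) := by
  have h1 := D5_int D V hβ hβz hz a.re
  have h2 := D5_int D V hβ hβz hz a.im
  have h3 : (β : ℂ) * (I * ((a.im : ℂ) * z)) ∈ Lam := by
    have := Lam_mul ⟨0, 1⟩ h2.2
    rw [D5_coeI] at this
    have e : I * ((β : ℂ) * ((a.im : ℂ) * z)) = (β : ℂ) * (I * ((a.im : ℂ) * z)) := by ring
    rwa [e] at this
  have h4 := D.red_add V hβ h1.2 h3 h1.1 (D.red_I V h2.1)
  have e : (a : ℂ) * z = (a.re : ℂ) * z + I * ((a.im : ℂ) * z) := by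
    rw [GaussianInt.toComplex_def]
    ring
  rw [e]
  exact h4

/-- From `X_prod`: `c π ^ 2 ∏ t ^ 2 = 1` and `v π < 1`, so `v t > 1` for some `t`. -/
lemma LemData.exists_red (hodd : gOdd π) (h : V.valuation (π : ℂ) < 1) :
    ∃ u : ℂ, u ∉ Lam ∧ (π : ℂ) * u ∈ Lam ∧ 1 < V.valuation (D.X u) := by
  by_contra hcon
  push Not at hcon
  obtain ⟨c, hc, h1, -⟩ := D.X_prod π hodd
  have h2 : ∀ t ∈ TFin D.X π, V.valuation t ≤ 1 := by
    intro t ht
    obtain ⟨u, hu, hu', rfl⟩ := (D.mem_TFin hodd.ne_zero t).mp ht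
    exact hcon u hu hu'
  have hcv : V.valuation c = 1 := by
    rcases hc with rfl | rfl
    · exact map_one _
    · rw [Valuation.map_neg, map_one]
  have h3 := congrArg V.valuation h1
  rw [map_mul, map_mul, map_pow, map_prod, map_one, hcv, one_mul] at h3
  have h4 : ∏ t ∈ TFin D.X π, V.valuation (t ^ 2) ≤ 1 := by
    apply Finset.prod_le_one'
    intro t ht
    rw [map_pow]
    exact pow_le_one₀ zero_le (h2 t ht)
  have h5 : V.valuation (π : ℂ) ^ 2 < 1 := pow_lt_one₀ zero_le h two_ne_zero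
  exact absurd h3 (mul_lt_one_of_lt_of_le h5 h4).ne

/-- Let `u` be as in `exists_red`, `π u = b`, `π ∤ b`; let `π u' = b'`. There is `a` with
`a b = b'` modulo `π`, so `u' = a u` modulo `Lam`, and `Red u'` by `red_mul`. -/
theorem LemData.T_gt_one (hπ : Prime π) (hodd : gOdd π) (h : V.valuation (π : ℂ) < 1) {t : ℂ}
    (ht : t ∈ TFin D.X π) : 1 < V.valuation t := by
  obtain ⟨u', hu', hu1', rfl⟩ := (D.mem_TFin hodd.ne_zero t).mp ht
  obtain ⟨u, hu, hu1, hr⟩ := D.exists_red V hodd h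
  obtain ⟨b, hb⟩ := (mem_Lam_iff _).mp hu1
  obtain ⟨b', hb'⟩ := (mem_Lam_iff _).mp hu1'
  have hπ0 : (π : ℂ) ≠ 0 := by
    intro h0
    exact hodd.ne_zero (GaussianInt.toComplex_eq_zero.mp h0)
  have hnd : ¬ π ∣ b := by
    rintro ⟨c, rfl⟩
    apply hu
    rw [mem_Lam_iff]
    refine ⟨c, ?_⟩
    apply mul_left_cancel₀ hπ0
    rw [← hb, GaussianInt.toComplex_mul]
  have hcop : IsCoprime π b := (Irreducible.coprime_iff_not_dvd hπ.irreducible).mpr hnd
  obtain ⟨x, y, hxy⟩ := hcop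
  have hmul := D.red_mul V hodd hu1 (Or.inr hr) (b' * y)
  have hcongr : ((b' * y : GaussianInt) : ℂ) * u - u' ∈ Lam := by
    rw [mem_Lam_iff]
    refine ⟨-(b' * x), ?_⟩
    apply mul_left_cancel₀ hπ0
    have hxyC : (x : ℂ) * (π : ℂ) + (y : ℂ) * (b : ℂ) = 1 := by
      have := congrArg (fun g : GaussianInt => (g : ℂ)) hxy
      simpa using this
    rw [GaussianInt.toComplex_neg, GaussianInt.toComplex_mul, GaussianInt.toComplex_mul]
    linear_combination (-(b' : ℂ)) * hxyC + (b' : ℂ) * (y : ℂ) * hb - hb'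
  have hfin := D.red_congr V hmul hcongr
  exact hfin.resolve_left hu'

end Pool.Agent.STg
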