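import Mathlib

set_option autoImplicit false

open Complex Filter Topology
open scoped ComplexConjugate

namespace Pool.Agent.STg.An

/-! the Taylor polynomial of order 3 of `(1 + w) ^ (-s)`. -/

theorem AnH1_log {w : ℂ} (hw : ‖w‖ ≤ 1 / 2) :
    ‖Complex.log (1 + w) - (w - w ^ 2 / 2 + w ^ 3 / 3)‖ ≤ ‖w‖ ^ 4 / 2 := by
  have h1 : ‖w‖ < 1 := by linarith
  have h := Complex.norm_log_sub_logTaylor_le 3 h1
  have h2 : logTaylor (3 + 1) w = w - w ^ 2 / 2 + w ^ 3 / 3 := by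
    simp [Complex.logTaylor, Finset.sum_range_succ]
    ring
  rw [h2] at h
  have h3 : (1 - ‖w‖)⁻¹ ≤ 2 := by
    rw [inv_le_comm₀ (by linarith) two_pos]
    linarith
  refine h.trans ?_
  have h4 : (0 : ℝ) ≤ ‖w‖ ^ 4 := by positivity
  have h5 : ‖w‖ ^ (3 + 1) * (1 - ‖w‖)⁻¹ ≤ ‖w‖ ^ 4 * 2 := by
    norm_num
    exact mul_le_mul_of_nonneg_left h3 h4
  push_cast
  norm_num at h5 ⊢
  linarith

theorem AnH1_exp {x : ℂ} (hx : ‖x‖ ≤ 3) :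
    ‖Complex.exp x - (1 + x + x ^ 2 / 2 + x ^ 3 / 6)‖ ≤ ‖x‖ ^ 4 * Real.exp 3 := by
  have h := Complex.norm_exp_sub_sum_le_norm_mul_exp x 4
  have h2 : ∑ m ∈ Finset.range 4, x ^ m / (m.factorial : ℂ) = 1 + x + x ^ 2 / 2 + x ^ 3 / 6 := by
    simp [Finset.sum_range_succ, Nat.factorial]
  rw [h2] at h
  refine h.trans ?_
  have := Real.exp_le_exp.2 hx
  gcongr

/-- Proof. With `L = log (1 + w)`, `‖L - (w - w ^ 2 / 2 + w ^ 3 / 3)‖ ≤ C₁ ‖w‖ ^ 4` for `‖w‖ ≤ 1 / 2`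
(`Complex.norm_log_sub_logTaylor_le`), `‖L‖ ≤ 2 ‖w‖`, and
`‖exp (-s L) - (1 - s L + (s L) ^ 2 / 2 - (s L) ^ 3 / 6)‖ ≤ C₂ ‖s L‖ ^ 4` (for example
`Complex.norm_exp_sub_sum_le_norm_mul_exp`, `n = 4`). Insert `L = w - w ^ 2 / 2 + w ^ 3 / 3 + O(w ^ 4)`;
the coefficients of `1, w, w ^ 2, w ^ 3` are those of the claim and all other terms are `O(‖w‖ ^ 4)`.
(Another proof: Cauchy estimates for the analytic function `(s, w) ↦ (1 + w) ^ (-s)`, for example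
bound the iterated derivatives, or Taylor's theorem with integral remainder.) -/
theorem cpow_taylor : ∃ C : ℝ, 0 ≤ C ∧ ∀ s w : ℂ, ‖s‖ ≤ 3 → ‖w‖ ≤ 1 / 2 →
    ‖(1 + w) ^ (-s) - (1 - s * w + s * (s + 1) / 2 * w ^ 2 - s * (s + 1) * (s + 2) / 6 * w ^ 3)‖ ≤
      C * ‖w‖ ^ 4 := by
  refine ⟨1296 * Real.exp 3 + 60, by positivity, fun s w hs hw => ?_⟩
  have hw4 : (0 : ℝ) ≤ ‖w‖ ^ 4 := by positivity
  have hw0 : (0 : ℝ) ≤ ‖w‖ := norm_nonneg w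
  have hs0 : (0 : ℝ) ≤ ‖s‖ := norm_nonneg s
  have h1w : 1 + w ≠ 0 := by
    intro h
    have : w = -1 := by linear_combination h
    rw [this] at hw
    norm_num at hw
  set L := Complex.log (1 + w) with hL
  set p := w - w ^ 2 / 2 + w ^ 3 / 3 with hp
  have hLp : ‖L - p‖ ≤ ‖w‖ ^ 4 / 2 := AnH1_log hw
  have hpn : ‖p‖ ≤ 3 / 2 * ‖w‖ := by
    have e1 : p = w * (1 - w / 2 + w ^ 2 / 3) := by rw [hp]; ring
    rw [e1, norm_mul]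
    have : ‖1 - w / 2 + w ^ 2 / 3‖ ≤ 3 / 2 := by
      calc ‖1 - w / 2 + w ^ 2 / 3‖ ≤ ‖(1 : ℂ)‖ + ‖w / 2‖ + ‖w ^ 2 / 3‖ := by
            refine (norm_add_le _ _).trans ?_
            gcongr
            exact norm_sub_le _ _
        _ = 1 + ‖w‖ / 2 + ‖w‖ ^ 2 / 3 := by simp
        _ ≤ 3 / 2 := by nlinarith
    nlinarith
  have hLn : ‖L‖ ≤ 2 * ‖w‖ := by
    have e1 : L = p + (L - p) := by ring
    have e2 : ‖w‖ ^ 4 ≤ ‖w‖ * (1 / 8) := by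
      have : ‖w‖ ^ 3 ≤ (1 / 2) ^ 3 := pow_le_pow_left₀ hw0 hw 3
      have h3 : ‖w‖ ^ 4 = ‖w‖ * ‖w‖ ^ 3 := by ring
      rw [h3]
      exact mul_le_mul_of_nonneg_left (by norm_num at this ⊢; linarith) hw0
    calc ‖L‖ = ‖p + (L - p)‖ := by rw [← e1]
      _ ≤ ‖p‖ + ‖L - p‖ := norm_add_le _ _
      _ ≤ 2 * ‖w‖ := by linarith
  set x := -s * L with hx
  set y := -s * p with hy
  have hxn : ‖x‖ ≤ 6 * ‖w‖ := by
    rw [hx, norm_mul, norm_neg]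
    calc ‖s‖ * ‖L‖ ≤ 3 * (2 * ‖w‖) := by gcongr
      _ = 6 * ‖w‖ := by ring
  have hx3 : ‖x‖ ≤ 3 := by linarith
  have hyn : ‖y‖ ≤ 3 := by
    rw [hy, norm_mul, norm_neg]
    calc ‖s‖ * ‖p‖ ≤ 3 * (3 / 2 * ‖w‖) := by gcongr
      _ ≤ 3 := by linarith
  have hxy : ‖x - y‖ ≤ 3 / 2 * ‖w‖ ^ 4 := by
    have e1 : x - y = -s * (L - p) := by rw [hx, hy]; ring
    rw [e1, norm_mul, norm_neg]
    calc ‖s‖ * ‖L - p‖ ≤ 3 * (‖w‖ ^ 4 / 2) := by gcongr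
      _ = 3 / 2 * ‖w‖ ^ 4 := by ring
  have hpow : (1 + w) ^ (-s) = Complex.exp x := by
    rw [Complex.cpow_def_of_ne_zero h1w, hx, hL]
    congr 1
    ring
  clear_value x y
  have hE := AnH1_exp hx3
  have hE' : ‖Complex.exp x - (1 + x + x ^ 2 / 2 + x ^ 3 / 6)‖ ≤ 1296 * Real.exp 3 * ‖w‖ ^ 4 := by
    refine hE.trans ?_
    have : ‖x‖ ^ 4 ≤ (6 * ‖w‖) ^ 4 := pow_le_pow_left₀ (norm_nonneg x) hxn 4
    calc ‖x‖ ^ 4 * Real.exp 3 ≤ (6 * ‖w‖) ^ 4 * Real.exp 3 := by gcongr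
      _ = 1296 * Real.exp 3 * ‖w‖ ^ 4 := by ring
  have hD : ‖(1 + x + x ^ 2 / 2 + x ^ 3 / 6) - (1 + y + y ^ 2 / 2 + y ^ 3 / 6)‖ ≤
      13 * ‖w‖ ^ 4 := by
    have e1 : (1 + x + x ^ 2 / 2 + x ^ 3 / 6) - (1 + y + y ^ 2 / 2 + y ^ 3 / 6) =
        (x - y) * (1 + (x + y) / 2 + (x ^ 2 + x * y + y ^ 2) / 6) := by ring
    rw [e1, norm_mul]
    have e2 : ‖1 + (x + y) / 2 + (x ^ 2 + x * y + y ^ 2) / 6‖ ≤ 17 / 2 := by
      calc ‖1 + (x + y) / 2 + (x ^ 2 + x * y + y ^ 2) / 6‖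
          ≤ ‖(1 : ℂ)‖ + ‖(x + y) / 2‖ + ‖(x ^ 2 + x * y + y ^ 2) / 6‖ := norm_add₃_le
        _ ≤ 1 + (3 + 3) / 2 + (3 ^ 2 + 3 * 3 + 3 ^ 2) / 6 := by
            gcongr
            · simp
            · rw [norm_div]
              have : ‖x + y‖ ≤ 3 + 3 := (norm_add_le _ _).trans (add_le_add hx3 hyn)
              simp only [Complex.norm_ofNat]
              gcongr
            · rw [norm_div]
              have : ‖x ^ 2 + x * y + y ^ 2‖ ≤ 3 ^ 2 + 3 * 3 + 3 ^ 2 := by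
                refine norm_add₃_le.trans ?_
                rw [norm_pow, norm_mul, norm_pow]
                gcongr
              simp only [Complex.norm_ofNat]
              gcongr
        _ = 17 / 2 := by norm_num
    calc ‖x - y‖ * ‖1 + (x + y) / 2 + (x ^ 2 + x * y + y ^ 2) / 6‖
        ≤ (3 / 2 * ‖w‖ ^ 4) * (17 / 2) := by gcongr
      _ ≤ 13 * ‖w‖ ^ 4 := by nlinarith
  have hR : ‖(1 + y + y ^ 2 / 2 + y ^ 3 / 6) -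
      (1 - s * w + s * (s + 1) / 2 * w ^ 2 - s * (s + 1) * (s + 2) / 6 * w ^ 3)‖ ≤
      47 * ‖w‖ ^ 4 := by
    set q : ℂ := -1 / 2 + w / 3 with hq
    have hqn : ‖q‖ ≤ 1 := by
      calc ‖q‖ ≤ ‖(-1 / 2 : ℂ)‖ + ‖w / 3‖ := norm_add_le _ _
        _ = 1 / 2 + ‖w‖ / 3 := by
            rw [norm_div, norm_div]; simp
        _ ≤ 1 := by linarith
    have e1 : (1 + y + y ^ 2 / 2 + y ^ 3 / 6) -
        (1 - s * w + s * (s + 1) / 2 * w ^ 2 - s * (s + 1) * (s + 2) / 6 * w ^ 3) =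
        w ^ 4 * (s ^ 2 / 2 * (11 / 12 - w / 3 + w ^ 2 / 9) -
          s ^ 3 / 6 * (3 * q + 3 * w * q ^ 2 + w ^ 2 * q ^ 3)) := by
      rw [hy, hp, hq]; ring
    rw [e1, norm_mul, norm_pow, mul_comm]
    have e2 : ‖s ^ 2 / 2 * (11 / 12 - w / 3 + w ^ 2 / 9)‖ ≤ 9 / 2 * 2 := by
      rw [norm_mul]
      have a1 : ‖s ^ 2 / 2‖ ≤ 9 / 2 := by
        rw [norm_div, norm_pow]
        simp only [Complex.norm_ofNat]
        have : ‖s‖ ^ 2 ≤ 3 ^ 2 := pow_le_pow_left₀ hs0 hs 2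
        linarith
      have a2 : ‖11 / 12 - w / 3 + w ^ 2 / 9‖ ≤ 2 := by
        calc ‖11 / 12 - w / 3 + w ^ 2 / 9‖ ≤ ‖(11 / 12 : ℂ)‖ + ‖w / 3‖ + ‖w ^ 2 / 9‖ := by
              refine (norm_add_le _ _).trans ?_
              gcongr
              exact norm_sub_le _ _
          _ = 11 / 12 + ‖w‖ / 3 + ‖w‖ ^ 2 / 9 := by
              rw [norm_div, norm_div, norm_div, norm_pow]; simp
          _ ≤ 2 := by nlinarith
      gcongr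
    have e3 : ‖s ^ 3 / 6 * (3 * q + 3 * w * q ^ 2 + w ^ 2 * q ^ 3)‖ ≤ 27 / 6 * 7 := by
      rw [norm_mul]
      have a1 : ‖s ^ 3 / 6‖ ≤ 27 / 6 := by
        rw [norm_div, norm_pow]
        simp only [Complex.norm_ofNat]
        have : ‖s‖ ^ 3 ≤ 3 ^ 3 := pow_le_pow_left₀ hs0 hs 3
        linarith
      have a2 : ‖3 * q + 3 * w * q ^ 2 + w ^ 2 * q ^ 3‖ ≤ 7 := by
        have hw1 : ‖w‖ ≤ 1 := by linarith
        calc ‖3 * q + 3 * w * q ^ 2 + w ^ 2 * q ^ 3‖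
            ≤ ‖3 * q‖ + ‖3 * w * q ^ 2‖ + ‖w ^ 2 * q ^ 3‖ := norm_add₃_le
          _ = 3 * ‖q‖ + 3 * ‖w‖ * ‖q‖ ^ 2 + ‖w‖ ^ 2 * ‖q‖ ^ 3 := by
              rw [norm_mul, norm_mul, norm_mul, norm_mul, norm_pow, norm_pow, norm_pow]; simp
          _ ≤ 3 * 1 + 3 * 1 * 1 ^ 2 + 1 ^ 2 * 1 ^ 3 := by gcongr
          _ = 7 := by norm_num
      gcongr
    have e4 := norm_sub_le (s ^ 2 / 2 * (11 / 12 - w / 3 + w ^ 2 / 9))
      (s ^ 3 / 6 * (3 * q + 3 * w * q ^ 2 + w ^ 2 * q ^ 3))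
    have e5 : ‖s ^ 2 / 2 * (11 / 12 - w / 3 + w ^ 2 / 9) -
        s ^ 3 / 6 * (3 * q + 3 * w * q ^ 2 + w ^ 2 * q ^ 3)‖ ≤ 47 := by
      refine e4.trans ?_
      norm_num at e2 e3 ⊢
      linarith
    gcongr
  rw [hpow]
  have e1 : Complex.exp x -
      (1 - s * w + s * (s + 1) / 2 * w ^ 2 - s * (s + 1) * (s + 2) / 6 * w ^ 3) =
      (Complex.exp x - (1 + x + x ^ 2 / 2 + x ^ 3 / 6)) +
      ((1 + x + x ^ 2 / 2 + x ^ 3 / 6) - (1 + y + y ^ 2 / 2 + y ^ 3 / 6)) +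
      ((1 + y + y ^ 2 / 2 + y ^ 3 / 6) -
        (1 - s * w + s * (s + 1) / 2 * w ^ 2 - s * (s + 1) * (s + 2) / 6 * w ^ 3)) := by ring
  rw [e1]
  refine norm_add₃_le.trans ?_
  have : (1296 * Real.exp 3 + 60) * ‖w‖ ^ 4 =
      1296 * Real.exp 3 * ‖w‖ ^ 4 + 13 * ‖w‖ ^ 4 + 47 * ‖w‖ ^ 4 := by ring
  rw [this]
  gcongr

end Pool.Agent.STg.An
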