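import Mathlib

set_option autoImplicit false

open Complex Filter Topology
open scoped ComplexConjugate

namespace Pool.Agent.STg.An

/-! the absolute value as a product of two holomorphic functions. -/

/-- Proof: both sides are `exp (-2 s log ‖v‖)`: `v ^ (-s) = exp (-s log v)`,
`conj (v ^ (-conj s)) = exp (-s conj (log v))` and `log v + conj (log v) = 2 re (log v) = 2 log ‖v‖`. -/
theorem norm_cpow_split {v : ℂ} (hv : v ≠ 0) (s : ℂ) :
    (((‖v‖ : ℝ) : ℂ)) ^ (-2 * s) = v ^ (-s) * conj (v ^ (-(conj s))) := by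
  have hv' : ((‖v‖ : ℝ) : ℂ) ≠ 0 := by
    rw [Ne, Complex.ofReal_eq_zero, norm_eq_zero]
    exact hv
  rw [Complex.cpow_def_of_ne_zero hv', Complex.cpow_def_of_ne_zero hv,
    Complex.cpow_def_of_ne_zero hv, ← Complex.exp_conj, ← Complex.exp_add]
  congr 1
  rw [map_mul, map_neg, Complex.conj_conj]
  have h1 : Complex.log v + conj (Complex.log v) = ((2 * Real.log ‖v‖ : ℝ) : ℂ) := by
    rw [Complex.add_conj, Complex.log_re]
  have h2 : Complex.log ((‖v‖ : ℝ) : ℂ) = ((Real.log ‖v‖ : ℝ) : ℂ) :=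
    (Complex.ofReal_log (norm_nonneg v)).symm
  rw [h2]
  push_cast at h1
  linear_combination (s) * h1

/-! the four-fold average of the Taylor polynomials. -/

/-- The Taylor polynomial of `(1 + w) ^ (-s)`. -/
noncomputable def TP (s w : ℂ) : ℂ :=
  1 - s * w + s * (s + 1) / 2 * w ^ 2 - s * (s + 1) * (s + 2) / 6 * w ^ 3

/-- Proof: unfold, `ring_nf`, `I ^ 2 = -1`. -/
theorem avg_TP (s w v : ℂ) :
    (TP s w * TP s v + TP s (I * w) * TP s (-(I * v)) + TP s (-w) * TP s (-v) +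
      TP s (-(I * w)) * TP s (I * v)) / 4 =
    1 + s ^ 2 * (w * v) + (s * (s + 1) / 2) ^ 2 * (w * v) ^ 2 +
      (s * (s + 1) * (s + 2) / 6) ^ 2 * (w * v) ^ 3 := by
  have h2 : I ^ 2 = -1 := Complex.I_sq
  have h3 : I ^ 3 = -I := by rw [pow_succ, h2]; ring
  have h4 : I ^ 4 = 1 := Complex.I_pow_four
  have h5 : I ^ 5 = I := by rw [pow_succ, h4]; ring
  have h6 : I ^ 6 = -1 := by rw [pow_succ, h5, ← sq, h2]
  unfold TP
  ring_nf
  simp only [h2, h3, h4, h5, h6]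
  ring

theorem TP_conj (s w : ℂ) : conj (TP (conj s) w) = TP s (conj w) := by
  unfold TP
  simp only [map_sub, map_add, map_mul, map_div₀, map_pow, map_one, Complex.conj_conj,
    Complex.conj_ofNat]

/-- Proof: each of the terms has norm at most `60` for `‖s‖ ≤ 3`, `‖w‖ ≤ 1`. -/
theorem TP_norm_le {s w : ℂ} (hs : ‖s‖ ≤ 3) (hw : ‖w‖ ≤ 1 / 2) : ‖TP s w‖ ≤ 60 := by
  have hs0 := norm_nonneg s
  have hw0 := norm_nonneg w
  have h1 : ‖s + 1‖ ≤ 4 := by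
    refine (norm_add_le _ _).trans ?_
    rw [norm_one]; linarith
  have h2 : ‖s + 2‖ ≤ 5 := by
    refine (norm_add_le _ _).trans ?_
    have : ‖(2 : ℂ)‖ = 2 := by norm_num
    rw [this]; linarith
  have hw2 : ‖w‖ ^ 2 ≤ 1 / 4 := by nlinarith
  have hw3 : ‖w‖ ^ 3 ≤ 1 / 8 := by
    calc ‖w‖ ^ 3 = ‖w‖ ^ 2 * ‖w‖ := by ring
      _ ≤ 1 / 4 * (1 / 2) := mul_le_mul hw2 hw hw0 (by norm_num)
      _ = 1 / 8 := by norm_num
  have t1 : ‖s * w‖ ≤ 3 / 2 := by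
    rw [norm_mul]
    calc ‖s‖ * ‖w‖ ≤ 3 * (1 / 2) := mul_le_mul hs hw hw0 (by norm_num)
      _ = 3 / 2 := by norm_num
  have ss : ‖s * (s + 1)‖ ≤ 12 := by
    rw [norm_mul]
    calc ‖s‖ * ‖s + 1‖ ≤ 3 * 4 := mul_le_mul hs h1 (norm_nonneg _) (by norm_num)
      _ = 12 := by norm_num
  have sss : ‖s * (s + 1) * (s + 2)‖ ≤ 60 := by
    rw [norm_mul]
    calc ‖s * (s + 1)‖ * ‖s + 2‖ ≤ 12 * 5 := mul_le_mul ss h2 (norm_nonneg _) (by norm_num)
      _ = 60 := by norm_num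
  have t2 : ‖s * (s + 1) / 2 * w ^ 2‖ ≤ 3 / 2 := by
    rw [norm_mul, norm_div, norm_pow]
    have : ‖(2 : ℂ)‖ = 2 := by norm_num
    rw [this]
    calc ‖s * (s + 1)‖ / 2 * ‖w‖ ^ 2 ≤ 12 / 2 * (1 / 4) :=
          mul_le_mul (by linarith) hw2 (by positivity) (by norm_num)
      _ = 3 / 2 := by norm_num
  have t3 : ‖s * (s + 1) * (s + 2) / 6 * w ^ 3‖ ≤ 5 / 4 := by
    rw [norm_mul, norm_div, norm_pow]
    have : ‖(6 : ℂ)‖ = 6 := by norm_num
    rw [this]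
    calc ‖s * (s + 1) * (s + 2)‖ / 6 * ‖w‖ ^ 3 ≤ 60 / 6 * (1 / 8) :=
          mul_le_mul (by linarith) hw3 (by positivity) (by norm_num)
      _ = 5 / 4 := by norm_num
  unfold TP
  refine (norm_sub_le _ _).trans ?_
  refine (add_le_add ((norm_add_le _ _).trans (add_le_add (norm_sub_le _ _) le_rfl)) le_rfl).trans ?_
  rw [norm_one]
  linarith

end Pool.Agent.STg.An
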