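import Pool.Agent.Lib.MP_1ef7cf_nt_g.D1a

/-!
# Multiplication formulas with coefficients in `ℚ(i)`
-/

open Complex Polynomial

namespace Pool.Agent.STg

variable (D : LemData)

/-- from `X_inj`: the differences and sums are `(n ± m) √2`, not in the lattice -/
lemma LemData.X_sqrt_injective :
    Function.Injective (fun n : ℕ => D.X (((n : ℂ) + 1) * (Real.sqrt 2 : ℂ))) := by
  intro n m h
  by_contra hnm
  have hL : ∀ (k : ℕ), ((k : ℂ) + 1) * (Real.sqrt 2 : ℂ) ∉ Lam := by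
    intro k hk
    have := nt_sqrt k 1 one_ne_zero
    rw [GaussianInt.toComplex_one, one_mul] at this
    exact this hk
  have hZ : ∀ j : ℤ, j ≠ 0 → (j : ℂ) * (Real.sqrt 2 : ℂ) ∉ Lam := by
    intro j hj hjL
    have h1 := nt_sqrt 0 (j : GaussianInt) (by exact_mod_cast hj)
    apply h1
    have h2 : (((j : ℤ) : GaussianInt) : ℂ) = (j : ℂ) := by
      rw [GaussianInt.toComplex_def]
      simp
    rw [h2]
    simpa using hjL
  rcases D.X_inj _ _ (hL n) (hL m) h with h1 | h1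
  · apply hZ ((n : ℤ) - m) (by omega)
    have h2 : ((((n : ℤ) - m : ℤ)) : ℂ) * (Real.sqrt 2 : ℂ) =
        ((n : ℂ) + 1) * (Real.sqrt 2 : ℂ) - ((m : ℂ) + 1) * (Real.sqrt 2 : ℂ) := by
      push_cast
      ring
    rw [h2]
    exact h1
  · apply hZ ((n : ℤ) + m + 2) (by omega)
    have h2 : ((((n : ℤ) + m + 2 : ℤ)) : ℂ) * (Real.sqrt 2 : ℂ) =
        ((n : ℂ) + 1) * (Real.sqrt 2 : ℂ) + ((m : ℂ) + 1) * (Real.sqrt 2 : ℂ) := by
      push_cast
      ring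
    rw [h2]
    exact h1

/-- `X (β z)` is a rational function of `X z` with coefficients in `ℚ(i)`. -/
def LemData.IsRat (β : GaussianInt) : Prop :=
  ∃ A B : Polynomial QI, ∀ z : ℂ, NT z → aeval (D.X z) B ≠ 0 ∧
    D.X (β * z) * aeval (D.X z) B = aeval (D.X z) A

/-- if `z` is not torsion then `X (β z) ≠ 0` (otherwise `X (β z) = X ((1 + i) / 2)`). -/
lemma LemData.X_ne_zero {z : ℂ} (hz : NT z) {β : GaussianInt} (hβ : β ≠ 0) : D.X (β * z) ≠ 0 := by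
  intro h
  have hw : ((1 + I) / 2 : ℂ) ∉ Lam := by
    have h1 : gOdd 1 := by
      refine ⟨0, ?_⟩
      rw [gN_one]
      norm_num
    have h := w0_notMem h1
    rwa [GaussianInt.toComplex_one, one_mul] at h
  rw [← D.X_w0] at h
  have h2c : ((2 : GaussianInt) : ℂ) = 2 := by
    have h : (2 : GaussianInt) = 1 + 1 := by norm_num
    rw [h, GaussianInt.toComplex_add, GaussianInt.toComplex_one]
    norm_num
  have h20 : (2 : GaussianInt) ≠ 0 := by decide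
  have hone : ((⟨1, 1⟩ : GaussianInt) : ℂ) = 1 + I := by
    rw [GaussianInt.toComplex_def]
    simp
  have key : ∀ v : ℂ, v ∈ Lam → ∀ s : ℂ, (s = 1 ∨ s = -1) →
      (β : ℂ) * z = v + s * ((1 + I) / 2) → False := by
    intro v hv s hs hvz
    apply hz (2 * β) (mul_ne_zero h20 hβ)
    rw [GaussianInt.toComplex_mul, h2c, mul_assoc, hvz]
    have h3 : (2 : ℂ) * (v + s * ((1 + I) / 2)) = 2 * v + s * (1 + I) := by ring
    rw [h3]
    refine Lam_add ?_ ?_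
    · have := Lam_mul 2 hv
      rwa [h2c] at this
    · rcases hs with rfl | rfl
      · exact ⟨⟨1, 1⟩, by change ((⟨1, 1⟩ : GaussianInt) : ℂ) = _; rw [hone, one_mul]⟩
      · rw [neg_one_mul]
        exact Lam_neg ⟨⟨1, 1⟩, by change ((⟨1, 1⟩ : GaussianInt) : ℂ) = _; rw [hone]⟩
  rcases D.X_inj _ _ (hz β hβ) hw h with h1 | h1
  · exact key _ h1 1 (Or.inl rfl) (by ring)
  · exact key _ h1 (-1) (Or.inr rfl) (by ring)

lemma LemData.isRat_one : D.IsRat 1 := by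
  refine ⟨Polynomial.X, 1, fun z _ => ?_⟩
  rw [GaussianInt.toComplex_one, one_mul]
  simp

/-- `X (i β z) = - X (β z)` -/
lemma LemData.IsRat.I_mul {β : GaussianInt} (h : D.IsRat β) : D.IsRat (⟨0, 1⟩ * β) := by
  obtain ⟨A, B, hAB⟩ := h
  refine ⟨-A, B, fun z hz => ?_⟩
  obtain ⟨h1, h2⟩ := hAB z hz
  refine ⟨h1, ?_⟩
  have h3 : ((⟨0, 1⟩ * β : GaussianInt) : ℂ) * z = I * ((β : ℂ) * z) := by
    rw [GaussianInt.toComplex_mul, GaussianInt.toComplex_def']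
    simp
    ring
  rw [h3, D.X_I, map_neg, ← h2]
  ring

/-- the constants of `ℚ(i)` -/
private noncomputable def D1_i : QI := ⟨I, I_mem_QI⟩

private lemma D1_i_coe : (algebraMap QI ℂ) D1_i = I := rfl

/-- `X ((1 + i) β z) = (X (β z) ^ 2 - 1) / (2 i X (β z)) = (A ^ 2 - B ^ 2) / (2 i A B)` -/
lemma LemData.IsRat.oneI_mul {β : GaussianInt} (hβ : β ≠ 0) (h : D.IsRat β) :
    D.IsRat (⟨1, 1⟩ * β) := by
  obtain ⟨A, B, hAB⟩ := h
  refine ⟨A ^ 2 - B ^ 2, C (2 * D1_i) * A * B, fun z hz => ?_⟩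
  obtain ⟨h1, h2⟩ := hAB z hz
  have h0 := D.X_ne_zero hz hβ
  have hone : ((⟨1, 1⟩ : GaussianInt) : ℂ) = 1 + I := by
    rw [GaussianInt.toComplex_def]
    simp
  have h3 : ((⟨1, 1⟩ * β : GaussianInt) : ℂ) * z = (1 + I) * ((β : ℂ) * z) := by
    rw [GaussianInt.toComplex_mul, hone]
    ring
  have h10 : (⟨1, 1⟩ : GaussianInt) ≠ 0 := by decide
  have h4 := D.X_oneI ((β : ℂ) * z) (hz β hβ) (by
    rw [← h3]
    exact hz _ (mul_ne_zero h10 hβ))
  have hA0 : aeval (D.X z) A ≠ 0 := by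
    rw [← h2]
    exact mul_ne_zero h0 h1
  have hC : aeval (D.X z) (C (2 * D1_i)) = 2 * I := by
    rw [Polynomial.aeval_C, map_mul, D1_i_coe, map_ofNat]
  constructor
  · rw [map_mul, map_mul, hC]
    exact mul_ne_zero (mul_ne_zero (mul_ne_zero two_ne_zero I_ne_zero) hA0) h1
  · rw [h3, map_mul, map_mul, hC, map_sub, map_pow, map_pow, ← h2]
    linear_combination (aeval (D.X z) B) ^ 2 * h4

/-- `X ((β + 1) z) X ((β - 1) z) (X (β z) - X z) ^ 2 = (1 + X (β z) X z) ^ 2` (`X_mul`). With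
`X (β z) = A / B`, `X ((β - 1) z) = C / E`, `x = X z`:
`X ((β + 1) z) = (B + x A) ^ 2 E / ((A - x B) ^ 2 C)`. -/
lemma LemData.IsRat.add_one {β : GaussianInt} (h0 : β ≠ 0) (h1 : β - 1 ≠ 0) (h2 : β + 1 ≠ 0)
    (h : D.IsRat β) (h' : D.IsRat (β - 1)) : D.IsRat (β + 1) := by
  obtain ⟨A, B, hAB⟩ := h
  obtain ⟨E, F, hEF⟩ := h'
  refine ⟨(B + Polynomial.X * A) ^ 2 * F, (A - Polynomial.X * B) ^ 2 * E, fun z hz => ?_⟩
  obtain ⟨h3, h4⟩ := hAB z hz
  obtain ⟨h5, h6⟩ := hEF z hz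
  have hz1 : z ∉ Lam := by
    have := hz 1 one_ne_zero
    rwa [GaussianInt.toComplex_one, one_mul] at this
  have e1 : ((β + 1 : GaussianInt) : ℂ) * z = (β : ℂ) * z + z := by
    rw [GaussianInt.toComplex_add, GaussianInt.toComplex_one]
    ring
  have e2 : ((β - 1 : GaussianInt) : ℂ) * z = (β : ℂ) * z - z := by
    rw [GaussianInt.toComplex_sub, GaussianInt.toComplex_one]
    ring
  have h7 := D.X_mul ((β : ℂ) * z) z (hz β h0) hz1 (by rw [← e1]; exact hz _ h2)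
    (by rw [← e2]; exact hz _ h1)
  have h8 := D.X_ne_zero hz h1
  have h9 : D.X ((β : ℂ) * z) ≠ D.X z := by
    intro h
    rcases D.X_inj _ _ (hz β h0) hz1 h with h10 | h10
    · rw [← e2] at h10
      exact hz _ h1 h10
    · rw [← e1] at h10
      exact hz _ h2 h10
  rw [e2] at h6 h8
  rw [e1]
  have hE0 : aeval (D.X z) E ≠ 0 := by
    rw [← h6]
    exact mul_ne_zero h8 h5
  simp only [map_mul, map_pow, map_add, map_sub, Polynomial.aeval_X]
  rw [← h4]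
  constructor
  · refine mul_ne_zero (pow_ne_zero 2 ?_) hE0
    have h11 : D.X ((β : ℂ) * z) * aeval (D.X z) B - D.X z * aeval (D.X z) B =
        (D.X ((β : ℂ) * z) - D.X z) * aeval (D.X z) B := by ring
    rw [h11]
    exact mul_ne_zero (sub_ne_zero.2 h9) h3
  · rw [← h6]
    linear_combination (aeval (D.X z) B) ^ 2 * (aeval (D.X z) F) * h7

/-- the same with `i`: `X (i z) = - X z` -/
lemma LemData.IsRat.add_I {β : GaussianInt} (h0 : β ≠ 0) (h1 : β - ⟨0, 1⟩ ≠ 0)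
    (h2 : β + ⟨0, 1⟩ ≠ 0) (h : D.IsRat β) (h' : D.IsRat (β - ⟨0, 1⟩)) : D.IsRat (β + ⟨0, 1⟩) := by
  obtain ⟨A, B, hAB⟩ := h
  obtain ⟨E, F, hEF⟩ := h'
  refine ⟨(B - Polynomial.X * A) ^ 2 * F, (A + Polynomial.X * B) ^ 2 * E, fun z hz => ?_⟩
  obtain ⟨h3, h4⟩ := hAB z hz
  obtain ⟨h5, h6⟩ := hEF z hz
  have hi : ((⟨0, 1⟩ : GaussianInt) : ℂ) = I := by
    rw [GaussianInt.toComplex_def]
    simp
  have hz1 : I * z ∉ Lam := by
    have h10 : (⟨0, 1⟩ : GaussianInt) ≠ 0 := by decide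
    have := hz _ h10
    rwa [hi] at this
  have e1 : ((β + ⟨0, 1⟩ : GaussianInt) : ℂ) * z = (β : ℂ) * z + I * z := by
    rw [GaussianInt.toComplex_add, hi]
    ring
  have e2 : ((β - ⟨0, 1⟩ : GaussianInt) : ℂ) * z = (β : ℂ) * z - I * z := by
    rw [GaussianInt.toComplex_sub, hi]
    ring
  have h7 := D.X_mul ((β : ℂ) * z) (I * z) (hz β h0) hz1 (by rw [← e1]; exact hz _ h2)
    (by rw [← e2]; exact hz _ h1)
  have h8 := D.X_ne_zero hz h1
  have h9 : D.X ((β : ℂ) * z) ≠ D.X (I * z) := by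
    intro h
    rcases D.X_inj _ _ (hz β h0) hz1 h with h10 | h10
    · rw [← e2] at h10
      exact hz _ h1 h10
    · rw [← e1] at h10
      exact hz _ h2 h10
  rw [D.X_I] at h7 h9
  rw [e2] at h6 h8
  rw [e1]
  have hE0 : aeval (D.X z) E ≠ 0 := by
    rw [← h6]
    exact mul_ne_zero h8 h5
  simp only [map_mul, map_pow, map_add, map_sub, Polynomial.aeval_X]
  rw [← h4]
  constructor
  · refine mul_ne_zero (pow_ne_zero 2 ?_) hE0
    have h11 : D.X ((β : ℂ) * z) * aeval (D.X z) B + D.X z * aeval (D.X z) B =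
        (D.X ((β : ℂ) * z) - -D.X z) * aeval (D.X z) B := by ring
    rw [h11]
    exact mul_ne_zero (sub_ne_zero.2 h9) h3
  · rw [← h6]
    linear_combination (aeval (D.X z) B) ^ 2 * (aeval (D.X z) F) * h7

private lemma D1_ne {a b : ℤ} (h : a ≠ 0 ∨ b ≠ 0) : (⟨a, b⟩ : GaussianInt) ≠ 0 := by
  intro h0
  have h1 := congrArg Zsqrtd.re h0
  have h2 := congrArg Zsqrtd.im h0
  simp at h1 h2
  rcases h with h | h
  · exact h h1
  · exact h h2

private lemma D1_row (D : LemData) (b : ℤ) (h0 : D.IsRat ⟨1, b⟩)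
    (h1 : D.IsRat ⟨2, b⟩) : ∀ a : ℕ, D.IsRat ⟨(a : ℤ) + 1, b⟩ ∧ D.IsRat ⟨(a : ℤ) + 2, b⟩ := by
  intro a
  induction a with
  | zero => exact ⟨by simpa using h0, by simpa using h1⟩
  | succ a ih =>
    have e1 : (((a + 1 : ℕ) : ℤ) + 1) = (a : ℤ) + 2 := by push_cast; ring
    have e2 : (⟨((a + 1 : ℕ) : ℤ) + 2, b⟩ : GaussianInt) = ⟨(a : ℤ) + 2, b⟩ + 1 := by
      refine Zsqrtd.ext ?_ ?_
      · simp
        ring
      · simp
    have e3 : (⟨(a : ℤ) + 2, b⟩ : GaussianInt) - 1 = ⟨(a : ℤ) + 1, b⟩ := by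
      refine Zsqrtd.ext ?_ ?_
      · simp
        ring
      · simp
    refine ⟨by rw [e1]; exact ih.2, ?_⟩
    rw [e2]
    refine LemData.IsRat.add_one D (D1_ne (Or.inl (by omega))) ?_ ?_ ih.2 ?_
    · rw [e3]
      exact D1_ne (Or.inl (by omega))
    · rw [← e2]
      exact D1_ne (Or.inl (by push_cast; omega))
    · rw [e3]
      exact ih.1

private lemma D1_quad (D : LemData) : ∀ b : ℕ, (∀ a : ℕ, D.IsRat ⟨(a : ℤ) + 1, b⟩) ∧
    ∀ a : ℕ, D.IsRat ⟨(a : ℤ) + 1, (b : ℤ) + 1⟩ := by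
  intro b
  induction b with
  | zero =>
    have h11 : D.IsRat ⟨1, 1⟩ := by
      have h := LemData.IsRat.oneI_mul D one_ne_zero D.isRat_one
      rwa [mul_one] at h
    have h2 : D.IsRat ⟨2, 0⟩ := by
      have h := LemData.IsRat.I_mul D (LemData.IsRat.I_mul D (LemData.IsRat.I_mul D
        (LemData.IsRat.oneI_mul D (D1_ne (Or.inl one_ne_zero)) h11)))
      have e : (⟨0, 1⟩ * (⟨0, 1⟩ * (⟨0, 1⟩ * (⟨1, 1⟩ * ⟨1, 1⟩))) : GaussianInt) = ⟨2, 0⟩ := by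
        decide
      rwa [e] at h
    have h21 : D.IsRat ⟨2, 1⟩ := by
      have e1 : (⟨2, 1⟩ : GaussianInt) = ⟨1, 1⟩ + 1 := by decide
      have e2 : (⟨1, 1⟩ - 1 : GaussianInt) = ⟨0, 1⟩ * 1 := by decide
      rw [e1]
      refine LemData.IsRat.add_one D (by decide) (by decide) (by decide) h11 ?_
      rw [e2]
      exact LemData.IsRat.I_mul D D.isRat_one
    constructor
    · intro a
      have h := (D1_row D 0 (by
        have e : (⟨1, 0⟩ : GaussianInt) = 1 := by decide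
        rw [e]
        exact D.isRat_one) h2 a).1
      exact_mod_cast h
    · intro a
      have h := (D1_row D 1 h11 h21 a).1
      simpa using h
  | succ b ih =>
    refine ⟨fun a => by exact_mod_cast ih.2 a, fun a => ?_⟩
    have e1 : (⟨(a : ℤ) + 1, ((b + 1 : ℕ) : ℤ) + 1⟩ : GaussianInt) =
        ⟨(a : ℤ) + 1, (b : ℤ) + 1⟩ + ⟨0, 1⟩ := by
      refine Zsqrtd.ext ?_ ?_
      · simp
      · simp
    have e2 : (⟨(a : ℤ) + 1, (b : ℤ) + 1⟩ - ⟨0, 1⟩ : GaussianInt) = ⟨(a : ℤ) + 1, b⟩ := by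
      refine Zsqrtd.ext ?_ ?_
      · simp
      · simp
    rw [e1]
    refine LemData.IsRat.add_I D (D1_ne (Or.inl (by omega))) ?_ ?_ (ih.2 a) ?_
    · rw [e2]
      exact D1_ne (Or.inl (by omega))
    · rw [← e1]
      exact D1_ne (Or.inl (by omega))
    · rw [e2]
      exact ih.1 a

private lemma D1_pos (D : LemData) (a b : ℤ) (ha : 0 < a) (hb : 0 ≤ b) : D.IsRat ⟨a, b⟩ := by
  obtain ⟨n, rfl⟩ := Int.eq_ofNat_of_zero_le hb
  obtain ⟨m, hm⟩ := Int.eq_ofNat_of_zero_le (show 0 ≤ a - 1 by omega)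
  have h := (D1_quad D n).1 m
  have e : a = (m : ℤ) + 1 := by omega
  rw [e]
  exact h

/-- **The ladder.** Every non-zero `β` is `i ^ k (a + b i)` with `a ≥ 1`, `b ≥ 0` (`I_mul`). For
these, induction on `b`: `b = 0`: `a = 1` is `isRat_one`, `a = 2`: `2 = -i (1 + i) ^ 2`, `a ≥ 3`:
`add_one`. `b = 1`: `a = 1` is `1 + i`; `a = 2`: `add_one` with `β = 1 + i`, `β - 1 = i`; `a ≥ 3`:
`add_one`. `b ≥ 2`: `add_I` with `β = a + (b - 1) i`. -/
theorem LemData.isRat {β : GaussianInt} (hβ : β ≠ 0) : D.IsRat β := by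
  obtain ⟨x, y⟩ := β
  by_cases h1 : 0 < x ∧ 0 ≤ y
  · exact D1_pos D x y h1.1 h1.2
  by_cases h2 : x ≤ 0 ∧ 0 < y
  · have e : (⟨x, y⟩ : GaussianInt) = ⟨0, 1⟩ * ⟨y, -x⟩ := by
      refine Zsqrtd.ext ?_ ?_ <;> simp
    rw [e]
    exact LemData.IsRat.I_mul D (D1_pos D y (-x) h2.2 (by omega))
  by_cases h3 : x < 0 ∧ y ≤ 0
  · have e : (⟨x, y⟩ : GaussianInt) = ⟨0, 1⟩ * (⟨0, 1⟩ * ⟨-x, -y⟩) := by
      refine Zsqrtd.ext ?_ ?_ <;> simp
    rw [e]
    exact LemData.IsRat.I_mul D (LemData.IsRat.I_mul D (D1_pos D (-x) (-y) (by omega) (by omega)))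
  by_cases h4 : 0 ≤ x ∧ y < 0
  · have e : (⟨x, y⟩ : GaussianInt) = ⟨0, 1⟩ * (⟨0, 1⟩ * (⟨0, 1⟩ * ⟨-y, x⟩)) := by
      refine Zsqrtd.ext ?_ ?_ <;> simp
    rw [e]
    exact LemData.IsRat.I_mul D (LemData.IsRat.I_mul D (LemData.IsRat.I_mul D
      (D1_pos D (-y) x (by omega) h4.1)))
  · exfalso
    apply hβ
    have hx : x = 0 := by omega
    have hy : y = 0 := by omega
    rw [hx, hy]
    rfl

end Pool.Agent.STg
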