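import Pool.Agent.Lib.MP_1ef7cf_nt_g.Mg.G050
import Pool.Agent.Lib.MP_1ef7cf_nt_g.Mg.G052
import Pool.Agent.Lib.MP_1ef7cf_nt_g.Mg.G054

set_option autoImplicit false

open NumberField IsDedekindDomain nonZeroDivisors IntermediateField

namespace Pool.Agent.STg.F

open Pool.Agent.ST

variable {K : Type*} [Field K] [NumberField K] [Algebra K ℝ] {σ₂ : K →+* ℝ} {e : (𝓞 K)ˣ}

omit [NumberField K] [Algebra K ℝ] in
lemma F07_coe (a c : ℤ) : (((a : 𝓞 K) + (c : 𝓞 K) * (e : 𝓞 K) : 𝓞 K) : K) =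
    (a : K) + (c : K) * ((e : 𝓞 K) : K) := by
  rw [RingOfIntegers.coe_eq_algebraMap, RingOfIntegers.coe_eq_algebraMap, map_add, map_mul,
    map_intCast, map_intCast]

lemma F07_sigma (D : FD σ₂ e) (a c : ℤ) :
    σ₂ (((a : 𝓞 K) + (c : 𝓞 K) * (e : 𝓞 K) : 𝓞 K) : K) =
      a - c * (algebraMap K ℝ ((e : 𝓞 K) : K))⁻¹ := by
  rw [F07_coe, map_add, map_mul, map_intCast, map_intCast, D.nrm]
  ring

lemma F07_alg (a c : ℤ) :
    algebraMap K ℝ (((a : 𝓞 K) + (c : 𝓞 K) * (e : 𝓞 K) : 𝓞 K) : K) =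
      a + c * (algebraMap K ℝ ((e : 𝓞 K) : K)) := by
  rw [F07_coe, map_add, map_mul, map_intCast, map_intCast]

/-- TASK F07 (reciprocity for primitive elements `a + c e`).
PROOF. Put `b = a + c e`, `N = a ^ 2 + a c T - c ^ 2 = norm b` (`norm_lin`, `T = tre e`), `n = N.natAbs = absNorm (span {b})` (`absNorm_nat`). `N` is odd, so
`b ≠ 0`, and `IsCoprime (span {b}) (span {2})` (`b` divides `N` in `𝓞 K`: `N = b (a + c T - c e)` by `e_sq`, and `N` is odd: `1 = N - 2 t`).
If `c = 0`: `IsCoprime a 0` gives `a = 1` or `a = -1`, `span {b} = ⊤`, `chiI_top`, and `σ₂ b = a`: check the two cases (`χ₄ 1 = 1`, `χ₄ (-1) = -1`).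
If `c ≠ 0`: `IsCoprime c N` in `ℤ`, so there are integers `u, w` with `u c + w N = 1`. Put `e₀ = -(a u)`. Then `e - e₀ = (u c + w N) e + a u = u (a + c e) + w N e ∈
span {b}` because `b ∣ N`. By `chiI_int` (F05) `chiI e (span {b}) = jacobiSym e₀ n`. `c e₀ = -(a c u) ≡ -a` modulo `N` (`c u = 1 - w N`), so
`jacobiSym c n * jacobiSym e₀ n = jacobiSym (-a) n` (`jacobiSym.mul_left`, `jacobiSym.mod_left'`), `jacobiSym c n ^ 2 = 1` (`c`, `n` coprime), hence
`jacobiSym e₀ n = jacobiSym (-a) n * jacobiSym c n = jacobiSym (-(a c)) n`, which is given by `rec_int` (F06).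
Signs: let `t = algebraMap K ℝ e > 0`, `σ₂ e = -1/t`, `β₁ = a + c t`, `β₂ = σ₂ b = a - c / t`, `β₁ β₂ = N` (`norm_real`), `β₁ - β₂ = c (t + 1/t)`.
If `N > 0`: `β₁`, `β₂` have the same sign, and `a` lies (weakly) between them (`a - β₂ = c/t`, `β₁ - a = c t` have the same sign), so
`a` has the sign of `β₂`. If `N < 0`: they have opposite signs, so `β₂ > 0` iff `β₁ < 0`, and then `c (t + 1/t) = β₁ - β₂ < 0`, `c < 0`; `β₂ < 0` gives
`c > 0`. Insert in `rec_int`. -/
theorem chi_prim (D : FD σ₂ e) {a c : ℤ} (ha : Odd a) (hc : 8 ∣ c) (hac : IsCoprime a c) :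
    (0 < σ₂ (((a : 𝓞 K) + (c : 𝓞 K) * (e : 𝓞 K) : 𝓞 K) : K) →
      chiI e (Ideal.span {(a : 𝓞 K) + (c : 𝓞 K) * (e : 𝓞 K)}) = ZMod.χ₄ (a : ZMod 4)) ∧
    (σ₂ (((a : 𝓞 K) + (c : 𝓞 K) * (e : 𝓞 K) : 𝓞 K) : K) < 0 →
      chiI e (Ideal.span {(a : 𝓞 K) + (c : 𝓞 K) * (e : 𝓞 K)}) = -ZMod.χ₄ (a : ZMod 4)) := by
  set t : ℝ := algebraMap K ℝ ((e : 𝓞 K) : K) with ht
  have ht0 : 0 < t := D.pos
  have hti : 0 < t⁻¹ := inv_pos.2 ht0
  have hσ := F07_sigma D a c
  have hα := F07_alg (K := K) (e := e) a c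
  rw [← ht] at hσ hα
  by_cases hc0 : c = 0
  · subst hc0
    have hau : IsUnit a := isCoprime_zero_right.1 hac
    have hb : ((a : 𝓞 K) + ((0 : ℤ) : 𝓞 K) * (e : 𝓞 K)) = (a : 𝓞 K) := by
      push_cast; ring
    rw [hb] at hσ ⊢
    have hspan : Ideal.span {(a : 𝓞 K)} = ⊤ := by
      rw [Ideal.span_singleton_eq_top]
      exact hau.map (Int.castRingHom (𝓞 K))
    rw [hspan, chiI_top, hσ]
    rcases Int.isUnit_iff.1 hau with h1 | h1
    · subst h1
      refine ⟨fun _ => ?_, fun h => ?_⟩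
      · rw [Int.cast_one, map_one]
      · exfalso
        push_cast at h
        linarith
    · subst h1
      refine ⟨fun h => ?_, fun _ => ?_⟩
      · exfalso
        push_cast at h
        linarith
      · have : ZMod.χ₄ ((-1 : ℤ) : ZMod 4) = -1 := by decide
        rw [this]
        norm_num
  · set b : 𝓞 K := (a : 𝓞 K) + (c : 𝓞 K) * (e : 𝓞 K) with hbd
    set T := tre e with hT
    set N : ℤ := a ^ 2 + a * c * T - c ^ 2 with hN
    have hnorm : Algebra.norm ℤ b = N := norm_lin D a c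
    have habs : Ideal.absNorm (Ideal.span {b}) = N.natAbs := by rw [absNorm_nat, hnorm]
    have hbN : (N : 𝓞 K) = b * ((a : 𝓞 K) + (c : 𝓞 K) * (T : 𝓞 K) - (c : 𝓞 K) * (e : 𝓞 K)) := by
      have h1 := e_sq D
      rw [hbd, hN]
      push_cast
      linear_combination (c : 𝓞 K) ^ 2 * h1
    have hNodd : Odd N := by
      obtain ⟨k, hk⟩ := hc
      obtain ⟨j, hj⟩ := ha
      refine ⟨2 * j ^ 2 + 2 * j + 4 * a * k * T - 32 * k ^ 2, ?_⟩
      rw [hN, hk, hj]
      ring
    have hN0 : N ≠ 0 := by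
      rintro h
      rw [h] at hNodd
      simp at hNodd
    have hb0 : b ≠ 0 := by
      intro h
      apply hN0
      have : (N : 𝓞 K) = 0 := by rw [hbN, h, zero_mul]
      exact_mod_cast this
    have hcop2 : IsCoprime (Ideal.span {b}) (Ideal.span {(2 : 𝓞 K)}) := by
      rw [Ideal.isCoprime_span_singleton_iff]
      obtain ⟨j, hj⟩ := hNodd
      refine ⟨(a : 𝓞 K) + (c : 𝓞 K) * (T : 𝓞 K) - (c : 𝓞 K) * (e : 𝓞 K), -(j : 𝓞 K), ?_⟩
      have h1 : (N : 𝓞 K) = 2 * (j : 𝓞 K) + 1 := by rw [hj]; push_cast; ring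
      rw [hbN] at h1
      linear_combination h1
    have hcN : IsCoprime c N := by
      have h1 : IsCoprime c (a ^ 2 + c * (a * T - c)) :=
        (hac.symm.pow_right (n := 2)).add_mul_left_right _
      have h2 : a ^ 2 + c * (a * T - c) = N := by rw [hN]; ring
      rwa [h2] at h1
    obtain ⟨u, w, huw⟩ := hcN
    set e₀ : ℤ := -(a * u) with he₀
    have hmem : (e : 𝓞 K) - (e₀ : 𝓞 K) ∈ Ideal.span {b} := by
      rw [Ideal.mem_span_singleton]
      refine ⟨(u : 𝓞 K) + (w : 𝓞 K) * (e : 𝓞 K) *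
        ((a : 𝓞 K) + (c : 𝓞 K) * (T : 𝓞 K) - (c : 𝓞 K) * (e : 𝓞 K)), ?_⟩
      have h1 : ((u * c + w * N : ℤ) : 𝓞 K) = 1 := by rw [huw]; simp
      push_cast at h1
      rw [he₀]
      push_cast
      have h2 : b * ((u : 𝓞 K) + (w : 𝓞 K) * (e : 𝓞 K) *
        ((a : 𝓞 K) + (c : 𝓞 K) * (T : 𝓞 K) - (c : 𝓞 K) * (e : 𝓞 K))) =
          (u : 𝓞 K) * b + (w : 𝓞 K) * (e : 𝓞 K) * (N : 𝓞 K) := by rw [hbN]; ring
      rw [h2, hbd]
      linear_combination -(e : 𝓞 K) * h1
    have hchi := chiI_int e (by rw [Ne, Ideal.span_singleton_eq_bot]; exact hb0) hcop2 e₀ hmem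
    rw [habs] at hchi
    set n := N.natAbs with hn
    have hnN : (n : ℤ) ∣ N := by rw [hn]; exact Int.natAbs_dvd.2 dvd_rfl
    have hgcd : Int.gcd c n = 1 := by
      rw [← Int.isCoprime_iff_gcd_eq_one]
      have h1 : IsCoprime c N := ⟨u, w, huw⟩
      exact h1.of_isCoprime_of_dvd_right hnN
    have hsq := jacobiSym.sq_one hgcd
    have hmod : jacobiSym (c * e₀) n = jacobiSym (-a) n := by
      apply jacobiSym.mod_left'
      have h1 : (n : ℤ) ∣ (c * e₀) - (-a) := by
        have h2 : (c * e₀) - (-a) = N * (a * w) := by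
          rw [he₀]
          linear_combination (-a) * huw
        rw [h2]
        exact hnN.mul_right _
      exact (Int.modEq_iff_dvd.2 h1).symm
    rw [jacobiSym.mul_left] at hmod
    have hfin : jacobiSym e₀ n = jacobiSym (-(a * c)) n := by
      have h1 : -(a * c) = (-a) * c := by ring
      rw [h1, jacobiSym.mul_left, ← hmod]
      calc jacobiSym e₀ n = (jacobiSym c n) ^ 2 * jacobiSym e₀ n := by rw [hsq, one_mul]
        _ = _ := by ring
    have hrec := rec_int (T := T) ha hc hac hc0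
    rw [← hN, ← hn] at hrec
    rw [hchi, hfin, hrec]
    have hprod := norm_real D b
    rw [hnorm, hα] at hprod
    have hσb : σ₂ (b : K) = a - c * t⁻¹ := hσ
    rw [hσb] at hprod ⊢
    have htt : t * t⁻¹ = 1 := mul_inv_cancel₀ ht0.ne'
    rcases lt_or_gt_of_ne hN0 with hneg | hpos
    · rw [if_neg (not_lt.2 hneg.le)]
      have hNR : (N : ℝ) < 0 := by exact_mod_cast hneg
      rw [hprod] at hNR
      refine ⟨fun h => ?_, fun h => ?_⟩
      · have h1 : (a : ℝ) + c * t < 0 := by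
          by_contra h2
          push Not at h2
          nlinarith
        have h3 : (c : ℝ) < 0 := by
          by_contra h2
          push Not at h2
          have h4 : (0 : ℝ) ≤ c * (t + t⁻¹) := mul_nonneg h2 (by linarith)
          nlinarith
        have h5 : c < 0 := by exact_mod_cast h3
        rw [Int.sign_eq_neg_one_of_neg h5]
        ring
      · have h1 : 0 < (a : ℝ) + c * t := by
          by_contra h2
          push Not at h2
          nlinarith
        have h3 : (0 : ℝ) < c := by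
          by_contra h2
          push Not at h2
          have h4 : (c : ℝ) * (t + t⁻¹) ≤ 0 := mul_nonpos_of_nonpos_of_nonneg h2 (by linarith)
          nlinarith
        have h5 : 0 < c := by exact_mod_cast h3
        rw [Int.sign_eq_one_of_pos h5]
        ring
    · rw [if_pos hpos]
      have hNR : (0 : ℝ) < N := by exact_mod_cast hpos
      rw [hprod] at hNR
      refine ⟨fun h => ?_, fun h => ?_⟩
      · have h1 : 0 < (a : ℝ) + c * t := by
          by_contra h2
          push Not at h2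
          nlinarith
        have h3 : (0 : ℝ) < a := by
          rcases le_total 0 c with h2 | h2
          · have h4 : (0 : ℝ) ≤ c * t⁻¹ := mul_nonneg (by exact_mod_cast h2) hti.le
            linarith
          · have h4 : (c : ℝ) * t ≤ 0 := mul_nonpos_of_nonpos_of_nonneg (by exact_mod_cast h2) ht0.le
            linarith
        have h5 : 0 < a := by exact_mod_cast h3
        rw [Int.sign_eq_one_of_pos h5]
        ring
      · have h1 : (a : ℝ) + c * t < 0 := by
          by_contra h2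
          push Not at h2
          nlinarith
        have h3 : (a : ℝ) < 0 := by
          rcases le_total 0 c with h2 | h2
          · have h4 : (0 : ℝ) ≤ c * t := mul_nonneg (by exact_mod_cast h2) ht0.le
            linarith
          · have h4 : (c : ℝ) * t⁻¹ ≤ 0 := mul_nonpos_of_nonpos_of_nonneg (by exact_mod_cast h2) hti.le
            linarith
        have h5 : a < 0 := by exact_mod_cast h3
        rw [Int.sign_eq_neg_one_of_neg h5]
        ring

end Pool.Agent.STg.F
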