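import Pool.Agent.Lib.MP_1ef7cf_nt_g.Mg.G050

set_option autoImplicit false

open NumberField IsDedekindDomain nonZeroDivisors IntermediateField

namespace Pool.Agent.STg.F

open Pool.Agent.ST

variable {K : Type*} [Field K] [NumberField K] [Algebra K ℝ] {σ₂ : K →+* ℝ} {e : (𝓞 K)ˣ}

theorem F13_key (D : FD σ₂ e) (x : 𝓞 K) : ∃ r n T : ℤ,
    r ^ 2 = n * (tre e ^ 2 + 4) ∧
    2 * ((tre e ^ 2 + 4 : ℤ) : 𝓞 K) * x =
      (((tre e ^ 2 + 4) * T - r * tre e : ℤ) : 𝓞 K) + ((2 * r : ℤ) : 𝓞 K) * (e : 𝓞 K) := by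
  have ht : ((tre e : ℤ) : ℝ) = algebraMap K ℝ ((e : 𝓞 K) : K) + σ₂ ((e : 𝓞 K) : K) :=
    trace_real D (e : 𝓞 K)
  have hN := norm_real D (e : 𝓞 K)
  rw [norm_e D] at hN
  have hT := trace_real D x
  have hNx := norm_real D x
  have hR := trace_real D (x * (e : 𝓞 K))
  have hmul : (((x * (e : 𝓞 K) : 𝓞 K)) : K) = (x : K) * ((e : 𝓞 K) : K) := rfl
  rw [hmul, map_mul (algebraMap K ℝ), map_mul σ₂] at hR
  set τ : ℝ := algebraMap K ℝ ((e : 𝓞 K) : K) with hτ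
  set τ' : ℝ := σ₂ ((e : 𝓞 K) : K) with hτ'
  set X : ℝ := algebraMap K ℝ (x : K) with hX
  set X' : ℝ := σ₂ (x : K) with hX'
  push_cast at hN
  refine ⟨2 * Algebra.trace ℤ (𝓞 K) (x * (e : 𝓞 K)) - tre e * Algebra.trace ℤ (𝓞 K) x,
    Algebra.trace ℤ (𝓞 K) x ^ 2 - 4 * Algebra.norm ℤ x, Algebra.trace ℤ (𝓞 K) x, ?_, ?_⟩
  · have : ((2 * Algebra.trace ℤ (𝓞 K) (x * (e : 𝓞 K)) -
        tre e * Algebra.trace ℤ (𝓞 K) x : ℤ) : ℝ) ^ 2 =
        ((Algebra.trace ℤ (𝓞 K) x ^ 2 - 4 * Algebra.norm ℤ x : ℤ) : ℝ) *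
          ((tre e ^ 2 + 4 : ℤ) : ℝ) := by
      push_cast
      rw [ht, hT, hNx, hR]
      have h4 : (4 : ℝ) = - 4 * (τ * τ') := by rw [← hN]; ring
      have h5 : ((τ + τ') ^ 2 + 4 : ℝ) = (τ - τ') ^ 2 := by
        rw [h4]; ring
      rw [h5]; ring
    exact_mod_cast this
  · have hinj : Function.Injective (fun y : 𝓞 K => algebraMap K ℝ (y : K)) := by
      intro y z h
      exact RingOfIntegers.ext ((algebraMap K ℝ).injective h)
    apply hinj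
    have hd : ((tre e : ℤ) : ℝ) ^ 2 + 4 = (τ - τ') ^ 2 := by
      rw [ht]; linear_combination (-4) * hN
    simp only [map_add, map_mul, map_intCast, map_ofNat]
    push_cast
    rw [hd, hR, hT, ht]
    rw [← hτ, ← hX]
    ring

/-- TASK F13 (an odd multiple of `2 x` is in `ℤ + ℤ e`).
PROOF. Let `t = tre e`, `d = t ^ 2 + 4`, `τ = algebraMap K ℝ e`, `τ' = σ₂ e = -1/τ`; `τ - τ' > 0`, `(τ - τ') ^ 2 = (τ + τ') ^ 2 - 4 τ τ' = t ^ 2 + 4 = d` (`trace_real`, `norm_real`,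
`norm_e`). For `x ∈ 𝓞 K` put `X = algebraMap K ℝ x`, `X' = σ₂ x`, `q = (X - X') / (τ - τ')`, `p = X - q τ = X' - q τ'`.
`q d = (X - X') (τ - τ') = X τ + X' τ' - X τ' - X' τ = trace (x e) - (trace x * t - trace (x e)) = 2 trace (x e) - t trace x =: r ∈ ℤ` (`trace_real` for `x e`, `x`, `e`).
Also `q ^ 2 d = (X - X') ^ 2 = (trace x) ^ 2 - 4 norm x =: n ∈ ℤ`. So `r ^ 2 = q ^ 2 d ^ 2 = n d`.
Claim: there are an odd `M > 0` and an integer `c` with `2 M r = c d`, i.e. `2 M q = c`. Write `d = 2 ^ u d'`, `d'` odd positive. `u ∈ {0, 2, 3}`: if `t` is odd, `d` is odd; if `t = 2 s`,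
`d = 4 (s ^ 2 + 1)` and `s ^ 2 + 1` is `1` or `2` modulo `4`. Take `M = d'`. We need `2 ^ u ∣ 2 r`, then `c = 2 r / 2 ^ u`
(`2 M q = 2 d' r / d = 2 r / 2 ^ u`). From `r ^ 2 = n d`, `2 ^ u ∣ r ^ 2`: `u = 0` is trivial; `u = 2`: `4 ∣ r ^ 2` gives `2 ∣ r`, `4 ∣ 2 r`; `u = 3`: `8 ∣ r ^ 2` gives `4 ∣ r`, `8 ∣ 2 r`.
Next `2 M p = M (2 p) = M (X + X' - q (τ + τ')) = M trace x - M q t`. If `u = 0` (`t` odd): `2 ∣ c`? Here `c = 2 r`, so `M q = r` is an integer: `a = M trace x - r t`.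
If `u ≥ 2`, `t = 2 s`: `M q t = c s`: `a = M trace x - c s`. So `2 M X = a + c τ`, and similarly `2 M X' = a + c τ'`; `2 M x = a + c e` in `𝓞 K` (apply the injective map
`algebraMap K ℝ`). -/
theorem exists_mul (D : FD σ₂ e) (x : 𝓞 K) : ∃ (M : ℕ) (a c : ℤ), Odd M ∧
    2 * (M : 𝓞 K) * x = (a : 𝓞 K) + (c : 𝓞 K) * (e : 𝓞 K) := by
  obtain ⟨r, n, T, h1, h2⟩ := F13_key D x
  have hcz : ∀ u : ℤ, u ≠ 0 → ((u : ℤ) : 𝓞 K) ≠ 0 := by
    intro u hu; exact_mod_cast hu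
  rcases Int.even_or_odd (tre e) with ht | ht
  · obtain ⟨s, hs⟩ := ht
    have hs2 : tre e = 2 * s := by rw [hs]; ring
    rw [hs2] at h1 h2
    have hd : ((2 * s) ^ 2 + 4 : ℤ) = 4 * (s ^ 2 + 1) := by ring
    rw [hd] at h1 h2
    have hr2 : Even r := by
      have : Even (r ^ 2) := by rw [h1]; exact ⟨n * (2 * (s ^ 2 + 1)), by ring⟩
      exact (Int.even_pow.mp this).1
    obtain ⟨r1, hr1⟩ := hr2
    have hr1' : r = 2 * r1 := by rw [hr1]; ring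
    subst hr1'
    have h3 : r1 ^ 2 = n * (s ^ 2 + 1) := by linarith
    rcases Int.even_or_odd s with hse | hso
    · refine ⟨(s ^ 2 + 1).natAbs, (s ^ 2 + 1) * T - r1 * s, r1, ?_, ?_⟩
      · rw [Int.natAbs_odd]
        exact (hse.pow_of_ne_zero (by norm_num)).add_one
      · have hM : (((s ^ 2 + 1).natAbs : ℕ) : 𝓞 K) = ((s ^ 2 + 1 : ℤ) : 𝓞 K) := by
          have : (((s ^ 2 + 1).natAbs : ℕ) : ℤ) = s ^ 2 + 1 := Int.natAbs_of_nonneg (by positivity)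
          rw [← Int.cast_natCast, this]
        rw [hM]
        apply mul_left_cancel₀ (hcz 4 (by norm_num))
        push_cast at h2 ⊢
        linear_combination h2
    · obtain ⟨k, hk⟩ := hso
      have hr3 : Even r1 := by
        have : Even (r1 ^ 2) := by
          rw [h3, hk]; exact ⟨n * (2 * k ^ 2 + 2 * k + 1), by ring⟩
        exact (Int.even_pow.mp this).1
      obtain ⟨r2, hr2⟩ := hr3
      have hr2' : r1 = 2 * r2 := by rw [hr2]; ring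
      subst hr2'
      refine ⟨(2 * k ^ 2 + 2 * k + 1).natAbs, (2 * k ^ 2 + 2 * k + 1) * T - r2 * s, r2, ?_, ?_⟩
      · rw [Int.natAbs_odd]
        exact ⟨k ^ 2 + k, by ring⟩
      · have hM : (((2 * k ^ 2 + 2 * k + 1).natAbs : ℕ) : 𝓞 K) =
            ((2 * k ^ 2 + 2 * k + 1 : ℤ) : 𝓞 K) := by
          have : (((2 * k ^ 2 + 2 * k + 1).natAbs : ℕ) : ℤ) = 2 * k ^ 2 + 2 * k + 1 :=
            Int.natAbs_of_nonneg (by nlinarith [sq_nonneg k, sq_nonneg (k + 1)])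
          rw [← Int.cast_natCast, this]
        rw [hM]
        apply mul_left_cancel₀ (hcz 8 (by norm_num))
        have hs4 : (s ^ 2 + 1 : ℤ) = 2 * (2 * k ^ 2 + 2 * k + 1) := by rw [hk]; ring
        rw [hs4] at h2
        push_cast at h2 ⊢
        linear_combination h2
  · refine ⟨(tre e ^ 2 + 4).natAbs, (tre e ^ 2 + 4) * T - r * tre e, 2 * r, ?_, ?_⟩
    · rw [Int.natAbs_odd]
      exact ht.pow.add_even (by decide)
    · have hM : (((tre e ^ 2 + 4).natAbs : ℕ) : 𝓞 K) = ((tre e ^ 2 + 4 : ℤ) : 𝓞 K) := by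
        have : (((tre e ^ 2 + 4).natAbs : ℕ) : ℤ) = tre e ^ 2 + 4 :=
          Int.natAbs_of_nonneg (by positivity)
        rw [← Int.cast_natCast, this]
      rw [hM]
      exact h2

end Pool.Agent.STg.F
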