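import Pool.Agent.Lib.MP_1ef7cf_nt_h.Mg.G002

set_option autoImplicit false

open NumberField IsDedekindDomain nonZeroDivisors IntermediateField

namespace Pool.Agent.STg.F

open Pool.Agent.ST

variable {K : Type*} [Field K] [NumberField K] [Algebra K ℝ] {σ₂ : K →+* ℝ} {e : (𝓞 K)ˣ}

lemma F25_coe_smul {H : IntermediateField K ℝ} (σ : H ≃ₐ[K] H) (y : 𝓞 H) :
    (((σ • y : 𝓞 H) : H) : ℝ) = act σ ((y : H) : ℝ) := by
  rw [act_coe]
  rfl

lemma F25_ext {H : IntermediateField K ℝ} {x y : 𝓞 H} (h : ((x : H) : ℝ) = ((y : H) : ℝ)) :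
    x = y := by
  apply RingOfIntegers.ext
  exact Subtype.ext h

omit [NumberField K] in
lemma F25_act_two {H : IntermediateField K ℝ} (σ : H ≃ₐ[K] H) {x : ℝ} (hx : x ∈ H) :
    act σ (2 * x) = 2 * act σ x := by
  have h5 : (2 : ℝ) = algebraMap K ℝ 2 := (map_ofNat _ 2).symm
  have h6 : act σ (2 * x) = act σ (algebraMap K ℝ 2 * x) := by rw [← h5]
  rw [h6, act_mul σ (IntermediateField.algebraMap_mem _ _) hx, act_algebraMap, ← h5]

/-- TASK F25 (`K(√e, cos (2 π / 2 ^ k)) / K` is unramified outside `2`).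
PROOF. `inertia_eq_one`: an automorphism `σ` with `σ • x - x ∈ P` for all integers `x` is `1`: by `ext_coords` (F22) it is enough that `act σ (se e) = se e` and `act σ (cos (2 π / 2 ^ i)) = cos (2 π / 2 ^ i)` for all `i ≤ k` (induction on `i`).
`se e`: it is an integer `s` with `s ^ 2 = e` (as in F17), `σ • s = ± s`, and `σ • s = -s` would give `2 s ∈ P`, `2 ∈ P`, contradiction (`s` is a unit). `i ≤ 2`: the cosine is `1, -1, 0`. Step: `y = 2 cos (2 π / 2 ^ (i+1))` (`exists_y`), `i + 1 ≥ 3`,
`y ^ 2 = 2 + 2 cos (2 π / 2 ^ i)` is fixed by `σ`, so `σ • y = ± y`; `σ • y = -y` gives `-2 y ∈ P`, so `2 ∈ P` or `y ∈ P`, and `y ∣ 2` (`y_dvd_two`): `2 ∈ P`, contradiction.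
`unram`: `P ≠ ⊥` (its intersection with `𝓞 K` is `v ≠ ⊥`). Mathlib: the inertia group `Ideal.inertia (Lf e k ≃ₐ[K] Lf e k) P` has cardinality `v.asIdeal.ramificationIdxIn (𝓞 L)` (`Ideal.card_inertia_eq_ramificationIdxIn`, NumberTheory/RamificationInertia/Galois.lean),
so the ramification index is `1`, and `P` is unramified (`Algebra.isUnramifiedAt_iff_of_isDedekindDomain` or similar; the other direction is used in `ncard_ovr_eq`, MP_1ef7cf_nt/Frob.lean: `Ideal.ramificationIdx_eq_one_of_isUnramifiedAt`, see also `Ideal.ramificationIdxIn_eq_ramificationIdx`). -/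
theorem inertia_eq_one (D : FD σ₂ e) (k : ℕ) (P : Ideal (𝓞 (Lf e k))) [P.IsPrime]
    (h2 : (2 : 𝓞 (Lf e k)) ∉ P) (σ : Lf e k ≃ₐ[K] Lf e k)
    (hσ : ∀ x : 𝓞 (Lf e k), σ • x - x ∈ P) : σ = 1 := by
  apply ext_coords
  · rw [act_one_left (se_mem e k)]
    -- the integer `√e`
    have hsq : se e ^ 2 = algebraMap K ℝ ((e : 𝓞 K) : K) := Real.sq_sqrt D.pos.le
    have hint : IsIntegral ℤ (⟨se e, se_mem e k⟩ : Lf e k) := by
      apply IsIntegral.of_pow (n := 2) (by norm_num)
      have h3 : (⟨se e, se_mem e k⟩ : Lf e k) ^ 2 = algebraMap K (Lf e k) ((e : 𝓞 K) : K) := by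
        apply Subtype.ext
        exact hsq
      rw [h3]
      exact (RingOfIntegers.isIntegral_coe (e : 𝓞 K)).map (algebraMap K (Lf e k)).toIntAlgHom
    set s : 𝓞 (Lf e k) := ⟨⟨se e, se_mem e k⟩, hint⟩ with hs
    have hs' : ((s : Lf e k) : ℝ) = se e := rfl
    have hss : s ^ 2 = algebraMap (𝓞 K) (𝓞 (Lf e k)) (e : 𝓞 K) := by
      apply F25_ext
      exact hsq
    have hu : IsUnit s := by
      have h3 : IsUnit (s ^ 2) := by
        rw [hss]
        exact (Units.isUnit e).map _
      exact (isUnit_pow_iff (by norm_num)).1 h3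
    have h1 : (act σ (se e)) ^ 2 = se e ^ 2 := by
      rw [← act_pow σ (se_mem e k), hsq, act_algebraMap]
    rcases sq_eq_sq_iff_eq_or_eq_neg.1 h1 with h | h
    · exact h
    · exfalso
      have h3 := hσ s
      have h4 : σ • s = -s := by
        apply F25_ext
        rw [F25_coe_smul, hs', h]
        rfl
      rw [h4] at h3
      have h5 : -s - s = 2 * (-s) := by ring
      rw [h5] at h3
      rcases (inferInstance : P.IsPrime).mem_or_mem h3 with h | h
      · exact h2 h
      · exact (inferInstance : P.IsPrime).ne_top (Ideal.eq_top_of_isUnit_mem _ h hu.neg)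
  · rw [act_one_left (cos_mem e k)]
    have key : ∀ i : ℕ, i ≤ k → act σ (Real.cos (2 * Real.pi / 2 ^ i)) =
        Real.cos (2 * Real.pi / 2 ^ i) := by
      intro i
      induction i with
      | zero =>
        intro _
        have h3 : Real.cos (2 * Real.pi / 2 ^ 0) = 1 := by simp
        rw [h3, act_one_right]
      | succ i ih =>
        intro hik
        have hmi := cos_mem_of_le (Lf e k) hik (cos_mem e k)
        have hmi' := cos_mem_of_le (Lf e k) (by omega : i ≤ k) (cos_mem e k)
        have ih' := ih (by omega)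
        have h1 : (act σ (Real.cos (2 * Real.pi / 2 ^ (i + 1)))) ^ 2 =
            Real.cos (2 * Real.pi / 2 ^ (i + 1)) ^ 2 := by
          rw [← act_pow σ hmi, F22_half]
          have h2 : (1 + Real.cos (2 * Real.pi / 2 ^ i)) / 2 =
              algebraMap K ℝ (1 / 2) + algebraMap K ℝ (1 / 2) * Real.cos (2 * Real.pi / 2 ^ i) := by
            simp only [map_div₀, map_one, map_ofNat]; ring
          rw [h2, act_add σ (IntermediateField.algebraMap_mem _ _)
            (mul_mem (IntermediateField.algebraMap_mem _ _) hmi'),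
            act_mul σ (IntermediateField.algebraMap_mem _ _) hmi', act_algebraMap, ih']
        rcases sq_eq_sq_iff_eq_or_eq_neg.1 h1 with h | h
        · exact h
        · by_cases hi : 3 ≤ i + 1
          · exfalso
            obtain ⟨y, hy⟩ := exists_y (Lf e k) hmi 1
            rw [Nat.cast_one, mul_one] at hy
            have hy2 := y_dvd_two (Lf e k) hi hmi y hy
            have h3 := hσ y
            have h4 : σ • y = -y := by
              apply F25_ext
              rw [F25_coe_smul, hy, F25_act_two σ hmi, h]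
              have h6 : (((-y : 𝓞 (Lf e k)) : Lf e k) : ℝ) = -(((y : 𝓞 (Lf e k)) : Lf e k) : ℝ) :=
                rfl
              rw [h6, hy]
              ring
            rw [h4] at h3
            have h5 : -y - y = 2 * (-y) := by ring
            rw [h5] at h3
            rcases (inferInstance : P.IsPrime).mem_or_mem h3 with h | h
            · exact h2 h
            · apply h2
              have h7 : y ∈ P := by
                have := P.neg_mem h
                rwa [neg_neg] at this
              obtain ⟨c, hc⟩ := hy2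
              rw [hc]
              exact P.mul_mem_right _ h7
          · -- the cosine is `0` or `-1`
            have hi2 : i = 0 ∨ i = 1 := by omega
            rcases hi2 with rfl | rfl
            · have h3 : Real.cos (2 * Real.pi / 2 ^ (0 + 1)) = -1 := by
                have : 2 * Real.pi / 2 ^ (0 + 1) = Real.pi := by ring
                rw [this, Real.cos_pi]
              rw [h3, act_neg_one]
            · have h3 : Real.cos (2 * Real.pi / 2 ^ (1 + 1)) = 0 := by
                have : 2 * Real.pi / 2 ^ (1 + 1) = Real.pi / 2 := by ring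
                rw [this, Real.cos_pi_div_two]
              rw [h3] at h ⊢
              rw [h, neg_zero]
    exact key k le_rfl

theorem unram (D : FD σ₂ e) (k : ℕ) (v : HeightOneSpectrum (𝓞 K)) (h2 : (2 : 𝓞 K) ∉ v.asIdeal)
    (P : Ideal (𝓞 (Lf e k))) [P.IsPrime] (hP : P.under (𝓞 K) = v.asIdeal) :
    Algebra.IsUnramifiedAt (𝓞 K) P := by
  haveI := fd_Lf D k
  haveI := abelian_Lf D k
  haveI := numberField_of_fd (Lf e k)
  haveI : P.LiesOver v.asIdeal := ⟨hP.symm⟩
  haveI := v.isPrime
  haveI := v.isMaximal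
  have h2' : (2 : 𝓞 (Lf e k)) ∉ P := by
    intro h
    apply h2
    rw [← hP, Ideal.mem_comap, map_ofNat]
    exact h
  haveI : Finite (𝓞 K ⧸ v.asIdeal) := Ideal.finiteQuotientOfFreeOfNeBot v.asIdeal v.ne_bot
  haveI : Finite v.asIdeal.ResidueField := inferInstance
  have h1 := Ideal.card_inertia_eq_ramificationIdxIn (G := Lf e k ≃ₐ[K] Lf e k) v.asIdeal P
  have h3 : Nat.card (P.inertia (Lf e k ≃ₐ[K] Lf e k)) = 1 := by
    rw [Nat.card_eq_one_iff_unique]
    refine ⟨⟨fun a b => ?_⟩, ⟨1⟩⟩
    apply Subtype.ext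
    rw [inertia_eq_one D k P h2' a.1 a.2, inertia_eq_one D k P h2' b.1 b.2]
  rw [h3, Ideal.ramificationIdxIn_eq_ramificationIdx v.asIdeal P (Lf e k ≃ₐ[K] Lf e k)] at h1
  exact Ideal.ramificationIdx_eq_one_iff.1 h1.symm

end Pool.Agent.STg.F
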