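import Pool.Agent.Lib.MP_1ef7cf_nt_g.Q

/-!
# The factorization `T + 2 i = δ γ ^ 2`
-/

namespace Pool.Agent.STg

lemma R1_cast_gN (p : GaussianInt) : ((gN p : ℕ) : ℤ) = p.re ^ 2 + p.im ^ 2 := by
  have h1 : ((gN p : ℕ) : ℤ) = p.norm := by
    unfold gN
    rw [Int.natCast_natAbs, abs_of_nonneg]
    exact GaussianInt.norm_nonneg p
  rw [h1, Zsqrtd.norm_def]
  ring

lemma R1_isUnit_iff {p : GaussianInt} : IsUnit p ↔ gN p = 1 := by
  unfold gN
  exact Zsqrtd.norm_eq_one_iff.symm

/-- Every non-zero Gaussian integer is `δ γ ^ 2` with `δ` squarefree (unique factorization). -/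
lemma exists_sq_mul_squarefree {a : GaussianInt} (ha : a ≠ 0) :
    ∃ δ γ : GaussianInt, a = δ * γ ^ 2 ∧ Squarefree δ := by
  induction hn : gN a using Nat.strong_induction_on generalizing a with
  | _ n ih =>
    by_cases hsq : Squarefree a
    · exact ⟨a, 1, by ring, hsq⟩
    · unfold Squarefree at hsq
      push Not at hsq
      obtain ⟨x, ⟨b, hb⟩, hxu⟩ := hsq
      have hx0 : x ≠ 0 := by
        rintro rfl
        apply ha
        rw [hb]; ring
      have hb0 : b ≠ 0 := by
        rintro rfl
        apply ha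
        rw [hb]; ring
      have hlt : gN b < n := by
        rw [← hn, hb, gN_mul, gN_mul]
        have h1 := gN_pos hx0
        have h2 := gN_pos hb0
        have h3 : gN x ≠ 1 := fun h => hxu (R1_isUnit_iff.mpr h)
        have h4 : 2 ≤ gN x := by omega
        nlinarith [Nat.mul_le_mul h4 h4]
      obtain ⟨δ, γ, h, hδ⟩ := ih _ hlt hb0 rfl
      exact ⟨δ, x * γ, by rw [hb, h]; ring, hδ⟩

lemma squarefree_gN {T : ℤ} {δ : GaussianInt} (hδ : Squarefree δ)
    (hd : δ ∣ (⟨T, 2⟩ : GaussianInt)) : Squarefree (gN δ) := by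
  rw [Nat.squarefree_iff_prime_squarefree]
  intro p hp hpp
  have hN := R1_cast_gN δ
  by_cases hp2 : p = 2
  · -- `p = 2`
    subst hp2
    have h4 : (4 : ℤ) ∣ δ.re ^ 2 + δ.im ^ 2 := by
      rw [← hN]
      exact_mod_cast hpp
    have hre : δ.re % 2 = 0 := by
      rcases Int.emod_two_eq_zero_or_one δ.re with h | h
      · exact h
      · exfalso
        obtain ⟨a, ha⟩ := Int.odd_iff.mpr h
        rcases Int.emod_two_eq_zero_or_one δ.im with h' | h'
        · obtain ⟨b, hb⟩ := Int.even_iff.mpr h'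
          rw [ha, hb] at h4
          ring_nf at h4
          omega
        · obtain ⟨b, hb⟩ := Int.odd_iff.mpr h'
          rw [ha, hb] at h4
          ring_nf at h4
          omega
    have him : δ.im % 2 = 0 := by
      rcases Int.emod_two_eq_zero_or_one δ.im with h | h
      · exact h
      · exfalso
        obtain ⟨a, ha⟩ := Int.odd_iff.mpr h
        obtain ⟨b, hb⟩ := Int.even_iff.mpr hre
        rw [ha, hb] at h4
        ring_nf at h4
        omega
    obtain ⟨a, ha⟩ := Int.even_iff.mpr hre
    obtain ⟨b, hb⟩ := Int.even_iff.mpr him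
    have h5 : (⟨1, 1⟩ : GaussianInt) * ⟨1, 1⟩ ∣ δ := by
      refine ⟨⟨b, -a⟩, ?_⟩
      ext
      · simp [ha]; ring
      · simp [hb]; ring
    have h6 := R1_isUnit_iff.mp (hδ _ h5)
    simp [gN, Zsqrtd.norm_def] at h6
  · -- `p` odd
    have hnd : ¬ ((p : ℕ) : GaussianInt) ∣ δ := by
      intro h
      have h1 := h.trans hd
      obtain ⟨k, hk⟩ := h1
      have h2 := congrArg Zsqrtd.im hk
      simp at h2
      have h3 : (p : ℤ) ∣ 2 := ⟨k.im, h2⟩
      have h4 : p ∣ 2 := by exact_mod_cast h3
      exact hp2 ((Nat.prime_dvd_prime_iff_eq hp Nat.prime_two).mp h4)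
    have hstar : ∀ z w : GaussianInt, z ∣ w → star z ∣ star w := by
      rintro z w ⟨k, rfl⟩
      exact ⟨star k, by rw [star_mul']⟩
    have hppG : ((p : ℕ) : GaussianInt) * ((p : ℕ) : GaussianInt) ∣ δ * star δ := by
      rw [mul_star_eq]
      obtain ⟨k, hk⟩ := hpp
      exact ⟨(k : GaussianInt), by rw [hk]; push_cast; ring⟩
    have : Fact p.Prime := ⟨hp⟩
    by_cases hpr : Prime ((p : ℕ) : GaussianInt)
    · have h1 : ((p : ℕ) : GaussianInt) ∣ δ * star δ := (Dvd.intro _ rfl).trans hppG
      rcases hpr.dvd_or_dvd h1 with h | h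
      · exact hnd h
      · have := hstar _ _ h
        rw [star_star, star_natCast] at this
        exact hnd this
    · -- `p = ρ ρ'`
      have hirr : ¬ Irreducible ((p : ℕ) : GaussianInt) := fun h => hpr h.prime
      obtain ⟨a, b, hab⟩ := GaussianInt.sq_add_sq_of_nat_prime_of_not_irreducible p hirr
      have key : ∀ ρ : GaussianInt, ρ * star ρ = ((p : ℕ) : GaussianInt) → Prime ρ → ρ ∣ δ →
          False := by
        intro ρ hρ hρp hρd
        obtain ⟨η, rfl⟩ := hρd
        have hρ0 : ρ * star ρ ≠ 0 := by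
          rw [hρ]
          exact_mod_cast hp.ne_zero
        have h1 : (ρ * star ρ) * (ρ * star ρ) ∣ (ρ * star ρ) * (η * star η) := by
          have : ρ * η * star (ρ * η) = (ρ * star ρ) * (η * star η) := by
            rw [star_mul']; ring
          rw [← this, hρ]
          exact hppG
        have h2 : ρ * star ρ ∣ η * star η := (mul_dvd_mul_iff_left hρ0).mp h1
        have h3 : ρ ∣ η * star η := (Dvd.intro _ rfl).trans h2
        rcases hρp.dvd_or_dvd h3 with h | h
        · have h4 : ρ * ρ ∣ ρ * η := mul_dvd_mul_left _ h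
          exact hρp.not_isUnit (hδ _ h4)
        · have h4 := hstar _ _ h
          rw [star_star] at h4
          apply hnd
          rw [← hρ]
          exact mul_dvd_mul_left _ h4
      set ρ : GaussianInt := ⟨a, b⟩ with hρdef
      have hρ : ρ * star ρ = ((p : ℕ) : GaussianInt) := by
        rw [mul_star_eq]
        congr 1
        have := R1_cast_gN ρ
        have h2 : ((gN ρ : ℕ) : ℤ) = ((p : ℕ) : ℤ) := by
          rw [this, ← hab]
          simp [hρdef]
        exact_mod_cast h2
      have hprime : ∀ z : GaussianInt, z * star z = ((p : ℕ) : GaussianInt) → Prime z := by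
        intro z hz
        rw [← irreducible_iff_prime]
        have hgz : gN z = p := by
          rw [mul_star_eq] at hz
          exact_mod_cast hz
        constructor
        · intro hu
          rw [R1_isUnit_iff, hgz] at hu
          exact hp.one_lt.ne' hu
        · intro x y hxy
          have : gN x * gN y = p := by rw [← gN_mul, ← hxy, hgz]
          rcases (Nat.Prime.eq_one_or_self_of_dvd hp (gN x) ⟨_, this.symm⟩) with h | h
          · left; exact R1_isUnit_iff.mpr h
          · right
            apply R1_isUnit_iff.mpr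
            rw [h] at this
            exact Nat.eq_of_mul_eq_mul_left hp.pos (by rw [this, mul_one])
      have h1 : ρ ∣ δ * star δ := by
        refine dvd_trans ?_ hppG
        rw [← hρ]
        exact ⟨star ρ * (ρ * star ρ), by ring⟩
      rcases (hprime ρ hρ).dvd_or_dvd h1 with h | h
      · exact key ρ hρ (hprime ρ hρ) h
      · have h4 := hstar _ _ h
        rw [star_star] at h4
        have hρ' : star ρ * star (star ρ) = ((p : ℕ) : GaussianInt) := by
          rw [star_star, mul_comm, hρ]
        exact key (star ρ) hρ' (hprime _ hρ') h4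

lemma one_lt_gN {T : ℤ} (hT : T ≠ 0) {δ γ : GaussianInt}
    (h : (⟨T, 2⟩ : GaussianInt) = δ * γ ^ 2) : 1 < gN δ := by
  by_contra hlt
  have hδ0 : δ ≠ 0 := by
    rintro rfl
    have := congrArg Zsqrtd.im h
    simp at this
  have h1 : gN δ = 1 := by
    have := gN_pos hδ0
    omega
  have h2 : gN (⟨T, 2⟩ : GaussianInt) = gN γ * gN γ := by
    rw [h, gN_mul, h1, one_mul, pow_two, gN_mul]
  have h3 : T ^ 2 + 4 = ((gN γ : ℕ) : ℤ) * ((gN γ : ℕ) : ℤ) := by
    have := R1_cast_gN (⟨T, 2⟩ : GaussianInt)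
    rw [h2] at this
    push_cast at this
    rw [this]
  set g : ℤ := ((gN γ : ℕ) : ℤ) with hg
  have hg0 : 0 ≤ g := by positivity
  have hTa : T ^ 2 = |T| ^ 2 := (sq_abs T).symm
  have hT1 : 1 ≤ |T| := Int.one_le_abs hT
  have h5 : |T| < g := by nlinarith
  have h6 : |T| + 1 ≤ g := h5
  have h7 : g < |T| + 2 := by nlinarith
  have h8 : g = |T| + 1 := by omega
  rw [hTa, h8] at h3
  ring_nf at h3
  omega

theorem exists_fac {T : ℤ} (hT : T ≠ 0) : ∃ δ γ : GaussianInt,
    (⟨T, 2⟩ : GaussianInt) = δ * γ ^ 2 ∧ Squarefree (gN δ) ∧ 1 < gN δ := by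
  have h0 : (⟨T, 2⟩ : GaussianInt) ≠ 0 := by
    intro h
    have := congrArg Zsqrtd.im h
    simp at this
  obtain ⟨δ, γ, h, hδ⟩ := exists_sq_mul_squarefree h0
  exact ⟨δ, γ, h, squarefree_gN hδ (Dvd.intro _ h.symm), one_lt_gN hT h⟩

end Pool.Agent.STg
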