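import Pool.Agent.Lib.MP_1ef7cf_nt_g.Mg.G053
import Pool.Agent.Lib.MP_1ef7cf_nt_g.Mg.G056
import Pool.Agent.Lib.MP_1ef7cf_nt_g.F25

set_option autoImplicit false

open NumberField IsDedekindDomain nonZeroDivisors IntermediateField

namespace Pool.Agent.STg.F

open Pool.Agent.ST

variable {K : Type*} [Field K] [NumberField K] [Algebra K ℝ] {σ₂ : K →+* ℝ} {e : (𝓞 K)ˣ}

/-- `σ` has the coordinates of the ideal `I`. -/
def F26_Co (e : (𝓞 K)ˣ) (k : ℕ) (σ : Lf e k ≃ₐ[K] Lf e k) (I : Ideal (𝓞 K)) : Prop :=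
  act σ (se e) = (chiI e I : ℝ) * se e ∧
    act σ (Real.cos (2 * Real.pi / 2 ^ k)) =
      Real.cos (2 * Real.pi * (Ideal.absNorm I : ℕ) / 2 ^ k)

lemma F26_act_int {H : IntermediateField K ℝ} (σ : H ≃ₐ[K] H) (n : ℤ) {x : ℝ} (hx : x ∈ H) :
    act σ ((n : ℝ) * x) = n * act σ x := by
  have h1 : ((n : ℝ)) = algebraMap K ℝ (n : K) := by simp
  rw [h1, act_mul σ (H.algebraMap_mem _) hx, act_algebraMap]

lemma F26_mul {k : ℕ} {σ τ : Lf e k ≃ₐ[K] Lf e k} {I I' : Ideal (𝓞 K)} (hI : I ≠ ⊥)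
    (hI' : I' ≠ ⊥) (h : F26_Co e k σ I) (h' : F26_Co e k τ I') :
    F26_Co e k (σ * τ) (I * I') := by
  refine ⟨?_, ?_⟩
  · rw [act_comp _ _ (se_mem e k), h'.1, F26_act_int _ _ (se_mem e k), h.1, chiI_mul e hI hI']
    push_cast
    ring
  · rw [act_comp _ _ (cos_mem e k), h'.2, act_cos_mul (cos_mem e k) σ h.2, map_mul]

lemma F26_ext {k : ℕ} {σ τ : Lf e k ≃ₐ[K] Lf e k} {I I' : Ideal (𝓞 K)}
    (h : F26_Co e k σ I) (h' : F26_Co e k τ I') (h1 : chiI e I = chiI e I')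
    (h2 : Real.cos (2 * Real.pi * (Ideal.absNorm I : ℕ) / 2 ^ k) =
      Real.cos (2 * Real.pi * (Ideal.absNorm I' : ℕ) / 2 ^ k)) : σ = τ := by
  apply ext_coords
  · rw [h.1, h'.1, h1]
  · rw [h.2, h'.2, h2]

lemma F26_cop {j : ℕ} (hj : j ≠ 0) {I : Ideal (𝓞 K)} :
    IsCoprime I ((Ideal.span {(2 : 𝓞 K)}) ^ j) ↔ IsCoprime I (Ideal.span {(2 : 𝓞 K)}) :=
  IsCoprime.pow_right_iff (Nat.pos_of_ne_zero hj)

lemma F26_ne (j : ℕ) : (Ideal.span {(2 : 𝓞 K)}) ^ j ≠ ⊥ := by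
  rw [← Ideal.zero_eq_bot]
  apply pow_ne_zero
  rw [Ideal.zero_eq_bot, Ne, Ideal.span_singleton_eq_bot]
  exact two_ne_zero

/-- `σ` has the coordinates of all integral ideals in the class `A`. -/
def F26_Good (σ₂ : K →+* ℝ) (e : (𝓞 K)ˣ) (j k : ℕ)
    (A : RayClassGroup σ₂ ((Ideal.span {(2 : 𝓞 K)}) ^ j)) (σ : Lf e k ≃ₐ[K] Lf e k) : Prop :=
  ∀ (I : Ideal (𝓞 K)) (J : primeTo (K := K) ((Ideal.span {(2 : 𝓞 K)}) ^ j)), I ≠ ⊥ →
    ((J : (FI K)ˣ) : FI K) = (I : FI K) → cls σ₂ _ J = A → F26_Co e k σ I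

lemma F26_good_of (D : FD σ₂ e) {j k : ℕ} (hL : Lev e j k) {σ : Lf e k ≃ₐ[K] Lf e k}
    {I : Ideal (𝓞 K)} (hI : I ≠ ⊥) {J : primeTo (K := K) ((Ideal.span {(2 : 𝓞 K)}) ^ j)}
    (hJ : ((J : (FI K)ˣ) : FI K) = (I : FI K)) (h : F26_Co e k σ I) :
    F26_Good σ₂ e j k (cls σ₂ _ J) σ := by
  intro I' J' hI' hJ' hc
  obtain ⟨h1, h2⟩ := coords_cls D hL hI hI' hJ hJ' hc.symm
  exact ⟨by rw [h.1, h1], by rw [h.2, h2]⟩

lemma F26_exists (D : FD σ₂ e) {j k : ℕ} (hL : Lev e j k)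
    (A : RayClassGroup σ₂ ((Ideal.span {(2 : 𝓞 K)}) ^ j)) : ∃ σ, F26_Good σ₂ e j k A σ := by
  obtain ⟨I, J, hI, hIm, hJ, rfl⟩ := exists_integral_rep (F26_ne j) A
  obtain ⟨σ, hσ⟩ := exists_sig D k I hI ((F26_cop (by have := hL.j4; omega)).1 hIm)
  exact ⟨σ, F26_good_of D hL hI hJ hσ⟩

lemma F26_unique {j k : ℕ} {A : RayClassGroup σ₂ ((Ideal.span {(2 : 𝓞 K)}) ^ j)}
    {σ τ : Lf e k ≃ₐ[K] Lf e k} (h : F26_Good σ₂ e j k A σ) (h' : F26_Good σ₂ e j k A τ) :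
    σ = τ := by
  obtain ⟨I, J, hI, hIm, hJ, rfl⟩ := exists_integral_rep (F26_ne j) A
  exact F26_ext (h I J hI hJ rfl) (h' I J hI hJ rfl) rfl rfl

lemma F26_good_mul (D : FD σ₂ e) {j k : ℕ} (hL : Lev e j k)
    {A B : RayClassGroup σ₂ ((Ideal.span {(2 : 𝓞 K)}) ^ j)}
    {σ τ : Lf e k ≃ₐ[K] Lf e k} (h : F26_Good σ₂ e j k A σ) (h' : F26_Good σ₂ e j k B τ) :
    F26_Good σ₂ e j k (A * B) (σ * τ) := by
  obtain ⟨I, J, hI, hIm, hJ, rfl⟩ := exists_integral_rep (F26_ne j) A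
  obtain ⟨I', J', hI', hIm', hJ', rfl⟩ := exists_integral_rep (F26_ne j) B
  rw [← map_mul]
  refine F26_good_of D hL (mul_ne_bot' hI hI') ?_ (F26_mul hI hI' (h I J hI hJ rfl)
    (h' I' J' hI' hJ' rfl))
  rw [Subgroup.coe_mul, Units.val_mul, hJ, hJ', FractionalIdeal.coeIdeal_mul]

/-- the map -/
noncomputable def F26_s (D : FD σ₂ e) {j k : ℕ} (hL : Lev e j k)
    (A : RayClassGroup σ₂ ((Ideal.span {(2 : 𝓞 K)}) ^ j)) : Lf e k ≃ₐ[K] Lf e k :=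
  (F26_exists D hL A).choose

lemma F26_s_good (D : FD σ₂ e) {j k : ℕ} (hL : Lev e j k)
    (A : RayClassGroup σ₂ ((Ideal.span {(2 : 𝓞 K)}) ^ j)) :
    F26_Good σ₂ e j k A (F26_s D hL A) :=
  (F26_exists D hL A).choose_spec

/-- the homomorphism -/
noncomputable def F26_hom (D : FD σ₂ e) {j k : ℕ} (hL : Lev e j k) :
    RayClassGroup σ₂ ((Ideal.span {(2 : 𝓞 K)}) ^ j) →* (Lf e k ≃ₐ[K] Lf e k) :=
  MonoidHom.mk' (F26_s D hL) fun A B =>
    F26_unique (F26_s_good D hL (A * B)) (F26_good_mul D hL (F26_s_good D hL A)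
      (F26_s_good D hL B))

lemma F26_hom_good (D : FD σ₂ e) {j k : ℕ} (hL : Lev e j k)
    (A : RayClassGroup σ₂ ((Ideal.span {(2 : 𝓞 K)}) ^ j)) :
    F26_Good σ₂ e j k A (F26_hom D hL A) := F26_s_good D hL A

lemma F26_se_ne (D : FD σ₂ e) : se e ≠ 0 := by
  have := Real.sqrt_pos.2 D.pos
  exact this.ne'

lemma F26_le16 {j : ℕ} (hj : 4 ≤ j) :
    (Ideal.span {(2 : 𝓞 K)}) ^ j ≤ Ideal.span {(16 : 𝓞 K)} := by
  have h : Ideal.span {(16 : 𝓞 K)} = (Ideal.span {(2 : 𝓞 K)}) ^ 4 := by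
    rw [Ideal.span_singleton_pow]; norm_num
  rw [h]
  exact Ideal.pow_le_pow_right hj

lemma F26_inj (D : FD σ₂ e) [IsPrincipalIdealRing (𝓞 K)] {j k : ℕ} (hL : Lev e j k) :
    Function.Injective (F26_hom D hL) := by
  rw [injective_iff_map_eq_one]
  intro A hA
  obtain ⟨I, J, hI, hIm, hJ, rfl⟩ := exists_integral_rep (F26_ne j) A
  have hg := F26_hom_good D hL _ I J hI hJ rfl
  rw [hA] at hg
  obtain ⟨h1, h2⟩ := hg
  rw [act_one_left (se_mem e k)] at h1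
  rw [act_one_left (cos_mem e k)] at h2
  have h3 : chiI e I = 1 := by
    have h4 : ((chiI e I : ℤ) : ℝ) = 1 := by
      have h5 : ((chiI e I : ℤ) : ℝ) * se e = 1 * se e := by rw [← h1, one_mul]
      exact mul_right_cancel₀ (F26_se_ne D) h5
    exact_mod_cast h4
  obtain ⟨b, hb⟩ := (IsPrincipalIdealRing.principal I).principal
  have hb' : I = Ideal.span {b} := hb
  have hN : Ideal.absNorm I = (Algebra.norm ℤ b).natAbs := by rw [hb', absNorm_nat]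
  have h5 : (2 : ℤ) ^ k ∣ (1 : ℤ) - ((Ideal.absNorm I : ℕ) : ℤ) ∨
      (2 : ℤ) ^ k ∣ (1 : ℤ) + ((Ideal.absNorm I : ℕ) : ℤ) := by
    rw [← cos_mod_iff]
    push_cast
    rw [mul_one]
    exact h2
  have h6 : (2 : ℤ) ^ k ∣ Algebra.norm ℤ b - 1 ∨ (2 : ℤ) ^ k ∣ Algebra.norm ℤ b + 1 := by
    rw [hN] at h5
    rcases Int.natAbs_eq (Algebra.norm ℤ b) with h | h
    · rw [h]
      rcases h5 with h5 | h5
      · left
        have := (dvd_neg).2 h5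
        rwa [neg_sub] at this
      · right
        rwa [add_comm] at h5
    · rw [h]
      rcases h5 with h5 | h5
      · right
        rwa [neg_add_eq_sub]
      · left
        have := (dvd_neg).2 h5
        rwa [neg_add, add_comm] at this
  have hcop : IsCoprime (Ideal.span {b}) (Ideal.span {(2 : 𝓞 K)}) := by
    rw [← hb']
    exact (F26_cop (by have := hL.j4; omega)).1 hIm
  obtain ⟨i, hi⟩ := hL.gen b hcop h6
  -- the generator congruent to one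
  obtain ⟨b₁, hb₁, hspan⟩ : ∃ b₁ : 𝓞 K, b₁ - 1 ∈ (Ideal.span {(2 : 𝓞 K)}) ^ j ∧
      Ideal.span {b₁} = I := by
    have he : ((e⁻¹ : (𝓞 K)ˣ) : 𝓞 K) ^ i * (e : 𝓞 K) ^ i = 1 := by
      rw [← mul_pow, Units.inv_mul, one_pow]
    have hu : IsUnit (((e⁻¹ : (𝓞 K)ˣ) : 𝓞 K) ^ i) := (Units.isUnit _).pow i
    rcases hi with hi | hi
    · refine ⟨((e⁻¹ : (𝓞 K)ˣ) : 𝓞 K) ^ i * b, ?_, ?_⟩
      · have : ((e⁻¹ : (𝓞 K)ˣ) : 𝓞 K) ^ i * b - 1 =
            ((e⁻¹ : (𝓞 K)ˣ) : 𝓞 K) ^ i * (b - (e : 𝓞 K) ^ i) := by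
          linear_combination he
        rw [this]
        exact Ideal.mul_mem_left _ _ hi
      · rw [hb', Ideal.span_singleton_mul_left_unit hu]
    · refine ⟨-(((e⁻¹ : (𝓞 K)ˣ) : 𝓞 K) ^ i * b), ?_, ?_⟩
      · have : -(((e⁻¹ : (𝓞 K)ˣ) : 𝓞 K) ^ i * b) - 1 =
            -(((e⁻¹ : (𝓞 K)ˣ) : 𝓞 K) ^ i * (b + (e : 𝓞 K) ^ i)) := by
          linear_combination he
        rw [this]
        exact Ideal.neg_mem_iff _ |>.2 (Ideal.mul_mem_left _ _ hi)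
      · rw [Ideal.span_singleton_neg, hb', Ideal.span_singleton_mul_left_unit hu]
  have hrec := chi_rec D (F26_le16 hL.j4 hb₁)
  rw [hspan, h3] at hrec
  have hb0 : b₁ ≠ 0 := by
    rintro rfl
    apply hI
    rw [← hspan, Ideal.span_singleton_eq_bot]
  have hpos : 0 < σ₂ (b₁ : K) := by
    rcases lt_trichotomy (σ₂ (b₁ : K)) 0 with h | h | h
    · have := hrec.2 h
      norm_num at this
    · exfalso
      apply hb0
      have h7 : (b₁ : K) = 0 := (map_eq_zero σ₂).1 h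
      exact_mod_cast h7
    · exact h
  rw [cls_eq_one_iff]
  refine ⟨(b₁ : K), oneMod_of_sub_one_mem hb₁, hpos, ?_⟩
  rw [hJ, ← hspan, coe_span_singleton]

lemma F26_two {j : ℕ} (hj : j ≠ 0) {v : HeightOneSpectrum (𝓞 K)}
    (hv : ¬ v.asIdeal ∣ (Ideal.span {(2 : 𝓞 K)}) ^ j) : (2 : 𝓞 K) ∉ v.asIdeal := by
  intro h
  apply hv
  apply dvd_pow _ hj
  rwa [Ideal.dvd_span_singleton]

lemma F26_frob (D : FD σ₂ e) {k : ℕ} [NumberField (Lf e k)] (P : PrI (Lf e k))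
    (h2 : (2 : 𝓞 K) ∉ (und K P).asIdeal) {σ : Lf e k ≃ₐ[K] Lf e k} (hσ : IsFrob K P σ) :
    F26_Co e k σ (und K P).asIdeal := by
  haveI := P.isPrime
  refine ⟨?_, ?_⟩
  · rw [frob_sqrt D (Lf e k) (se_mem e k) (und K P) h2 P.asIdeal rfl σ hσ, chiI_prime]
  · exact frob_cos (Lf e k) (cos_mem e k) (und K P) h2 P.asIdeal rfl σ hσ

lemma F26_surj (D : FD σ₂ e) {j k : ℕ} (hL : Lev e j k) :
    Function.Surjective (F26_hom D hL) := by
  haveI := fd_Lf D k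
  haveI := abelian_Lf D k
  haveI := numberField_of_fd (Lf e k)
  have hj : j ≠ 0 := by have := hL.j4; omega
  rw [← MonoidHom.range_eq_top]
  refine frob_gen (fun σ τ => mul_comm' σ τ) _ _ (finite_dvd (F26_ne (K := K) j)) ?_
  intro P hP _ σ hσ
  have hv : ¬ (und K P).asIdeal ∣ (Ideal.span {(2 : 𝓞 K)}) ^ j := hP
  have h2 := F26_two hj hv
  refine ⟨cls σ₂ _ (prJ _ (und K P) hv), ?_⟩
  exact F26_ext (F26_hom_good D hL _ (und K P).asIdeal (prJ _ (und K P) hv) (und K P).ne_bot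
    (coe_prJ _ _ _) rfl) (F26_frob D P h2 hσ) rfl rfl

/-- TASK F26 (the ray class field).
PROOF. Put `m = span {2} ^ j`, `L = Lf e k`, `G = Gal(L / K)`. `2 ∈ v ↔ v ∣ m` for a prime `v` (`Ideal.dvd_span_singleton`, `Prime.dvd_of_dvd_pow`, `j ≠ 0`); `IsCoprime I m ↔ IsCoprime I (span {2})` (`IsCoprime.pow_right_iff`).
(1) For each `A : RayClassGroup σ₂ m` there is exactly one `σ_A ∈ G` such that for all `I ≠ ⊥`, `J : primeTo m` with `J = I`, `cls J = A`: `act σ_A (se e) = chiI e I * se e` and `act σ_A cos = cos (2 π N(I) / 2 ^ k)`: existence: take an integral representative (`exists_integral_rep`,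
AN.lean), `exists_sig` (F23), and independence by `coords_cls` (F24); uniqueness `ext_coords` (F22).
(2) `A ↦ σ_A` is a homomorphism: for representatives `I`, `I'` of `A`, `B`: `I I'` is a representative of `A B` and `σ_A σ_B` has its coordinates (`chiI_mul`, `act_comp`, `act_cos_mul`, as in F20); uniqueness.
(3) Injective: `σ_A = 1`: let `I` be an integral representative; `𝓞 K` is principal: `I = span {b}` (`Submodule.IsPrincipal`), `b ≠ 0`. `chiI e I = 1` (`se e ≠ 0`) and `cos (2 π N(I) / 2 ^ k) = cos (2 π / 2 ^ k)`, so `2 ^ k` divides `N(I) - 1` or `N(I) + 1` (`cos_mod_iff`), and so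
`2 ^ k` divides `norm b - 1` or `norm b + 1` (`absNorm_nat`). By `hL.gen`: `b ∓ e ^ i ∈ m` for a sign; put `b₁ = ± b e ^ (-i)` (the inverse of the unit): `b₁ - 1 ∈ m`, `span {b₁} = I`. By `chi_rec` (F14, `m ≤ span {16}`) and `chiI e (span {b₁}) = 1` we get `0 < σ₂ b₁` (`σ₂ b₁ ≠ 0`). So
`J = (b₁)` is in the ray (`OneMod`: `oneMod_of_sub_one_mem`), `A = cls J = 1` (`cls_eq_one_iff`).
(4) Surjective: the range `T` contains all Frobenius elements at primes `P` not above `2`: `IsFrob K P σ`, `v = und K P`, `J = prJ m v _`: `σ` has the coordinates `frob_sqrt`, `frob_cos`, i.e. those of `σ_{cls J}` for `I = v` (`chiI_prime`); so `σ = σ_{cls J}`. `frob_gen` (Gen.lean) with the finite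
set `B` of the primes dividing `m` (`finite_dvd`); commutativity of `G` from `abelian_Lf`.
(5) `Art := MulEquiv.ofBijective`. `IsRayClassField`: `finite`, `galois` (F22); `frob`: `v`, `J`, `P` as in the definition: `¬ v ∣ m` (`coprime_of_mem_primeTo`), so `2 ∉ v`; unramified: `unram` (F25). `P ≠ ⊥`; let `φ` be a Frobenius element at `P` (`exists_isFrob`); it has the coordinates of `v`
(`frob_sqrt`, `frob_cos`), as `Art (cls J)` does, so they are equal. -/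
theorem exists_rcf (D : FD σ₂ e) [IsPrincipalIdealRing (𝓞 K)] {j k : ℕ} (hL : Lev e j k) :
    ∃ Art : RayClassGroup σ₂ ((Ideal.span {(2 : 𝓞 K)}) ^ j) ≃* (Lf e k ≃ₐ[K] Lf e k),
      IsRayClassField σ₂ ((Ideal.span {(2 : 𝓞 K)}) ^ j) (Lf e k) Art := by
  haveI := fd_Lf D k
  haveI := abelian_Lf D k
  haveI := numberField_of_fd (Lf e k)
  have hj : j ≠ 0 := by have := hL.j4; omega
  refine ⟨MulEquiv.ofBijective (F26_hom D hL) ⟨F26_inj D hL, F26_surj D hL⟩,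
    inferInstance, inferInstance, ?_⟩
  intro v J hJ P hP hPv
  have hv : ¬ v.asIdeal ∣ (Ideal.span {(2 : 𝓞 K)}) ^ j :=
    coprime_prime_iff.1 (coprime_of_mem_primeTo hJ J.2)
  have h2 := F26_two hj hv
  refine ⟨unram D k v h2 P hPv, ?_⟩
  have hP0 : P ≠ ⊥ := by
    rintro rfl
    apply v.ne_bot
    rw [← hPv, Ideal.under, Ideal.comap_bot_of_injective]
    exact FaithfulSMul.algebraMap_injective _ _
  have hund : und K (⟨P, hP, hP0⟩ : PrI (Lf e k)) = v := HeightOneSpectrum.ext hPv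
  obtain ⟨φ, hφ⟩ := exists_isFrob (K := K) (⟨P, hP, hP0⟩ : PrI (Lf e k))
  have h3 := F26_frob D (⟨P, hP, hP0⟩ : PrI (Lf e k)) (by rw [hund]; exact h2) hφ
  rw [hund] at h3
  have h4 := F26_hom_good D hL (cls σ₂ _ J) v.asIdeal J v.ne_bot hJ rfl
  have h5 : F26_hom D hL (cls σ₂ _ J) = φ := F26_ext h4 h3 rfl rfl
  intro x
  have h6 := hφ x
  rw [hund] at h6
  change F26_hom D hL (cls σ₂ _ J) • x - _ ∈ P
  rw [h5]
  exact h6

end Pool.Agent.STg.F
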