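import Pool.Agent.Lib.MP_1ef7cf_nt_g.Mg.G057

set_option autoImplicit false

open NumberField IsDedekindDomain nonZeroDivisors IntermediateField

namespace Pool.Agent.STg.F

open Pool.Agent.ST

variable {K : Type*} [Field K] [NumberField K] [Algebra K ℝ] {σ₂ : K →+* ℝ} {e : (𝓞 K)ˣ}

/-- TASK F28 (the case `2` inert: the levels).
PROOF. `pow_level`: for `n ≥ 2`: `e ^ (3 * 2 ^ (n - 1)) = 1 + 2 ^ n + 2 ^ (n + 1) w`. Induction from `n = 2` (`e_six`, F27): the square of `1 + 2 ^ n + 2 ^ (n+1) w` is `1 + 2 ^ (n+1) + 2 ^ (n+2) w + 2 ^ (2 n) (1 + 2 w) ^ 2` and `2 n ≥ n + 2`.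
`level`: for all `n ≥ 1` and all `b` prime to `2` with `2 ^ n ∣ norm b - 1` or `2 ^ n ∣ norm b + 1` there is `i` with `b - e ^ i` or `b + e ^ i` divisible by `2 ^ n`. Induction on `n`. `n = 1`: `hgen` (`b ∉ span {2}`: `b` is prime to `2`). Step `n → n + 1`: the hypothesis modulo
`2 ^ (n+1)` implies the one modulo `2 ^ n`, so `b = ± e ^ i + 2 ^ n z`. Put `b₁ = ± e ^ (-i) b = 1 + 2 ^ n x` (`x = ± e ^ (-i) z`). `norm b₁ = ± norm b` (`norm e = -1`, `norm (-1) = 1`), so `2 ^ (n+1) ∣ norm b₁ ∓ 1` and `norm b₁ = 1 + 2 ^ n trace x + 4 ^ n norm x` (`norm_one_add`, F01).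
 `n = 1`: `b₁ = 1 + 2 x`; `mod_two`: `x ≡ 0`: `b₁ ≡ 1`; `x ≡ 1`: `b₁ ≡ 3 ≡ -1` modulo `4`; `x ≡ e` or `e + 1`: by `e_cube` one of `e ^ 3`, `-e ^ 3` is congruent to `1 + 2 e` modulo `4` and the other one to `1 + 2 (e + 1)`
 (`-(1 + 2 x) = 1 + 2 (x + 1) - 4 (x + 1)`).
 `n ≥ 2`: `4 ∣ norm b₁ - 1`, so `2 ^ (n+1) ∣ norm b₁ + 1` is impossible (`4 ∤ 2`), hence `2 ^ (n+1) ∣ norm b₁ - 1 = 2 ^ n (trace x + 2 ^ n norm x)`, `trace x` is even (`n ≥ 1`), `trace_even` (F27): `x ≡ 0` modulo `2`: `b₁ ≡ 1`; `x ≡ 1`: `b₁ ≡ 1 + 2 ^ n ≡ e ^ (3 * 2 ^ (n-1))` modulo `2 ^ (n+1)` (`pow_level`).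
 Multiply back by `± e ^ i`.
`lev_inert`: `Lev e j j`: `nrm`: `b = 1 + 2 ^ j x` (`Ideal.span_singleton_pow`, `Ideal.mem_span_singleton`), `norm_one_add`. `gen`: `level` for `n = j`. -/
theorem pow_level (D : FD σ₂ e) (hT : Odd (tre e)) (n : ℕ) (hn : 2 ≤ n) :
    ∃ w : 𝓞 K, (e : 𝓞 K) ^ (3 * 2 ^ (n - 1)) = 1 + 2 ^ n + 2 ^ (n + 1) * w := by
  obtain ⟨m, rfl⟩ : ∃ m, n = m + 2 := ⟨n - 2, by omega⟩
  clear hn
  have h0 : ∀ m : ℕ, m + 2 - 1 = m + 1 := fun m => by omega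
  rw [h0]
  induction m with
  | zero =>
    obtain ⟨w, hw⟩ := e_six D hT
    refine ⟨w, ?_⟩
    norm_num
    rw [hw]
  | succ m ih =>
    obtain ⟨w, hw⟩ := ih
    refine ⟨w + 2 ^ m * (1 + 2 * w) ^ 2, ?_⟩
    have h1 : (e : 𝓞 K) ^ (3 * 2 ^ (m + 1 + 1)) = ((e : 𝓞 K) ^ (3 * 2 ^ (m + 1))) ^ 2 := by
      rw [← pow_mul]; congr 1; ring
    rw [h1, hw]
    ring

theorem F28_norm_one (D : FD σ₂ e) (t : 𝓞 K) (ht : t = 1 ∨ t = -1) : Algebra.norm ℤ t = 1 := by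
  rcases ht with rfl | rfl
  · exact map_one _
  · have h1 := norm_lin D (-1) 0
    simpa using h1

theorem F28_norm_pow (D : FD σ₂ e) (i : ℕ) :
    Algebra.norm ℤ ((e : 𝓞 K) ^ i) = 1 ∨ Algebra.norm ℤ ((e : 𝓞 K) ^ i) = -1 := by
  rw [map_pow, norm_e D]
  exact neg_one_pow_eq_or ℤ i

omit [NumberField K] [Algebra K ℝ] in
theorem F28_mul (n : ℕ) (p s t b b₁ : 𝓞 K) (hs : s = 1 ∨ s = -1) (ht : t = 1 ∨ t = -1) (i m : ℕ)
    (hb : b = s * (e : 𝓞 K) ^ i * b₁) (h : p ^ n ∣ b₁ - t * (e : 𝓞 K) ^ m) :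
    ∃ i : ℕ, ∃ t : 𝓞 K, (t = 1 ∨ t = -1) ∧ p ^ n ∣ b - t * (e : 𝓞 K) ^ i := by
  refine ⟨i + m, s * t, ?_, ?_⟩
  · rcases hs with rfl | rfl <;> rcases ht with rfl | rfl <;> simp
  · have h1 : b - s * t * (e : 𝓞 K) ^ (i + m) = s * (e : 𝓞 K) ^ i * (b₁ - t * (e : 𝓞 K) ^ m) := by
      rw [hb]; ring
    rw [h1]
    exact h.mul_left _

theorem F28_aux (D : FD σ₂ e) (hp : (Ideal.span {(2 : 𝓞 K)}).IsPrime)
    (hgen : ∀ x : 𝓞 K, x ∉ Ideal.span {(2 : 𝓞 K)} →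
      ∃ i : ℕ, x - (e : 𝓞 K) ^ i ∈ Ideal.span {(2 : 𝓞 K)}) (b : 𝓞 K)
    (hb : b ∉ Ideal.span {(2 : 𝓞 K)}) (n : ℕ) (hn : 1 ≤ n) :
    ((2 : ℤ) ^ n ∣ Algebra.norm ℤ b - 1 ∨ (2 : ℤ) ^ n ∣ Algebra.norm ℤ b + 1) →
    ∃ i : ℕ, ∃ t : 𝓞 K, (t = 1 ∨ t = -1) ∧ (2 : 𝓞 K) ^ n ∣ b - t * (e : 𝓞 K) ^ i := by
  induction n, hn using Nat.le_induction with
  | base =>
    intro _
    obtain ⟨i, hi⟩ := hgen b hb
    rw [Ideal.mem_span_singleton] at hi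
    exact ⟨i, 1, Or.inl rfl, by rwa [pow_one, one_mul]⟩
  | succ n hn ih =>
    intro hN
    have hN' : (2 : ℤ) ^ n ∣ Algebra.norm ℤ b - 1 ∨ (2 : ℤ) ^ n ∣ Algebra.norm ℤ b + 1 := by
      have h2 : (2 : ℤ) ^ n ∣ 2 ^ (n + 1) := pow_dvd_pow 2 (by omega)
      exact hN.imp (fun h => h2.trans h) (fun h => h2.trans h)
    obtain ⟨i, s, hs, z, hz⟩ := ih hN'
    have hss : s * s = 1 := by rcases hs with rfl | rfl <;> norm_num
    have hee : (e : 𝓞 K) ^ i * ((e⁻¹ : (𝓞 K)ˣ) : 𝓞 K) ^ i = 1 := by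
      rw [← mul_pow, Units.mul_inv, one_pow]
    obtain ⟨x, hx⟩ : ∃ x : 𝓞 K, x = s * ((e⁻¹ : (𝓞 K)ˣ) : 𝓞 K) ^ i * z := ⟨_, rfl⟩
    have hb1 : b = s * (e : 𝓞 K) ^ i * (1 + 2 ^ n * x) := by
      have h0 : b = s * (e : 𝓞 K) ^ i + 2 ^ n * z := by linear_combination hz
      rw [hx, h0]
      have h1 : s * (e : 𝓞 K) ^ i * (1 + 2 ^ n * (s * ((e⁻¹ : (𝓞 K)ˣ) : 𝓞 K) ^ i * z))
          = s * (e : 𝓞 K) ^ i + (s * s) * ((e : 𝓞 K) ^ i * ((e⁻¹ : (𝓞 K)ˣ) : 𝓞 K) ^ i)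
            * (2 ^ n * z) := by ring
      rw [h1, hss, hee]; ring
    rcases Nat.lt_or_ge n 2 with hn2 | hn2
    · obtain rfl : n = 1 := by omega
      obtain ⟨w, hw⟩ := e_cube D (tre_odd D hp hgen)
      obtain ⟨y, hy | hy | hy | hy⟩ := mod_two D hp hgen x
      · exact F28_mul (1 + 1) _ s 1 b _ hs (Or.inl rfl) i 0 hb1 ⟨y, by rw [hy]; ring⟩
      · exact F28_mul (1 + 1) _ s (-1) b _ hs (Or.inr rfl) i 0 hb1 ⟨y + 1, by rw [hy]; ring⟩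
      · rcases hw with hw | hw
        · exact F28_mul (1 + 1) _ s 1 b _ hs (Or.inl rfl) i 3 hb1 ⟨y - w, by rw [hy, hw]; ring⟩
        · exact F28_mul (1 + 1) _ s (-1) b _ hs (Or.inr rfl) i 3 hb1 ⟨1 + e + y + w, by rw [hy, hw]; ring⟩
      · rcases hw with hw | hw
        · exact F28_mul (1 + 1) _ s (-1) b _ hs (Or.inr rfl) i 3 hb1 ⟨1 + e + y + w, by rw [hy, hw]; ring⟩
        · exact F28_mul (1 + 1) _ s 1 b _ hs (Or.inl rfl) i 3 hb1 ⟨y - w, by rw [hy, hw]; ring⟩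
    · have hnb : Algebra.norm ℤ b = Algebra.norm ℤ (s * (e : 𝓞 K) ^ i)
          * Algebra.norm ℤ (1 + 2 ^ n * x) := by
        rw [← map_mul, ← hb1]
      have h1 := norm_one_add D (2 ^ n) x
      push_cast at h1
      have h3 : Algebra.norm ℤ (s * (e : 𝓞 K) ^ i) = 1 ∨ Algebra.norm ℤ (s * (e : 𝓞 K) ^ i) = -1 := by
        rw [map_mul, F28_norm_one D s hs, one_mul]
        exact F28_norm_pow D i
      have h4 : (2 : ℤ) ^ (n + 1) ∣ Algebra.norm ℤ (1 + 2 ^ n * x) - 1 ∨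
          (2 : ℤ) ^ (n + 1) ∣ Algebra.norm ℤ (1 + 2 ^ n * x) + 1 := by
        rcases hN with hN | hN <;> rcases h3 with h3 | h3 <;> rw [hnb, h3] at hN
        · left; rwa [one_mul] at hN
        · right
          have h5 := (dvd_neg.mpr hN)
          have h6 : -(-1 * Algebra.norm ℤ (1 + 2 ^ n * x) - 1) = Algebra.norm ℤ (1 + 2 ^ n * x) + 1 := by ring
          rwa [h6] at h5
        · right; rwa [one_mul] at hN
        · left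
          have h5 := (dvd_neg.mpr hN)
          have h6 : -(-1 * Algebra.norm ℤ (1 + 2 ^ n * x) + 1) = Algebra.norm ℤ (1 + 2 ^ n * x) - 1 := by ring
          rwa [h6] at h5
      rw [h1] at h4
      have htr : Even (Algebra.trace ℤ (𝓞 K) x) := by
        obtain ⟨m, rfl⟩ : ∃ m, n = m + 2 := ⟨n - 2, by omega⟩
        rcases h4 with ⟨c, hc⟩ | ⟨c, hc⟩
        · have h5 : (2 : ℤ) ^ (m + 2) * (Algebra.trace ℤ (𝓞 K) x) =
              (2 : ℤ) ^ (m + 2) * (2 * (c - 2 ^ (m + 1) * Algebra.norm ℤ x)) := by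
            linear_combination hc
          have h6 := mul_left_cancel₀ (by positivity) h5
          rw [h6]
          exact even_two_mul _
        · exfalso
          have h5 : (2 : ℤ) = 4 * (2 ^ m * 2 * c - 2 ^ m * Algebra.trace ℤ (𝓞 K) x
            - 4 * (2 ^ m) ^ 2 * Algebra.norm ℤ x) := by
            linear_combination hc
          omega
      obtain ⟨y, hy | hy⟩ := trace_even D hp hgen x htr
      · exact F28_mul (n + 1) _ s 1 b _ hs (Or.inl rfl) i 0 hb1 ⟨y, by rw [hy]; ring⟩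
      · obtain ⟨w, hw⟩ := pow_level D (tre_odd D hp hgen) n hn2
        exact F28_mul (n + 1) _ s 1 b _ hs (Or.inl rfl) i _ hb1 ⟨y - w, by rw [hw, hy]; ring⟩

theorem level (D : FD σ₂ e) (hp : (Ideal.span {(2 : 𝓞 K)}).IsPrime)
    (hgen : ∀ x : 𝓞 K, x ∉ Ideal.span {(2 : 𝓞 K)} →
      ∃ i : ℕ, x - (e : 𝓞 K) ^ i ∈ Ideal.span {(2 : 𝓞 K)}) (n : ℕ) (hn : 1 ≤ n) (b : 𝓞 K)
    (hb : b ∉ Ideal.span {(2 : 𝓞 K)})
    (hN : (2 : ℤ) ^ n ∣ Algebra.norm ℤ b - 1 ∨ (2 : ℤ) ^ n ∣ Algebra.norm ℤ b + 1) :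
    ∃ i : ℕ, (2 : 𝓞 K) ^ n ∣ b - (e : 𝓞 K) ^ i ∨ (2 : 𝓞 K) ^ n ∣ b + (e : 𝓞 K) ^ i := by
  obtain ⟨i, t, ht, hd⟩ := F28_aux D hp hgen b hb n hn hN
  refine ⟨i, ?_⟩
  rcases ht with rfl | rfl
  · left; rwa [one_mul] at hd
  · right
    have : b - -1 * (e : 𝓞 K) ^ i = b + (e : 𝓞 K) ^ i := by ring
    rwa [this] at hd

theorem lev_inert (D : FD σ₂ e) (hp : (Ideal.span {(2 : 𝓞 K)}).IsPrime)
    (hgen : ∀ x : 𝓞 K, x ∉ Ideal.span {(2 : 𝓞 K)} →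
      ∃ i : ℕ, x - (e : 𝓞 K) ^ i ∈ Ideal.span {(2 : 𝓞 K)}) (j : ℕ) (hj : 4 ≤ j) :
    Lev e j j := by
  refine ⟨hj, by omega, ?_, ?_⟩
  · intro b hb
    rw [Ideal.span_singleton_pow, Ideal.mem_span_singleton] at hb
    obtain ⟨x, hx⟩ := hb
    have h1 : b = 1 + (((2 : ℤ) ^ j : ℤ) : 𝓞 K) * x := by
      push_cast
      linear_combination hx
    have h2 := norm_one_add D (2 ^ j) x
    rw [← h1] at h2
    rw [h2]
    exact ⟨Algebra.trace ℤ (𝓞 K) x + 2 ^ j * Algebra.norm ℤ x, by ring⟩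
  · intro b hb hN
    rw [Ideal.isCoprime_span_singleton_iff] at hb
    have hnb : b ∉ Ideal.span {(2 : 𝓞 K)} := by
      intro hmem
      obtain ⟨u, v, huv⟩ := hb
      apply hp.ne_top
      rw [Ideal.eq_top_iff_one, ← huv]
      exact Ideal.add_mem _ (Ideal.mul_mem_left _ _ hmem)
        (Ideal.mul_mem_left _ _ (Ideal.mem_span_singleton_self _))
    obtain ⟨i, hi⟩ := level D hp hgen j (by omega) b hnb hN
    refine ⟨i, ?_⟩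
    rw [Ideal.span_singleton_pow, Ideal.mem_span_singleton, Ideal.mem_span_singleton]
    exact hi

end Pool.Agent.STg.F
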