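import Pool.Agent.Lib.MP_1ef7cf_nt_g.Mg.G057

set_option autoImplicit false

open NumberField IsDedekindDomain nonZeroDivisors IntermediateField

namespace Pool.Agent.STg.F

open Pool.Agent.ST

variable {K : Type*} [Field K] [NumberField K] [Algebra K ℝ] {σ₂ : K →+* ℝ} {e : (𝓞 K)ˣ}

/-- TASK F30 (the case `K = ℚ(√2)`: the levels).
Let `π = e - 1`, `π ^ 2 = 2`, `e = 1 + π`.
PROOF. `pow_pi`: for `i ≥ 2`: `e ^ (2 ^ i) = 1 + π ^ (2 i + 1) (1 + π w)`. `i = 2`: `e ^ 2 = 1 + 2 e = 1 + π ^ 2 e`, `e ^ 4 = 1 + 4 e + 4 e ^ 2 = 1 + 4 e (1 + e)`, `1 + e = 2 + π = π (π + 1) = π e`, so `e ^ 4 = 1 + π ^ 5 e ^ 2` and `e ^ 2 = 1 + π (π e)`. Step: the square of `1 + π ^ n u`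
(`n = 2 i + 1 ≥ 5`, `u = 1 + π w`) is `1 + π ^ (n+2) u + π ^ (2 n) u ^ 2 = 1 + π ^ (n+2) (u + π ^ (n-2) u ^ 2)`, `n - 2 ≥ 1`.
`level2`: for `1 ≤ n ≤ 2 j` (`j ≥ 3`) and `b` not divisible by `π` with `2 ^ (j+1) ∣ norm b - 1` or `2 ^ (j+1) ∣ norm b + 1` there is `i` with `π ^ n` dividing `b - e ^ i` or `b + e ^ i`. Induction on `n`. `n = 1`: `b = 1 + π y` (`mod_pi`), `i = 0`. Step `n → n + 1 ≤ 2 j`:
`b₁ = ± e ^ (-i) b = 1 + π ^ n x`, `norm b₁ = ± norm b`. `x = π y`: done. Otherwise `x = 1 + π y` (`mod_pi`):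
 `n = 1`: `b₁ ≡ 1 + π = e` modulo `π ^ 2`. `n = 2`: `-1 = 1 - π ^ 2`, `b₁ ≡ 1 + π ^ 2 ≡ -1` modulo `π ^ 3` (`2 π ^ 2 = π ^ 4`). `n = 3`: `-e ^ 2 = -1 - 2 e = 1 - 2 (1 + e) = 1 - π ^ 3 e`, `b₁ ≡ 1 + π ^ 3 ≡ -e ^ 2` modulo `π ^ 4`. `n = 2 i + 1 ≥ 5`: `b₁ ≡ 1 + π ^ n ≡ e ^ (2 ^ i)` modulo `π ^ (n+1)` (`pow_pi`).
 `n = 2 s ≥ 4`: `b₁ = 1 + 2 ^ s (1 + π y)`, `level_norm` (F29): `norm b₁ ≡ 1 + 2 ^ (s+1)` modulo `2 ^ (s+2)`, `s + 2 ≤ j + 1` (since `2 s + 1 ≤ 2 j`), so `2 ^ (s+2) ∣ norm b₁ ∓ 1`: with `-1`: `2 ^ (s+2) ∣ 2 ^ (s+1)` is false; with `+1`: `2 ^ (s+2) ∣ 2 + 2 ^ (s+1)`, so `4 ∣ 2`, false.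
 Multiply back by `± e ^ i`.
`lev_sqrt2`: `Lev e j (j + 1)`: `nrm`: `b = 1 + 2 ^ j x`, `norm b - 1 = 2 ^ j trace x + 4 ^ j norm x` (`norm_one_add`), `trace x` even (`trace_even2`), `2 j ≥ j + 1`. `gen`: `b` prime to `2` is not divisible by `π` (`π ∣ 2`, `π` is not a unit: `norm π = -2`), `level2` with `n = 2 j`, `π ^ (2 j) = 2 ^ j`. -/
theorem pow_pi (D : FD σ₂ e) (h : ((e : 𝓞 K) - 1) ^ 2 = 2) (i : ℕ) (hi : 2 ≤ i) :
    ∃ w : 𝓞 K, (e : 𝓞 K) ^ (2 ^ i) =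
      1 + ((e : 𝓞 K) - 1) ^ (2 * i + 1) * (1 + ((e : 𝓞 K) - 1) * w) := by
  obtain ⟨j, rfl⟩ : ∃ j, i = j + 2 := ⟨i - 2, by omega⟩
  obtain ⟨p, hp⟩ : ∃ p : 𝓞 K, (e : 𝓞 K) - 1 = p := ⟨_, rfl⟩
  have he : (e : 𝓞 K) = 1 + p := by rw [← hp]; ring
  rw [hp] at h ⊢
  rw [he]
  clear hi
  induction j with
  | zero =>
    refine ⟨p * (1 + p), ?_⟩
    have h4 : p ^ 4 = 4 := by linear_combination (p ^ 2 + 2) * h
    have h5 : p ^ 5 = 4 * p := by linear_combination p * h4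
    have h6 : p ^ 6 = 8 := by linear_combination p ^ 2 * h4 + 4 * h
    have h7 : p ^ 7 = 8 * p := by linear_combination p * h6
    have h8 : p ^ 8 = 16 := by linear_combination (p ^ 4 + 4) * h4
    norm_num
    linear_combination 6 * h + 4 * p * h + h4 - h5 - h7 - h8
  | succ j ih =>
    obtain ⟨w, hw⟩ := ih
    refine ⟨w + p ^ (2 * j + 2) * (1 + p * w) ^ 2, ?_⟩
    have h1 : (1 + p) ^ (2 ^ (j + 1 + 2)) = ((1 + p) ^ (2 ^ (j + 2))) ^ 2 := by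
      rw [← pow_mul]; congr 1
    rw [h1, hw]
    have h2 : p ^ (2 * (j + 2) + 1) = p ^ (2 * j + 2) * p ^ 3 := by ring
    have h3 : p ^ (2 * (j + 1 + 2) + 1) = p ^ (2 * j + 2) * p ^ 5 := by ring
    rw [h2, h3]
    generalize p ^ (2 * j + 2) = q
    linear_combination (-(q * p ^ 3 * (1 + p * w))) * h

theorem F30_norm_one (D : FD σ₂ e) (t : 𝓞 K) (ht : t = 1 ∨ t = -1) : Algebra.norm ℤ t = 1 := by
  rcases ht with rfl | rfl
  · exact map_one _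
  · have h1 := norm_lin D (-1) 0
    simpa using h1

theorem F30_norm_pow (D : FD σ₂ e) (i : ℕ) :
    Algebra.norm ℤ ((e : 𝓞 K) ^ i) = 1 ∨ Algebra.norm ℤ ((e : 𝓞 K) ^ i) = -1 := by
  rw [map_pow, norm_e D]
  exact neg_one_pow_eq_or ℤ i

omit [NumberField K] [Algebra K ℝ] in
theorem F30_mul (n : ℕ) (p s t b b₁ : 𝓞 K) (hs : s = 1 ∨ s = -1) (ht : t = 1 ∨ t = -1) (i m : ℕ)
    (hb : b = s * (e : 𝓞 K) ^ i * b₁) (h : p ^ n ∣ b₁ - t * (e : 𝓞 K) ^ m) :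
    ∃ i : ℕ, ∃ t : 𝓞 K, (t = 1 ∨ t = -1) ∧ p ^ n ∣ b - t * (e : 𝓞 K) ^ i := by
  refine ⟨i + m, s * t, ?_, ?_⟩
  · rcases hs with rfl | rfl <;> rcases ht with rfl | rfl <;> simp
  · have h1 : b - s * t * (e : 𝓞 K) ^ (i + m) = s * (e : 𝓞 K) ^ i * (b₁ - t * (e : 𝓞 K) ^ m) := by
      rw [hb]; ring
    rw [h1]
    exact h.mul_left _

theorem F30_aux (D : FD σ₂ e) (h : ((e : 𝓞 K) - 1) ^ 2 = 2) {j : ℕ} (n : ℕ)
    (hn : 1 ≤ n) (hnj : n ≤ 2 * j) (b : 𝓞 K) (hb : ¬ ((e : 𝓞 K) - 1) ∣ b)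
    (hN : (2 : ℤ) ^ (j + 1) ∣ Algebra.norm ℤ b - 1 ∨ (2 : ℤ) ^ (j + 1) ∣ Algebra.norm ℤ b + 1) :
    ∃ i : ℕ, ∃ t : 𝓞 K, (t = 1 ∨ t = -1) ∧ ((e : 𝓞 K) - 1) ^ n ∣ b - t * (e : 𝓞 K) ^ i := by
  induction n, hn using Nat.le_induction with
  | base =>
    obtain ⟨y, hy | hy⟩ := mod_pi D h b
    · exact absurd ⟨y, hy⟩ hb
    · refine ⟨0, 1, Or.inl rfl, y, ?_⟩
      rw [hy]; ring
  | succ n hn ih =>
    obtain ⟨i, s, hs, z, hz⟩ := ih (by omega)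
    have hss : s * s = 1 := by rcases hs with rfl | rfl <;> norm_num
    have hee : (e : 𝓞 K) ^ i * ((e⁻¹ : (𝓞 K)ˣ) : 𝓞 K) ^ i = 1 := by
      rw [← mul_pow, Units.mul_inv, one_pow]
    obtain ⟨x, hx⟩ : ∃ x : 𝓞 K, x = s * ((e⁻¹ : (𝓞 K)ˣ) : 𝓞 K) ^ i * z := ⟨_, rfl⟩
    have hb1 : b = s * (e : 𝓞 K) ^ i * (1 + ((e : 𝓞 K) - 1) ^ n * x) := by
      have h0 : b = s * (e : 𝓞 K) ^ i + ((e : 𝓞 K) - 1) ^ n * z := by linear_combination hz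
      rw [hx, h0]
      have h1 : s * (e : 𝓞 K) ^ i * (1 + ((e : 𝓞 K) - 1) ^ n * (s * ((e⁻¹ : (𝓞 K)ˣ) : 𝓞 K) ^ i * z))
          = s * (e : 𝓞 K) ^ i + (s * s) * ((e : 𝓞 K) ^ i * ((e⁻¹ : (𝓞 K)ˣ) : 𝓞 K) ^ i)
            * (((e : 𝓞 K) - 1) ^ n * z) := by ring
      rw [h1, hss, hee]; ring
    obtain ⟨y, hy | hy⟩ := mod_pi D h x
    · exact F30_mul (n + 1) _ s 1 b _ hs (Or.inl rfl) i 0 hb1 ⟨y, by rw [hy]; ring⟩
    · -- x = 1 + p y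
      rcases Nat.even_or_odd' n with ⟨k, hk | hk⟩
      · -- n = 2 k
        by_cases hk1 : k = 1
        · subst hk1
          refine F30_mul (n + 1) _ s (-1) b _ hs (Or.inr rfl) i 0 hb1 ?_
          rw [hk, hy]
          refine ⟨((e : 𝓞 K) - 1) + y, ?_⟩
          obtain ⟨p, hp⟩ : ∃ p : 𝓞 K, (e : 𝓞 K) - 1 = p := ⟨_, rfl⟩
          rw [hp] at h ⊢
          norm_num
          linear_combination (-(p ^ 2) - 1) * h
        · exfalso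
          have hk2 : 2 ≤ k := by omega
          have hpow : ((e : 𝓞 K) - 1) ^ n = 2 ^ k := by rw [hk, pow_mul, h]
          have hnb : Algebra.norm ℤ b = Algebra.norm ℤ (s * (e : 𝓞 K) ^ i)
              * Algebra.norm ℤ (1 + 2 ^ k * (1 + ((e : 𝓞 K) - 1) * y)) := by
            rw [← map_mul, ← hpow, ← hy, ← hb1]
          have h1 := level_norm D h hk2 y
          have h2 : (2 : ℤ) ^ (k + 2) ∣ 2 ^ (j + 1) := pow_dvd_pow 2 (by omega)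
          have h3 : Algebra.norm ℤ (s * (e : 𝓞 K) ^ i) = 1 ∨ Algebra.norm ℤ (s * (e : 𝓞 K) ^ i) = -1 := by
            rw [map_mul, F30_norm_one D s hs, one_mul]
            exact F30_norm_pow D i
          obtain ⟨k', rfl⟩ : ∃ k', k = k' + 2 := ⟨k - 2, by omega⟩
          have h4 : (2 : ℤ) ^ (k' + 2 + 2) ∣ Algebra.norm ℤ (1 + 2 ^ (k' + 2) * (1 + ((e : 𝓞 K) - 1) * y)) - 1 ∨
              (2 : ℤ) ^ (k' + 2 + 2) ∣ Algebra.norm ℤ (1 + 2 ^ (k' + 2) * (1 + ((e : 𝓞 K) - 1) * y)) + 1 := by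
            rcases hN with hN | hN <;> rcases h3 with h3 | h3 <;> rw [hnb, h3] at hN
            · left; rw [one_mul] at hN; exact h2.trans hN
            · right
              have := h2.trans hN
              have h5 := (dvd_neg.mpr this)
              have h6 : -(-1 * Algebra.norm ℤ (1 + 2 ^ (k' + 2) * (1 + ((e : 𝓞 K) - 1) * y)) - 1)
                = Algebra.norm ℤ (1 + 2 ^ (k' + 2) * (1 + ((e : 𝓞 K) - 1) * y)) + 1 := by ring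
              rwa [h6] at h5
            · right; rw [one_mul] at hN; exact h2.trans hN
            · left
              have := h2.trans hN
              have h5 := (dvd_neg.mpr this)
              have h6 : -(-1 * Algebra.norm ℤ (1 + 2 ^ (k' + 2) * (1 + ((e : 𝓞 K) - 1) * y)) + 1)
                = Algebra.norm ℤ (1 + 2 ^ (k' + 2) * (1 + ((e : 𝓞 K) - 1) * y)) - 1 := by ring
              rwa [h6] at h5
          have hpos : (0 : ℤ) < 2 ^ k' := by positivity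
          rcases h4 with h4 | h4
          · have h5 := dvd_sub h4 h1
            have h6 : Algebra.norm ℤ (1 + 2 ^ (k' + 2) * (1 + ((e : 𝓞 K) - 1) * y)) - 1 -
              (Algebra.norm ℤ (1 + 2 ^ (k' + 2) * (1 + ((e : 𝓞 K) - 1) * y)) - (1 + 2 ^ (k' + 2 + 1))) = 2 ^ (k' + 2 + 1) := by ring
            rw [h6] at h5
            have h7 := Int.le_of_dvd (by positivity) h5
            have h8 : (2 : ℤ) ^ (k' + 2 + 2) = 16 * 2 ^ k' := by ring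
            have h9 : (2 : ℤ) ^ (k' + 2 + 1) = 8 * 2 ^ k' := by ring
            rw [h8, h9] at h7
            linarith
          · have h5 := dvd_sub h4 h1
            have h6 : Algebra.norm ℤ (1 + 2 ^ (k' + 2) * (1 + ((e : 𝓞 K) - 1) * y)) + 1 -
              (Algebra.norm ℤ (1 + 2 ^ (k' + 2) * (1 + ((e : 𝓞 K) - 1) * y)) - (1 + 2 ^ (k' + 2 + 1))) = 2 + 8 * 2 ^ k' := by ring
            rw [h6] at h5
            have h7 : (4 : ℤ) ∣ 2 ^ (k' + 2 + 2) := ⟨4 * 2 ^ k', by ring⟩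
            have h8 := h7.trans h5
            omega
      · -- n = 2 k + 1
        rcases Nat.lt_or_ge k 2 with hk2 | hk2
        · interval_cases k
          · refine F30_mul (n + 1) _ s 1 b _ hs (Or.inl rfl) i 1 hb1 ?_
            rw [hk, hy]
            refine ⟨y, ?_⟩
            ring
          · refine F30_mul (n + 1) _ s (-1) b _ hs (Or.inr rfl) i 2 hb1 ?_
            rw [hk, hy]
            obtain ⟨p, hp⟩ : ∃ p : 𝓞 K, (e : 𝓞 K) - 1 = p := ⟨_, rfl⟩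
            have he : (e : 𝓞 K) = 1 + p := by rw [← hp]; ring
            rw [hp] at h ⊢
            rw [he]
            refine ⟨1 + p + y, ?_⟩
            norm_num
            linear_combination (-1 - p - p ^ 2 - p ^ 3) * h
        · obtain ⟨w, hw⟩ := pow_pi D h k hk2
          refine F30_mul (n + 1) _ s 1 b _ hs (Or.inl rfl) i (2 ^ k) hb1 ?_
          rw [hw, hk, hy]
          exact ⟨y - w, by ring⟩

theorem level2 (D : FD σ₂ e) (h : ((e : 𝓞 K) - 1) ^ 2 = 2) {j : ℕ} (hj : 3 ≤ j) (n : ℕ)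
    (hn : 1 ≤ n) (hnj : n ≤ 2 * j) (b : 𝓞 K) (hb : ¬ ((e : 𝓞 K) - 1) ∣ b)
    (hN : (2 : ℤ) ^ (j + 1) ∣ Algebra.norm ℤ b - 1 ∨ (2 : ℤ) ^ (j + 1) ∣ Algebra.norm ℤ b + 1) :
    ∃ i : ℕ, ((e : 𝓞 K) - 1) ^ n ∣ b - (e : 𝓞 K) ^ i ∨ ((e : 𝓞 K) - 1) ^ n ∣ b + (e : 𝓞 K) ^ i := by
  obtain ⟨i, t, ht, hd⟩ := F30_aux D h n hn hnj b hb hN
  refine ⟨i, ?_⟩
  rcases ht with rfl | rfl
  · left; rwa [one_mul] at hd
  · right
    have : b - -1 * (e : 𝓞 K) ^ i = b + (e : 𝓞 K) ^ i := by ring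
    rwa [this] at hd

theorem lev_sqrt2 (D : FD σ₂ e) (h : ((e : 𝓞 K) - 1) ^ 2 = 2) (j : ℕ) (hj : 4 ≤ j) :
    Lev e j (j + 1) := by
  refine ⟨hj, by omega, ?_, ?_⟩
  · intro b hb
    rw [Ideal.span_singleton_pow, Ideal.mem_span_singleton] at hb
    obtain ⟨x, hx⟩ := hb
    have h1 : b = 1 + (((2 : ℤ) ^ j : ℤ) : 𝓞 K) * x := by
      push_cast
      linear_combination hx
    have h2 := norm_one_add D (2 ^ j) x
    rw [← h1] at h2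
    obtain ⟨t, ht⟩ := trace_even2 D h x
    obtain ⟨j', rfl⟩ : ∃ j', j = j' + 1 := ⟨j - 1, by omega⟩
    rw [h2, ht]
    exact ⟨t + 2 ^ j' * Algebra.norm ℤ x, by ring⟩
  · intro b hb hN
    rw [Ideal.isCoprime_span_singleton_iff] at hb
    have hnb : ¬ ((e : 𝓞 K) - 1) ∣ b := by
      intro hdvd
      obtain ⟨u, v, huv⟩ := hb
      have h2 : ((e : 𝓞 K) - 1) ∣ (2 : 𝓞 K) := ⟨(e : 𝓞 K) - 1, by rw [← h]; ring⟩
      have h1 : ((e : 𝓞 K) - 1) ∣ u * b + v * 2 := dvd_add (hdvd.mul_left _) (h2.mul_left _)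
      rw [huv] at h1
      obtain ⟨q, hq⟩ := h1
      have h3 : Algebra.norm ℤ ((e : 𝓞 K) - 1) * Algebra.norm ℤ q = 1 := by
        rw [← map_mul, ← hq, map_one]
      have h4 : Algebra.norm ℤ ((e : 𝓞 K) - 1) = -2 := by
        have h5 := norm_lin D (-1) 1
        rw [tre_two D h] at h5
        have h6 : (((-1 : ℤ) : 𝓞 K) + ((1 : ℤ) : 𝓞 K) * (e : 𝓞 K)) = (e : 𝓞 K) - 1 := by
          push_cast; ring
        rw [h6] at h5
        rw [h5]; norm_num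
      rw [h4] at h3
      omega
    obtain ⟨i, hi⟩ := level2 D h (by omega) (2 * j) (by omega) le_rfl b hnb hN
    refine ⟨i, ?_⟩
    rw [pow_mul, h] at hi
    rw [Ideal.span_singleton_pow, Ideal.mem_span_singleton, Ideal.mem_span_singleton]
    exact hi

end Pool.Agent.STg.F
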