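import Mathlib

/-!
# The lemniscatic data: interface between the analytic part and the arithmetic part

`Lam` is the lattice `ℤ[i]` in `ℂ`. `LemData` collects all facts on the normalized Weierstrass
function `X = ℘ / ℘(1/2)` of this lattice and on the function
`ell z = log |σ z| - π |z|² / 2` which are used in the arithmetic part.
-/

open Complex

namespace Pool.Agent.STg

/-- The lattice of the Gaussian integers in `ℂ`. -/
def Lam : Set ℂ := Set.range (fun a : GaussianInt => (a : ℂ))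

/-- The norm of a Gaussian integer as a natural number. -/
def gN (a : GaussianInt) : ℕ := a.norm.natAbs

/-- A Gaussian integer is odd if its norm is odd. -/
def gOdd (a : GaussianInt) : Prop := Odd (gN a)

/-- The values `X u` at the non-zero `β`-torsion points `u`. -/
def TSet (X : ℂ → ℂ) (β : GaussianInt) : Set ℂ :=
  {t | ∃ u : ℂ, u ∉ Lam ∧ (β : ℂ) * u ∈ Lam ∧ X u = t}

open Classical in
/-- The set of the values `X u` at the non-zero `β`-torsion points `u`, as a `Finset`. -/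
noncomputable def TFin (X : ℂ → ℂ) (β : GaussianInt) : Finset ℂ :=
  if h : (TSet X β).Finite then h.toFinset else ∅

/-- Facts on the functions `X` and `ell`. -/
structure LemData where
  /-- the function `℘ / ℘(1/2)` -/
  X : ℂ → ℂ
  /-- the function `log |σ z| - π |z|² / 2` -/
  ell : ℂ → ℝ
  /-- an absolute constant -/
  c₀ : ℝ
  X_add : ∀ (z : ℂ) (a : GaussianInt), X (z + a) = X z
  X_neg : ∀ z : ℂ, X (-z) = X z
  X_I : ∀ z : ℂ, X (I * z) = -X z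
  X_half : X (1 / 2) = 1
  X_w0 : X ((1 + I) / 2) = 0
  X_inj : ∀ z u : ℂ, z ∉ Lam → u ∉ Lam → X z = X u → z - u ∈ Lam ∨ z + u ∈ Lam
  X_add_w0 : ∀ z : ℂ, z ∉ Lam → z + (1 + I) / 2 ∉ Lam → X (z + (1 + I) / 2) * X z = -1
  X_add_half : ∀ z : ℂ, z ∉ Lam → z + 1 / 2 ∉ Lam → X (z + 1 / 2) * (X z - 1) = X z + 1
  X_oneI : ∀ z : ℂ, z ∉ Lam → (1 + I) * z ∉ Lam → X ((1 + I) * z) * (2 * I * X z) = X z ^ 2 - 1
  X_mul : ∀ z u : ℂ, z ∉ Lam → u ∉ Lam → z + u ∉ Lam → z - u ∉ Lam →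
    X (z + u) * X (z - u) * (X z - X u) ^ 2 = (1 + X z * X u) ^ 2
  finite_T : ∀ β : GaussianInt, β ≠ 0 → (TSet X β).Finite
  card_T : ∀ β : GaussianInt, gOdd β → 2 * (TFin X β).card + 1 = gN β
  /-- the multiplication formula for odd `β` -/
  X_prod : ∀ β : GaussianInt, gOdd β → ∃ c : ℂ, (c = 1 ∨ c = -1) ∧
    c * (β : ℂ) ^ 2 * ∏ t ∈ TFin X β, t ^ 2 = 1 ∧
    ∀ z : ℂ, (β : ℂ) * z ∉ Lam →
      X (β * z) * ∏ t ∈ TFin X β, (X z - t) ^ 2 = c * X z * ∏ t ∈ TFin X β, (1 + t * X z) ^ 2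
  ell_add : ∀ z : ℂ, z ∉ Lam → ∀ a : GaussianInt, ell (z + a) = ell z
  /-- the function with divisor `∑ (u) - N(α) (0)` -/
  theta : ∀ α : GaussianInt, gOdd α → ∃ C : ℝ, ∀ z : ℂ, (α : ℂ) * z ∉ Lam →
    Real.log ‖∏ t ∈ TFin X α, (X z - t)‖ = ell (α * z) - gN α * ell z + C
  /-- Kronecker's limit formula for `ℚ(i)` -/
  kron : ∀ z : ℂ, z ∉ Lam → ∃ E : ℂ → ℂ, DifferentiableOn ℂ E {1}ᶜ ∧
    (∀ s : ℂ, 1 < s.re →
      HasSum (fun a : GaussianInt => ((‖z + (a : ℂ)‖ : ℝ) : ℂ) ^ (-2 * s)) (E s)) ∧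
    E 0 = 0 ∧ deriv E 0 = ((c₀ - 2 * ell z : ℝ) : ℂ)

end Pool.Agent.STg
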