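import Pool.Agent.Lib.MP_1ef7cf_nt_g.Mg.G030
import Pool.Agent.Lib.MP_1ef7cf_nt_g.Mg.G029
import Pool.Agent.Lib.MP_1ef7cf_nt_g.Mg.G028

/-!
# Change of the level `k`: fields
-/

open Complex

namespace Pool.Agent.STg

variable (U : UD)

private lemma U2b_angle (k : ℕ) : 2 * Real.pi / 2 ^ k = 2 * (2 * Real.pi / 2 ^ (k + 1)) := by
  rw [pow_succ]
  field_simp

private lemma U2b_ck (k : ℕ) : ck k = ck (k + 1) * ck (k + 1) + ck (k + 1) * ck (k + 1) - 1 := by
  unfold ck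
  rw [U2b_angle k, Real.cos_two_mul]
  ring

/-- `Rk` increases with `k` (double angle formula) -/
lemma Rk_le (k : ℕ) : Rk U k ≤ Rk U (k + 1) := by
  have h1 : U.r ∈ Rk U (k + 1) := UD.r_mem U (k + 1)
  have h2 : ck (k + 1) ∈ Rk U (k + 1) := ck_mem U (k + 1)
  unfold Rk
  rw [IntermediateField.adjoin_le_iff]
  rintro x (rfl | rfl)
  · exact h1
  · rw [U2b_ck k]
    exact (Rk U (k + 1)).sub_mem ((Rk U (k + 1)).add_mem ((Rk U (k + 1)).mul_mem h2 h2)
      ((Rk U (k + 1)).mul_mem h2 h2)) (Rk U (k + 1)).one_mem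

private lemma U2b_int_ck (k : ℕ) : IsIntegral ℚ (ck k) := by
  induction k with
  | zero =>
    have : ck 0 = 1 := by simp [ck]
    rw [this]
    exact isIntegral_one
  | succ k ih =>
    have h1 : ck (k + 1) ^ 2 = (1 / 2 : ℚ) • (1 + ck k) := by
      rw [U2b_ck k, Algebra.smul_def]
      push_cast
      simp only [eq_ratCast]
      push_cast
      ring
    refine IsIntegral.of_pow (n := 2) (by norm_num) ?_
    rw [h1]
    exact (isIntegral_one.add ih).smul _

private lemma U2b_int_r : IsIntegral ℚ U.r := by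
  refine IsIntegral.of_pow (n := 2) (by norm_num) ?_
  rw [UD.r_sq]
  unfold UD.e
  have h1 : IsIntegral ℚ (Real.sqrt ((U.T : ℝ) ^ 2 + 4)) := by
    refine IsIntegral.of_pow (n := 2) (by norm_num) ?_
    rw [Real.sq_sqrt (by positivity)]
    have : (U.T : ℝ) ^ 2 + 4 = algebraMap ℚ ℝ ((U.T : ℚ) ^ 2 + 4) := by
      simp
    rw [this]
    exact isIntegral_algebraMap
  have h2 : IsIntegral ℚ (U.T : ℝ) := by
    have : (U.T : ℝ) = algebraMap ℚ ℝ (U.T : ℚ) := by simp
    rw [this]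
    exact isIntegral_algebraMap
  have h3 : ((U.T : ℝ) + Real.sqrt ((U.T : ℝ) ^ 2 + 4)) / 2 =
      (1 / 2 : ℚ) • ((U.T : ℝ) + Real.sqrt ((U.T : ℝ) ^ 2 + 4)) := by
    rw [Algebra.smul_def]
    simp only [eq_ratCast]
    push_cast
    ring
  rw [h3]
  exact (h2.add h1).smul _

private lemma U2b_alg (k : ℕ) : Algebra.IsAlgebraic ℚ (Rk U k) := by
  unfold Rk
  refine IntermediateField.isAlgebraic_adjoin ?_
  rintro x (rfl | rfl)
  · exact U2b_int_r U
  · exact U2b_int_ck k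

private lemma U2b_range {F L : Type*} [Field F] [Field L] [Algebra F L] [Algebra F ℂ]
    [Algebra.IsAlgebraic F L] [CharZero F] (x : L) (z : ℂ) (h : ∀ ψ : L →ₐ[F] ℂ, ψ x = z) :
    x ∈ (algebraMap F L).range := by
  have hint : IsIntegral F x := (Algebra.IsAlgebraic.isAlgebraic x).isIntegral
  have hsep : (minpoly F x).Separable := (minpoly.irreducible hint).separable
  have hspl : ((minpoly F x).map (algebraMap F ℂ)).Splits := IsAlgClosed.splits _
  have h1 := Algebra.IsAlgebraic.range_eval_eq_rootSet_minpoly_of_splits (F := F) (K := L) ℂ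
    (fun x => IsAlgClosed.splits _) x
  have h2 := Polynomial.card_rootSet_eq_natDegree hsep hspl
  have h3 : (minpoly F x).rootSet ℂ ⊆ {z} := by
    rw [← h1]
    rintro _ ⟨ψ, rfl⟩
    exact h ψ
  have h4 : Fintype.card ((minpoly F x).rootSet ℂ) ≤ 1 := by
    rw [Fintype.card_le_one_iff_subsingleton]
    constructor
    rintro ⟨a, ha⟩ ⟨b, hb⟩
    apply Subtype.ext
    show a = b
    rw [h3 ha, h3 hb]
  rw [h2] at h4
  have h5 := minpoly.natDegree_pos hint
  have h6 : (minpoly F x).natDegree = 1 := le_antisymm h4 h5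
  refine minpoly.mem_range_of_degree_eq_one F x ?_
  rw [Polynomial.degree_eq_natDegree (minpoly.ne_zero hint), h6]
  rfl

/-- every embedding of `Rk U k` extends to `Rk U (k + 1)` -/
lemma exists_ext_succ {k : ℕ} (φ : Rk U k →+* ℂ) : ∃ φ' : Rk U (k + 1) →+* ℂ,
    ∀ x ∈ Rk U k, ap φ' x = ap φ x := by
  let a1 : Algebra (Rk U k) ℂ := φ.toAlgebra
  let a2 : Algebra (Rk U k) (Rk U (k + 1)) :=
    (IntermediateField.inclusion (Rk_le U k)).toRingHom.toAlgebra
  have h3 : Algebra.IsAlgebraic ℚ (Rk U (k + 1)) := U2b_alg U (k + 1)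
  have t : IsScalarTower ℚ (Rk U k) (Rk U (k + 1)) := by
    refine IsScalarTower.of_algebraMap_eq ?_
    intro q
    exact ((IntermediateField.inclusion (Rk_le U k)).commutes q).symm
  have h4 : Algebra.IsAlgebraic (Rk U k) (Rk U (k + 1)) := Algebra.IsAlgebraic.tower_top (K := ℚ) _
  let ψ : Rk U (k + 1) →ₐ[Rk U k] ℂ := IsAlgClosed.lift
  refine ⟨ψ.toRingHom, ?_⟩
  intro x hx
  rw [ap_of_mem _ (Rk_le U k hx), ap_of_mem _ hx]
  exact ψ.commutes ⟨x, hx⟩

/-- an element of `Rk U (k + 1)` which is fixed by all embeddings in `ℂ` which are the identity on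
`Rk U k`, is in `Rk U k`. -/
lemma mem_Rk_of_fixed {k : ℕ} {x : ℝ} (hx : x ∈ Rk U (k + 1))
    (h : ∀ φ' : Rk U (k + 1) →+* ℂ, (∀ z ∈ Rk U k, ap φ' z = z) → ap φ' x = x) : x ∈ Rk U k := by
  let φ : Rk U k →+* ℂ := (Complex.ofRealHom).comp (Rk U k).val.toRingHom
  let a1 : Algebra (Rk U k) ℂ := φ.toAlgebra
  let a2 : Algebra (Rk U k) (Rk U (k + 1)) :=
    (IntermediateField.inclusion (Rk_le U k)).toRingHom.toAlgebra
  have h3 : Algebra.IsAlgebraic ℚ (Rk U (k + 1)) := U2b_alg U (k + 1)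
  have t : IsScalarTower ℚ (Rk U k) (Rk U (k + 1)) := by
    refine IsScalarTower.of_algebraMap_eq ?_
    intro q
    exact ((IntermediateField.inclusion (Rk_le U k)).commutes q).symm
  have h4 : Algebra.IsAlgebraic (Rk U k) (Rk U (k + 1)) := Algebra.IsAlgebraic.tower_top (K := ℚ) _
  have h5 : (⟨x, hx⟩ : Rk U (k + 1)) ∈ (algebraMap (Rk U k) (Rk U (k + 1))).range := by
    refine U2b_range _ (x : ℂ) ?_
    intro ψ
    have h6 := h ψ.toRingHom ?_
    · rw [ap_of_mem _ hx] at h6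
      exact h6
    · intro z hz
      rw [ap_of_mem _ (Rk_le U k hz)]
      exact ψ.commutes ⟨z, hz⟩
  obtain ⟨y, hy⟩ := h5
  have h7 : (y : ℝ) = x := congrArg Subtype.val hy
  rw [← h7]
  exact y.2

/-- if `cos (2 π n / 2 ^ k) = cos (2 π n' / 2 ^ k)`, `n, n'` both `1` modulo `4`, then
`n = n'` modulo `2 ^ k` (`n = n'` or `n = -n'` modulo `2 ^ k`) -/
lemma nu_eq_of_cos {k n n' : ℕ} (hn : n % 4 = 1) (hn' : n' % 4 = 1)
    (h : Real.cos (2 * Real.pi * n / 2 ^ k) = Real.cos (2 * Real.pi * n' / 2 ^ k)) :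
    nu k n = nu k n' := by
  have ho : Odd n := Nat.odd_iff.mpr (by omega)
  have ho' : Odd n' := Nat.odd_iff.mpr (by omega)
  have hpi := Real.pi_pos
  have h2k : (0 : ℝ) < 2 ^ k := by positivity
  refine nu_eq_of_mod ho ho' ?_
  rw [Real.cos_eq_cos_iff] at h
  obtain ⟨m, hm | hm⟩ := h
  · have h1 : (n' : ℝ) = m * 2 ^ k + n := by
      field_simp at hm
      linarith
    have h2 : (n' : ℤ) - n = 2 ^ k * m := by
      have : ((n' : ℤ) : ℝ) = ((m * 2 ^ k + n : ℤ) : ℝ) := by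
        push_cast
        exact h1
      have h3 := Int.cast_injective this
      rw [h3]
      ring
    rw [Nat.modEq_iff_dvd]
    push_cast
    exact ⟨m, h2⟩
  · have h1 : (n' : ℝ) = m * 2 ^ k - n := by
      field_simp at hm
      linarith
    have h2 : (n' : ℤ) + n = 2 ^ k * m := by
      have : ((n' : ℤ) : ℝ) = ((m * 2 ^ k - n : ℤ) : ℝ) := by
        push_cast
        exact h1
      have h3 := Int.cast_injective this
      rw [h3]
      ring
    rcases Nat.lt_or_ge k 2 with hk | hk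
    · have h3 : 2 ^ k ∣ 2 := by
        interval_cases k <;> norm_num
      refine Nat.ModEq.of_dvd h3 ?_
      show n % 2 = n' % 2
      omega
    · exfalso
      obtain ⟨j, rfl⟩ := Nat.exists_eq_add_of_le hk
      rw [pow_add] at h2
      have h3 : ((2 : ℤ) ^ 2 * 2 ^ j) * m = 4 * (2 ^ j * m) := by ring
      rw [h3] at h2
      generalize (2 : ℤ) ^ j * m = q at h2
      omega

/-- double angle: if `φ' (ck (k + 1)) = cos (2 π n / 2 ^ (k + 1))` then `φ' (ck k) = cos (2 π n / 2 ^ k)` -/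
lemma ap_ck_succ {k n : ℕ} (φ' : Rk U (k + 1) →+* ℂ)
    (h : ap φ' (ck (k + 1)) = (Real.cos (2 * Real.pi * n / 2 ^ (k + 1)) : ℂ)) :
    ap φ' (ck k) = (Real.cos (2 * Real.pi * n / 2 ^ k) : ℂ) := by
  have h2 : ck (k + 1) ∈ Rk U (k + 1) := ck_mem U (k + 1)
  have h3 : ck (k + 1) * ck (k + 1) ∈ Rk U (k + 1) := (Rk U (k + 1)).mul_mem h2 h2
  have h4 : 2 * Real.pi * n / 2 ^ k = 2 * (2 * Real.pi * n / 2 ^ (k + 1)) := by
    rw [pow_succ]
    field_simp
  rw [h4, Real.cos_two_mul, U2b_ck k, ap_sub φ' ((Rk U (k + 1)).add_mem h3 h3)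
    (Rk U (k + 1)).one_mem, ap_add φ' h3 h3, ap_mul φ' h2 h2, ap_one, h]
  push_cast
  ring

end Pool.Agent.STg
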