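import Pool.Agent.Lib.MP_1ef7cf_nt_g.Mg.G023

/-!
# Decomposition of prime numbers in quadratic fields
-/

open NumberField IsDedekindDomain

namespace Pool.Agent.STg

open Pool.Agent.STg.F

variable {K : Type*} [Field K] [NumberField K] [Algebra K ℝ] {σ₂ : K →+* ℝ} {e : (𝓞 K)ˣ}

/-- Trichotomy for the primes over a prime number in a quadratic field (Mathlib:
`Ideal.sum_ramification_inertia`, or: `p 𝓞` has norm `p ^ 2`). -/
lemma trichotomy (D : FD σ₂ e) {p : ℕ} (hp : p.Prime) :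
    (∃ P Q : HeightOneSpectrum (𝓞 K), P ≠ Q ∧ Ideal.absNorm P.asIdeal = p ∧
      Ideal.absNorm Q.asIdeal = p ∧ Ideal.span {(p : 𝓞 K)} = P.asIdeal * Q.asIdeal) ∨
    (∃ P : HeightOneSpectrum (𝓞 K), Ideal.absNorm P.asIdeal = p ^ 2 ∧
      Ideal.span {(p : 𝓞 K)} = P.asIdeal) ∨
    (∃ P : HeightOneSpectrum (𝓞 K), Ideal.absNorm P.asIdeal = p ∧
      Ideal.span {(p : 𝓞 K)} = P.asIdeal * P.asIdeal) := by
  have hN : Ideal.absNorm (Ideal.span {(p : 𝓞 K)}) = p ^ 2 := by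
    rw [Ideal.absNorm_span_natCast, RingOfIntegers.rank, D.deg]
  have hp1 : 1 < p ^ 2 := Nat.one_lt_pow two_ne_zero hp.one_lt
  have hbot : Ideal.span {(p : 𝓞 K)} ≠ ⊥ := by
    intro h
    rw [h, Ideal.absNorm_bot] at hN
    omega
  have htop : Ideal.span {(p : 𝓞 K)} ≠ ⊤ := by
    intro h
    rw [h, Ideal.absNorm_top] at hN
    omega
  obtain ⟨M, hM, hle⟩ := Ideal.exists_le_maximal _ htop
  have hMbot : M ≠ ⊥ := by
    intro h
    rw [h] at hle
    exact hbot (le_bot_iff.mp hle)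
  obtain ⟨P, hPM⟩ : ∃ P : HeightOneSpectrum (𝓞 K), P.asIdeal = M := ⟨⟨M, hM.isPrime, hMbot⟩, rfl⟩
  obtain ⟨J, hJ⟩ := Ideal.dvd_iff_le.mpr hle
  have hmul : Ideal.absNorm M * Ideal.absNorm J = p ^ 2 := by
    rw [← map_mul, ← hJ, hN]
  have hM1 : Ideal.absNorm M ≠ 1 := fun h => hM.ne_top (Ideal.absNorm_eq_one_iff.mp h)
  obtain ⟨i, hi, hi2⟩ := (Nat.dvd_prime_pow hp).mp (Dvd.intro _ hmul)
  have hp0 : 0 < p := hp.pos
  rcases (by omega : i = 0 ∨ i = 1 ∨ i = 2) with rfl | rfl | rfl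
  · rw [pow_zero] at hi2
    exact absurd hi2 hM1
  · rw [pow_one] at hi2
    have hJp : Ideal.absNorm J = p := by
      rw [hi2, pow_two] at hmul
      exact Nat.eq_of_mul_eq_mul_left hp0 hmul
    have hJprime : J.IsPrime := by
      refine Ideal.isPrime_of_irreducible_absNorm ?_
      rw [hJp]
      exact hp
    have hJbot : J ≠ ⊥ := by
      intro h
      rw [h, Ideal.absNorm_bot] at hJp
      omega
    obtain ⟨Q, hQJ⟩ : ∃ Q : HeightOneSpectrum (𝓞 K), Q.asIdeal = J := ⟨⟨J, hJprime, hJbot⟩, rfl⟩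
    by_cases hPQ : P = Q
    · right
      right
      refine ⟨P, by rw [hPM, hi2], ?_⟩
      rw [hJ]
      conv_rhs => rw [hPM]
      rw [← hPM, hPQ, hQJ]
    · left
      exact ⟨P, Q, hPQ, by rw [hPM, hi2], by rw [hQJ, hJp], by rw [hJ, hPM, hQJ]⟩
  · right
    left
    have hJ1 : Ideal.absNorm J = 1 := by
      rw [hi2] at hmul
      exact Nat.eq_of_mul_eq_mul_left (by omega : 0 < p ^ 2) (by rw [hmul, mul_one])
    refine ⟨P, by rw [hPM, hi2], ?_⟩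
    rw [hJ, Ideal.absNorm_eq_one_iff.mp hJ1, hPM, Ideal.mul_top]

/-- for a prime `P` of norm `p`, every integer of `K` is congruent to an integer modulo `P` -/
lemma exists_int_mod {P : HeightOneSpectrum (𝓞 K)} {p : ℕ} (hp : p.Prime)
    (hP : Ideal.absNorm P.asIdeal = p) (x : 𝓞 K) : ∃ c : ℤ, x - (c : 𝓞 K) ∈ P.asIdeal := by
  haveI : Fact p.Prime := ⟨hp⟩
  have hcard : Nat.card (𝓞 K ⧸ P.asIdeal) = p := by
    rw [← hP, Ideal.absNorm_apply, Submodule.cardQuot_apply]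
  have hne : (1 : 𝓞 K ⧸ P.asIdeal) ≠ 0 := by
    intro h
    have h1 : (Ideal.Quotient.mk P.asIdeal) 1 = 0 := by rw [map_one]; exact h
    exact P.isPrime.ne_top ((Ideal.eq_top_iff_one _).mpr (Ideal.Quotient.eq_zero_iff_mem.mp h1))
  obtain ⟨c, hc⟩ := AddSubgroup.mem_zmultiples_iff.mp
    (mem_zmultiples_of_prime_card hcard (g' := Ideal.Quotient.mk P.asIdeal x) hne)
  refine ⟨c, Ideal.Quotient.eq_zero_iff_mem.mp ?_⟩
  rw [map_sub, map_intCast, ← hc, zsmul_one, sub_self]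

end Pool.Agent.STg
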