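import Pool.Agent.Lib.MP_1ef7cf_nt_g.Defs
import Pool.Agent.Lib.MP_1ef7cf_nt_g.Mg.G050
import Pool.Agent.Lib.MP_1ef7cf_nt_g.Mg.G023
import Pool.Agent.Lib.MP_1ef7cf_nt_g.S3b

/-!
# Equality of the symbols of `e` and `δ`
-/

open NumberField IsDedekindDomain Pool.Agent.ST

namespace Pool.Agent.STg

open Pool.Agent.STg.F

variable {K : Type*} [Field K] [NumberField K] [Algebra K ℝ] {σ₂ : K →+* ℝ} {e : (𝓞 K)ˣ}

omit [NumberField K] [Algebra K ℝ] in
lemma S5a_int_mem [NumberField K] {P : HeightOneSpectrum (𝓞 K)} {p : ℕ} (hp : p.Prime)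
    (hP : Ideal.absNorm P.asIdeal = p) {n : ℤ} (hn : (n : 𝓞 K) ∈ P.asIdeal) : (p : ℤ) ∣ n := by
  by_contra hcon
  have hpP : ((p : ℕ) : 𝓞 K) ∈ P.asIdeal := by
    rw [← hP]
    exact Ideal.absNorm_mem P.asIdeal
  have hcop : IsCoprime (p : ℤ) n := by
    rw [Prime.coprime_iff_not_dvd (Nat.prime_iff_prime_int.1 hp)]
    exact hcon
  obtain ⟨a, b, hab⟩ := hcop
  apply P.isPrime.ne_top
  rw [Ideal.eq_top_iff_one]
  have h1 : (1 : 𝓞 K) = (a : 𝓞 K) * ((p : ℕ) : 𝓞 K) + (b : 𝓞 K) * (n : 𝓞 K) := by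
    have := congrArg (Int.cast : ℤ → 𝓞 K) hab
    push_cast at this
    rw [this]
  rw [h1]
  exact P.asIdeal.add_mem (P.asIdeal.mul_mem_left _ hpP) (P.asIdeal.mul_mem_left _ hn)

lemma S5a_hom {p : ℕ} [Fact p.Prime] {π : GaussianInt} (hN : gN π = p) :
    ∃ φ : GaussianInt →+* ZMod p, φ π = 0 := by
  have hp : p.Prime := Fact.out
  have hN' : ((gN π : ℕ) : ℤ) = π.re * π.re + π.im * π.im := by
    unfold gN
    rw [Int.natAbs_of_nonneg (GaussianInt.norm_nonneg π), Zsqrtd.norm_def]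
    ring
  rw [hN] at hN'
  have hz : (0 : ZMod p) = (π.re : ZMod p) * π.re + (π.im : ZMod p) * π.im := by
    have := congrArg (Int.cast : ℤ → ZMod p) hN'
    push_cast at this
    rw [← this]
    simp
  have hy : (π.im : ZMod p) ≠ 0 := by
    intro h
    rw [h, mul_zero, add_zero] at hz
    have hx : (π.re : ZMod p) = 0 := by
      have := hz.symm
      rcases mul_eq_zero.1 this with h | h <;> exact h
    rw [ZMod.intCast_zmod_eq_zero_iff_dvd] at h hx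
    obtain ⟨u, hu⟩ := hx
    obtain ⟨v, hv⟩ := h
    rw [hu, hv] at hN'
    have hp0 : (p : ℤ) ≠ 0 := by exact_mod_cast hp.ne_zero
    have h1 : (p : ℤ) * (u * u + v * v) = 1 := by
      apply mul_left_cancel₀ hp0
      linear_combination -hN'
    have h2 : (p : ℤ) ∣ 1 := Dvd.intro _ h1
    have h3 : p ∣ 1 := by exact_mod_cast h2
    exact hp.one_lt.ne' (Nat.dvd_one.1 h3)
  have hr : (-(π.re : ZMod p) / π.im) * (-(π.re : ZMod p) / π.im) = ((-1 : ℤ) : ZMod p) := by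
    field_simp
    push_cast
    linear_combination -hz
  refine ⟨Zsqrtd.lift ⟨-(π.re : ZMod p) / π.im, hr⟩, ?_⟩
  rw [Zsqrtd.lift_apply_apply]
  field_simp
  ring

/-- **Equality of the symbols.** Choose integers `e₀`, `c` with `e - e₀ ∈ P` (`exists_int_mod`),
`π ∣ c - i` (`N(π) = p` is prime; if `π = x + y i` then `p ∤ y`, take `c` with `y c = -x` modulo `p`). Then modulo `p`:
`e₀ ^ 2 = T e₀ + 1`, `c ^ 2 = -1`, `(e₀ + c) ^ 2 = e₀ (T + 2 c)`, `e₀ ≠ 0`, `T + 2 c ≠ 0` (because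
`π ∤ T + 2 i`). So `(e₀ / p) = ((T + 2 c) / p)`. The left side is `chiP e P` (`chiP_int`). For the
right side: `T + 2 i = δ γ ^ 2`, `π ∤ δ`, `π ∤ γ`, so modulo `π`
`(T + 2 c) ^ ((p - 1) / 2) = δ ^ ((p - 1) / 2) γ ^ (p - 1) = Ψ(π)` (`IsPsi.leg`; Fermat). -/
theorem sym_eq (D : FD σ₂ e) (U : UD) (hT : U.T = tre e) {p : ℕ} (hp : p.Prime) (h2 : p ≠ 2)
    {P : HeightOneSpectrum (𝓞 K)} (hP : Ideal.absNorm P.asIdeal = p) {π : GaussianInt}
    (hπ : Prime π) (hπP : Prim π) (hN : gN π = p) (hd : ¬ π ∣ (⟨U.T, 2⟩ : GaussianInt)) :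
    chiP e P.asIdeal = ((U.Ψ π : ℤˣ) : ℤ) := by
  have : Fact p.Prime := ⟨hp⟩
  obtain ⟨e₀, he₀⟩ := exists_int_mod hp hP (e : 𝓞 K)
  obtain ⟨φ, hφπ⟩ := S5a_hom hN
  have h2P : (2 : 𝓞 K) ∉ P.asIdeal := by
    intro h
    have h1 : ((2 : ℤ) : 𝓞 K) ∈ P.asIdeal := by exact_mod_cast h
    have h3 := S5a_int_mem hp hP h1
    have h4 : p ∣ 2 := by exact_mod_cast h3
    exact h2 ((Nat.prime_dvd_prime_iff_eq hp Nat.prime_two).1 h4)
  obtain ⟨h, hh⟩ : ∃ h : ℕ, p = 2 * h + 1 := hp.odd_of_ne_two h2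
  have hhp : (p - 1) / 2 = h := by omega
  have hker : ∀ z : GaussianInt, ¬ π ∣ z → φ z ≠ 0 := by
    intro z hz h0
    obtain ⟨a, b, hab⟩ := (hπ.coprime_iff_not_dvd).2 hz
    have := congrArg φ hab
    rw [map_add, map_mul, map_mul, hφπ, h0, mul_zero, mul_zero, add_zero, map_one] at this
    exact zero_ne_one this
  have hφT : φ ⟨U.T, 2⟩ ≠ 0 := hker _ hd
  have hfac : φ ⟨U.T, 2⟩ = φ U.δ * φ U.γ ^ 2 := by
    rw [U.fac, map_mul, map_pow]
  have hγ : φ U.γ ≠ 0 := by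
    intro h0
    rw [hfac, h0] at hφT
    simp at hφT
  have hδ : ¬ π ∣ U.δ := by
    intro h0
    exact hd (by rw [U.fac]; exact h0.mul_right _)
  have hΨ : φ U.δ ^ h = (((U.Ψ π : ℤˣ) : ℤ) : ZMod p) := by
    have h1 := U.psi.leg π hπ hπP hδ
    rw [hN, hhp] at h1
    obtain ⟨c, hc⟩ := h1
    have h3 := congrArg φ hc
    rw [map_mul, hφπ, zero_mul, map_sub, map_pow, map_intCast, sub_eq_zero] at h3
    exact h3
  -- the integer `e₀`
  have hE1 : (e₀ : ZMod p) ^ 2 = (U.T : ZMod p) * e₀ + 1 := by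
    have h1 : (((e₀ ^ 2 - U.T * e₀ - 1 : ℤ)) : 𝓞 K) ∈ P.asIdeal := by
      have h3 : (((e₀ ^ 2 - U.T * e₀ - 1 : ℤ)) : 𝓞 K) =
          -(((e : 𝓞 K) - e₀) * ((e : 𝓞 K) + e₀ - (U.T : 𝓞 K))) := by
        have h4 := e_sq D
        rw [← hT] at h4
        push_cast
        linear_combination h4
      rw [h3]
      exact P.asIdeal.neg_mem (P.asIdeal.mul_mem_right _ he₀)
    have h3 := S5a_int_mem hp hP h1
    have h4 := (ZMod.intCast_zmod_eq_zero_iff_dvd _ p).2 h3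
    push_cast at h4
    linear_combination h4
  have hE0 : (e₀ : ZMod p) ≠ 0 := by
    intro h0
    rw [h0] at hE1
    simp at hE1
  have hEP : (e₀ : ZMod p) ^ h = ((chiP e P.asIdeal : ℤ) : ZMod p) := by
    have h1 := chiP_spec e P h2P
    rw [hP, hhp] at h1
    have h3 : (((e₀ ^ h - chiP e P.asIdeal : ℤ)) : 𝓞 K) ∈ P.asIdeal := by
      have h4 : (((e₀ ^ h - chiP e P.asIdeal : ℤ)) : 𝓞 K) =
          ((e : 𝓞 K) ^ h - ((chiP e P.asIdeal : ℤ) : 𝓞 K)) -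
            ((e : 𝓞 K) ^ h - (e₀ : 𝓞 K) ^ h) := by
        push_cast
        ring
      rw [h4]
      refine P.asIdeal.sub_mem h1 ?_
      obtain ⟨c, hc⟩ := sub_dvd_pow_sub_pow (e : 𝓞 K) (e₀ : 𝓞 K) h
      rw [hc]
      exact P.asIdeal.mul_mem_right _ he₀
    have h5 := S5a_int_mem hp hP h3
    have h6 := (ZMod.intCast_zmod_eq_zero_iff_dvd _ p).2 h5
    push_cast at h6
    linear_combination h6
  -- the square
  set r : ZMod p := φ ⟨0, 1⟩ with hr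
  have hr2 : r ^ 2 = -1 := by
    rw [hr, ← map_pow]
    have : (⟨0, 1⟩ : GaussianInt) ^ 2 = -1 := by
      ext <;> simp [pow_two]
    rw [this, map_neg, map_one]
  have hTr : φ ⟨U.T, 2⟩ = (U.T : ZMod p) + 2 * r := by
    have : (⟨U.T, 2⟩ : GaussianInt) = ((U.T : ℤ) : GaussianInt) + 2 * ⟨0, 1⟩ := by
      ext <;> simp
    rw [this, map_add, map_mul, map_intCast, map_ofNat]
  have hsq : ((e₀ : ZMod p) + r) ^ 2 = (e₀ : ZMod p) * φ ⟨U.T, 2⟩ := by
    rw [hTr]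
    linear_combination hE1 + hr2
  have hne : (e₀ : ZMod p) + r ≠ 0 := by
    intro h0
    rw [h0] at hsq
    have : (e₀ : ZMod p) * φ ⟨U.T, 2⟩ = 0 := by
      rw [← hsq]
      ring
    rcases mul_eq_zero.1 this with h3 | h3
    · exact hE0 h3
    · exact hφT h3
  have hp1 : p - 1 = 2 * h := by omega
  have hpow : ((e₀ : ZMod p) * φ ⟨U.T, 2⟩) ^ h = 1 := by
    rw [← hsq, ← pow_mul, ← hp1]
    exact ZMod.pow_card_sub_one_eq_one hne
  have hγp : φ U.γ ^ (2 * h) = 1 := by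
    rw [← hp1]
    exact ZMod.pow_card_sub_one_eq_one hγ
  have hprod : ((chiP e P.asIdeal : ℤ) : ZMod p) * (((U.Ψ π : ℤˣ) : ℤ) : ZMod p) = 1 := by
    rw [← hEP, ← hΨ, ← hpow, hfac, mul_pow, mul_pow, ← pow_mul, hγp, mul_one]
  have h20 : (2 : ZMod p) ≠ 0 := by
    intro h0
    have : ((2 : ℕ) : ZMod p) = 0 := by exact_mod_cast h0
    rw [ZMod.natCast_eq_zero_iff] at this
    exact h2 ((Nat.prime_dvd_prime_iff_eq hp Nat.prime_two).1 this)
  rcases chiP_sq e P.asIdeal with h1 | h1 <;> rcases Int.units_eq_one_or (U.Ψ π) with h3 | h3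
  · rw [h1, h3]; rfl
  · exfalso
    rw [h1, h3] at hprod
    push_cast at hprod
    apply h20
    linear_combination -hprod
  · exfalso
    rw [h1, h3] at hprod
    push_cast at hprod
    apply h20
    linear_combination -hprod
  · rw [h1, h3]; rfl

end Pool.Agent.STg
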