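import Pool.Agent.Lib.MP_1ef7cf_nt_f.TW
import Pool.Agent.Lib.MP_1ef7cf_nt_g.Mg.G071
import Pool.Agent.Lib.MP_1ef7cf_nt_g.Mg.G064

/-!
# The conditions 1-3 for the layers
-/

open NumberField IsDedekindDomain Pool.Agent.ST Pool.Agent.STb Pool.Agent.STf IntermediateField

namespace Pool.Agent.STg

open Pool.Agent.STg.F

variable {K : Type*} [Field K] [NumberField K] [Algebra K ℝ] {σ₂ : K →+* ℝ} {e : (𝓞 K)ˣ}

/-- **The conditions 1-3.** `rcf`: `hA`; `pre`: `preStark_xv`; `act`: let `γ` have the coordinates `s`, `n`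
(`exists_coords`): `act γ (xv 1) = xv (s, nu n)` (`act_gf`, `isGF_xv_all`). An automorphism `σ` of `H` is in
the fibre of `γ` iff its restriction to `Lf e k` is `γ`, iff `Art.symm σ ∈ ClsSet e Art k s n`
(`ext_coords`, `act_res`); so `pf hL (ez σ₂ m Art) γ = exp (-2 ∑ zd)`, the sum over `ClsSet`, which is
`xv (s, nu n)` by `S_main`. -/
theorem td_xv (D : LemData) (F : FD σ₂ e) (U : UD) (hT : U.T = tre e) {m : Ideal (𝓞 K)}
    (hm : ∀ v : HeightOneSpectrum (𝓞 K), v.asIdeal ∣ m ↔ (2 : 𝓞 K) ∈ v.asIdeal) (hm0 : m ≠ ⊥)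
    {H : IntermediateField K ℝ} {Art : RayClassGroup σ₂ m ≃* (H ≃ₐ[K] H)}
    (hA : IsRayClassField σ₂ m H Art) {k J : ℕ} (hk : 2 ≤ k) (hJ : k + 5 ≤ J) (hJ' : 11 ≤ J)
    (hL : Lf e k ≤ H) : TD σ₂ m (Lf e k) (xv D U k J 1) := by
  classical
  have hfd : FiniteDimensional K H := hA.finite
  have hab : IsAbelianGalois K (Lf e k) := abelian_Lf F k
  have hnorm : Normal K (Lf e k) := inferInstance
  refine ⟨H, Art, hfd, hnorm, hL, ⟨hA, preStark_xv D F U hT (by omega) hJ hJ' 1, ?_⟩⟩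
  intro γ
  obtain ⟨s, n, hn, h1, h2⟩ := exists_coords F U hT γ
  rw [act_gf F U hT (isGF_xv_all D U (by omega) hJ hJ') γ hn h1 h2 1, mul_one]
  have hS : ∀ A, A ∈ (fib hL γ).image (fun σ => Art.symm σ) ↔ A ∈ ClsSet e Art k s n := by
    intro A
    rw [Finset.mem_image]
    have h3 : (∃ a ∈ fib hL γ, Art.symm a = A) ↔ res hL (Art A) = γ := by
      constructor
      · rintro ⟨a, ha, rfl⟩
        rw [mem_fib] at ha
        rw [MulEquiv.apply_symm_apply]
        exact ha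
      · intro h
        exact ⟨Art A, by rw [mem_fib]; exact h, by rw [MulEquiv.symm_apply_apply]⟩
    rw [h3]
    constructor
    · intro h
      refine ⟨?_, ?_⟩
      · rw [← h1, ← h, act_res hL _ (se_mem e k)]
      · rw [← h2, ← h, act_res hL _ (cos_mem e k)]
    · rintro ⟨h4, h5⟩
      apply ext_coords
      · rw [act_res hL _ (se_mem e k), h4, h1]
      · rw [act_res hL _ (cos_mem e k), h5, h2]
  have hsum := S_main D F U hT hm hm0 hA hk (J := J) (by omega) (hL (se_mem e k))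
    (hL (cos_mem e k)) s hn hS
  rw [Finset.sum_image (fun a _ b _ h => Art.symm.injective h)] at hsum
  have hpos : 0 < xv D U k J (s, nu k n) := Real.exp_pos _
  unfold pf ez
  rw [← Real.exp_sum, ← Finset.mul_sum, hsum, Real.exp_log hpos]

end Pool.Agent.STg
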