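import Pool.Agent.Lib.MP_1ef7cf_nt_g.Defs

/-!
# Primary Gaussian integers and residue classes
-/

open Complex

namespace Pool.Agent.STg

/-! ### Q1 : norms and primary elements -/

lemma gN_mul (a b : GaussianInt) : gN (a * b) = gN a * gN b := by
  unfold gN
  rw [Zsqrtd.norm_mul, Int.natAbs_mul]

lemma gN_one : gN 1 = 1 := by
  unfold gN
  rw [Zsqrtd.norm_one]
  rfl

lemma gN_eq_sq (a : GaussianInt) : (gN a : ℝ) = ‖(a : ℂ)‖ ^ 2 := by
  unfold gN
  rw [← Complex.normSq_eq_norm_sq, ← GaussianInt.intCast_real_norm]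
  have := congrArg (fun z : ℤ => (z : ℝ)) (GaussianInt.abs_natCast_norm a)
  simp only [Int.cast_natCast] at this
  exact this

lemma gN_pos {a : GaussianInt} (ha : a ≠ 0) : 0 < gN a := by
  unfold gN
  exact Int.natAbs_pos.mpr (GaussianInt.norm_pos.mpr ha).ne'

/-- the norm in coordinates -/
lemma Q_norm (a : GaussianInt) : a.norm = a.re * a.re + a.im * a.im := by
  simp [Zsqrtd.norm_def]

lemma Q_gN (a : GaussianInt) : ((gN a : ℕ) : ℤ) = a.re * a.re + a.im * a.im := by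
  unfold gN
  rw [GaussianInt.abs_natCast_norm, Q_norm]

/-- `a a' = N(a)` where `a'` is the conjugate -/
lemma mul_star_eq (a : GaussianInt) : a * star a = ((gN a : ℕ) : GaussianInt) := by
  have h := Zsqrtd.norm_eq_mul_conj a
  have h2 := congrArg (fun z : ℤ => (z : GaussianInt)) (GaussianInt.abs_natCast_norm a)
  simp only [Int.cast_natCast] at h2
  unfold gN
  rw [← h, h2]

lemma Q_cube : (⟨1, 1⟩ : GaussianInt) ^ 3 = ⟨-2, 2⟩ := by
  rw [pow_succ, pow_succ, pow_one]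
  ext <;> simp

/-- `(1 + i) ^ 3 = -2 + 2 i` divides `x - 1 + y i` iff `y` is even and `x + y = 1` modulo `4`. -/
lemma prim_iff (a : GaussianInt) : Prim a ↔ Even a.im ∧ (a.re + a.im) % 4 = 1 := by
  unfold Prim
  rw [Q_cube]
  constructor
  · rintro ⟨c, hc⟩
    have h1 := congrArg Zsqrtd.re hc
    have h2 := congrArg Zsqrtd.im hc
    simp at h1 h2
    rw [Int.even_iff]
    omega
  · rintro ⟨h1, h2⟩
    rw [Int.even_iff] at h1
    have e1 : 4 * ((a.im - a.re + 1) / 4) = a.im - a.re + 1 := by omega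
    have e2 : 4 * ((-a.re + 1 - a.im) / 4) = -a.re + 1 - a.im := by omega
    refine ⟨⟨(a.im - a.re + 1) / 4, (-a.re + 1 - a.im) / 4⟩, ?_⟩
    ext
    · simp
      omega
    · simp
      omega

lemma Prim.mul {a b : GaussianInt} (ha : Prim a) (hb : Prim b) : Prim (a * b) := by
  unfold Prim at *
  have : a * b - 1 = (a - 1) * b + (b - 1) := by ring
  rw [this]
  exact dvd_add (Dvd.dvd.mul_right ha b) hb

lemma prim_one : Prim 1 := by
  unfold Prim
  simp

/-- the norm of a primary element is `1` modulo `4`: `x` odd, `y` even. -/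
lemma Prim.gN_mod {a : GaussianInt} (ha : Prim a) : gN a % 4 = 1 := by
  rw [prim_iff] at ha
  obtain ⟨h1, h2⟩ := ha
  rw [Int.even_iff] at h1
  have h := Q_gN a
  obtain ⟨y, hy⟩ : ∃ y, a.im = 2 * y := ⟨a.im / 2, by omega⟩
  obtain ⟨x, hx⟩ : ∃ x, a.re = 2 * x + 1 := ⟨a.re / 2, by omega⟩
  rw [hy, hx] at h
  have : ((gN a : ℕ) : ℤ) = 4 * (x * x + x + y * y) + 1 := by rw [h]; ring
  omega

lemma Prim.odd {a : GaussianInt} (ha : Prim a) : gOdd a := by
  unfold gOdd
  rw [Nat.odd_iff]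
  have := ha.gN_mod
  omega

/-- An odd Gaussian integer has an associate which is primary: one of `a, i a, -a, -i a`. -/
lemma exists_prim_assoc {a : GaussianInt} (ha : gOdd a) : ∃ u : GaussianInt, IsUnit u ∧ Prim (u * a) := by
  unfold gOdd at ha
  rw [Nat.odd_iff] at ha
  have h := Q_gN a
  have hI : IsUnit (⟨0, 1⟩ : GaussianInt) := by
    refine IsUnit.of_mul_eq_one ⟨0, -1⟩ ?_
    ext <;> simp
  -- parity
  have hpar : (a.re % 2 = 0 ∧ a.im % 2 = 1) ∨ (a.re % 2 = 1 ∧ a.im % 2 = 0) := by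
    rcases Int.emod_two_eq_zero_or_one a.re with hr | hr <;>
    rcases Int.emod_two_eq_zero_or_one a.im with hi | hi
    · exfalso
      obtain ⟨x, hx⟩ : ∃ x, a.re = 2 * x := ⟨a.re / 2, by omega⟩
      obtain ⟨y, hy⟩ : ∃ y, a.im = 2 * y := ⟨a.im / 2, by omega⟩
      rw [hx, hy] at h
      have : ((gN a : ℕ) : ℤ) = 2 * (2 * (x * x) + 2 * (y * y)) := by rw [h]; ring
      omega
    · exact Or.inl ⟨hr, hi⟩
    · exact Or.inr ⟨hr, hi⟩
    · exfalso
      obtain ⟨x, hx⟩ : ∃ x, a.re = 2 * x + 1 := ⟨a.re / 2, by omega⟩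
      obtain ⟨y, hy⟩ : ∃ y, a.im = 2 * y + 1 := ⟨a.im / 2, by omega⟩
      rw [hx, hy] at h
      have : ((gN a : ℕ) : ℤ) = 2 * (2 * (x * x + x) + 2 * (y * y + y) + 1) := by rw [h]; ring
      omega
  rcases hpar with ⟨hr, hi⟩ | ⟨hr, hi⟩
  · by_cases hc : (a.re - a.im) % 4 = 1
    · refine ⟨⟨0, 1⟩, hI, ?_⟩
      rw [prim_iff]
      simp only [Zsqrtd.re_mul, Zsqrtd.im_mul, Int.even_iff]
      constructor
      · simpa using hr
      · simp
        omega
    · refine ⟨-⟨0, 1⟩, hI.neg, ?_⟩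
      rw [prim_iff]
      simp only [Zsqrtd.re_mul, Zsqrtd.im_mul, Int.even_iff]
      constructor
      · simp
        omega
      · simp
        omega
  · by_cases hc : (a.re + a.im) % 4 = 1
    · refine ⟨1, isUnit_one, ?_⟩
      rw [one_mul, prim_iff, Int.even_iff]
      exact ⟨hi, hc⟩
    · refine ⟨-1, isUnit_one.neg, ?_⟩
      rw [prim_iff]
      simp only [neg_mul, one_mul, Zsqrtd.re_neg, Zsqrtd.im_neg, Int.even_iff]
      constructor <;> omega

/-- the units -/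
lemma Q_units (u : GaussianInt) (hu : IsUnit u) :
    (u.re = 1 ∧ u.im = 0) ∨ (u.re = -1 ∧ u.im = 0) ∨ (u.re = 0 ∧ u.im = 1) ∨ (u.re = 0 ∧ u.im = -1) := by
  have h1 : u.norm.natAbs = 1 := Zsqrtd.norm_eq_one_iff.mpr hu
  have h2 : ((gN u : ℕ) : ℤ) = u.re * u.re + u.im * u.im := Q_gN u
  unfold gN at h2
  rw [h1, Nat.cast_one] at h2
  have hr : u.re * u.re ≤ 1 := by nlinarith [mul_self_nonneg u.im]
  have hi : u.im * u.im ≤ 1 := by nlinarith [mul_self_nonneg u.re]
  have hr1 : u.re ≤ 1 := by nlinarith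
  have hr2 : -1 ≤ u.re := by nlinarith
  have hi1 : u.im ≤ 1 := by nlinarith
  have hi2 : -1 ≤ u.im := by nlinarith
  have hrc : u.re = -1 ∨ u.re = 0 ∨ u.re = 1 := by omega
  have hic : u.im = -1 ∨ u.im = 0 ∨ u.im = 1 := by omega
  rcases hrc with h | h | h <;> rcases hic with k | k | k <;> rw [h, k] at h2 <;> simp_all

/-- Primary associated elements are equal (the units are `1, i, -1, -i`). -/
lemma Prim.eq_of_associated {a b : GaussianInt} (ha : Prim a) (hb : Prim b)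
    (h : Associated a b) : a = b := by
  obtain ⟨u, hu⟩ := h
  rw [prim_iff, Int.even_iff] at ha hb
  have hr := congrArg Zsqrtd.re hu
  have hi := congrArg Zsqrtd.im hu
  rw [Zsqrtd.re_mul] at hr
  rw [Zsqrtd.im_mul] at hi
  rcases Q_units u.1 u.isUnit with ⟨k1, k2⟩ | ⟨k1, k2⟩ | ⟨k1, k2⟩ | ⟨k1, k2⟩
  · rw [k1, k2] at hr hi
    ext
    · linarith
    · linarith
  · rw [k1, k2] at hr hi
    exfalso
    omega
  · rw [k1, k2] at hr hi
    exfalso
    omega
  · rw [k1, k2] at hr hi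
    exfalso
    omega

/-- If `a = 1` modulo `2` then `a` or `-a` is primary. -/
lemma prim_or_neg {a : GaussianInt} (ha : (2 : GaussianInt) ∣ a - 1) : Prim a ∨ Prim (-a) := by
  obtain ⟨c, hc⟩ := ha
  have h2 : (2 : GaussianInt) = ⟨2, 0⟩ := by
    ext <;> simp
  rw [h2] at hc
  have hr := congrArg Zsqrtd.re hc
  have hi := congrArg Zsqrtd.im hc
  simp at hr hi
  rw [prim_iff, prim_iff, Int.even_iff, Int.even_iff, Zsqrtd.re_neg, Zsqrtd.im_neg]
  omega

/-- primary elements are prime to `1 + i` -/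
lemma Prim.coprime_two {a : GaussianInt} (ha : Prim a) : IsCoprime a 2 := by
  have h := ha.gN_mod
  have h1 := mul_star_eq a
  refine ⟨star a, -((gN a / 2 : ℕ) : GaussianInt), ?_⟩
  rw [mul_comm, h1]
  have : gN a = 2 * (gN a / 2) + 1 := by omega
  have h3 : ((gN a : ℕ) : GaussianInt) = 2 * ((gN a / 2 : ℕ) : GaussianInt) + 1 := by
    exact_mod_cast congrArg (fun n : ℕ => (n : GaussianInt)) this
  rw [h3]
  ring

end Pool.Agent.STg
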