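import Pool.Agent.Lib.MP_1ef7cf_nt_g.Q

/-!
# The quadratic residue symbol of `δ` on primary Gaussian integers
-/

namespace Pool.Agent.STg

lemma R2_cast_gN (p : GaussianInt) : ((gN p : ℕ) : ℤ) = p.re ^ 2 + p.im ^ 2 := by
  have h1 : ((gN p : ℕ) : ℤ) = p.norm := by
    unfold gN
    rw [Int.natCast_natAbs, abs_of_nonneg]
    exact GaussianInt.norm_nonneg p
  rw [h1, Zsqrtd.norm_def]
  ring

/-- coprimality of the coordinates from the norm -/
lemma R2_coprime {p : GaussianInt} (hq : Squarefree (gN p)) : IsCoprime p.re p.im := by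
  rw [Int.isCoprime_iff_gcd_eq_one]
  by_contra hne
  obtain ⟨l, hl, hld⟩ := Nat.exists_prime_and_dvd hne
  have h1 : (l : ℤ) ∣ p.re := (Int.natCast_dvd_natCast.mpr hld).trans (Int.gcd_dvd_left ..)
  have h2 : (l : ℤ) ∣ p.im := (Int.natCast_dvd_natCast.mpr hld).trans (Int.gcd_dvd_right ..)
  have h3 : ((l * l : ℕ) : ℤ) ∣ ((gN p : ℕ) : ℤ) := by
    rw [R2_cast_gN]
    push_cast
    rw [← pow_two]
    exact dvd_add (pow_dvd_pow_of_dvd h1 2) (pow_dvd_pow_of_dvd h2 2)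
  have h4 : l * l ∣ gN p := Int.natCast_dvd_natCast.mp h3
  have := hq l h4
  exact hl.one_lt.ne' (Nat.isUnit_iff.mp this)

/-- `δ' ∣ z` from divisibility of the coordinates of `z δ'*` -/
lemma R2_dvd {p z : GaussianInt} (h0 : 0 < gN p)
    (h1 : ((gN p : ℕ) : ℤ) ∣ z.re * p.re + z.im * p.im)
    (h2 : ((gN p : ℕ) : ℤ) ∣ z.im * p.re - z.re * p.im) : p ∣ z := by
  obtain ⟨c, hc⟩ := h1
  obtain ⟨e, he⟩ := h2
  have hp0 : star p ≠ 0 := by
    intro h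
    have : p = 0 := by simpa using h
    rw [this] at h0
    simp [gN] at h0
  refine ⟨⟨c, e⟩, ?_⟩
  apply mul_right_cancel₀ hp0
  have h3 : p * ⟨c, e⟩ * star p = ((gN p : ℕ) : GaussianInt) * ⟨c, e⟩ := by
    rw [← mul_star_eq]; ring
  rw [h3]
  ext
  · simp
    linarith
  · simp
    linarith

/-- the coordinates of `z δ'*` from divisibility -/
lemma R2_dvd' {p z : GaussianInt} (h : p ∣ z) : ((gN p : ℕ) : ℤ) ∣ z.re * p.re + z.im * p.im ∧
    ((gN p : ℕ) : ℤ) ∣ z.im * p.re - z.re * p.im := by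
  obtain ⟨k, rfl⟩ := h
  rw [R2_cast_gN]
  constructor
  · refine ⟨k.re, ?_⟩
    simp
    ring
  · refine ⟨k.im, ?_⟩
    simp
    ring

lemma R2_isUnit_iff {p : GaussianInt} : IsUnit p ↔ gN p = 1 := by
  unfold gN
  exact Zsqrtd.norm_eq_one_iff.symm

/-- units are powers of `i` -/
lemma R2_unit {u : GaussianInt} (hu : IsUnit u) : ∃ a : ℕ, u = (⟨0, 1⟩ : GaussianInt) ^ a := by
  have h1 := R2_isUnit_iff.mp hu
  have h2 := R2_cast_gN u
  rw [h1] at h2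
  push_cast at h2
  have hre : u.re ^ 2 ≤ 1 := by nlinarith [sq_nonneg u.im]
  have him : u.im ^ 2 ≤ 1 := by nlinarith [sq_nonneg u.re]
  have hre1 : -1 ≤ u.re ∧ u.re ≤ 1 := by constructor <;> nlinarith
  have him1 : -1 ≤ u.im ∧ u.im ≤ 1 := by constructor <;> nlinarith
  obtain ⟨a1, a2⟩ := hre1
  obtain ⟨b1, b2⟩ := him1
  have ha : u.re = -1 ∨ u.re = 0 ∨ u.re = 1 := by omega
  have hb : u.im = -1 ∨ u.im = 0 ∨ u.im = 1 := by omega
  rcases ha with ha | ha | ha <;> rcases hb with hb | hb | hb <;> rw [ha, hb] at h2 <;>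
    norm_num at h2
  · exact ⟨2, by ext <;> simp [ha, hb, pow_two]⟩
  · exact ⟨3, by ext <;> simp [ha, hb, pow_succ]⟩
  · exact ⟨1, by ext <;> simp [ha, hb]⟩
  · exact ⟨0, by ext <;> simp [ha, hb]⟩

/-- the odd case of `exists_shape` -/
lemma R2_odd {δ : GaussianInt} (h : Squarefree (gN δ)) (ho : gOdd δ) :
    ∃ (a : ℕ) (δ' : GaussianInt) (c : ℤ), δ = (⟨0, 1⟩ : GaussianInt) ^ a * δ' ∧
      Prim δ' ∧ Squarefree (gN δ') ∧ δ' ∣ (⟨c, -1⟩ : GaussianInt) := by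
  obtain ⟨w, hw, hP⟩ := exists_prim_assoc ho
  obtain ⟨w', hw'⟩ := hw.exists_left_inv
  have hw'u : IsUnit w' := IsUnit.of_mul_eq_one w hw'
  obtain ⟨a, ha⟩ := R2_unit hw'u
  have hδ : δ = (⟨0, 1⟩ : GaussianInt) ^ a * (w * δ) := by
    rw [← ha, ← mul_assoc, hw', one_mul]
  have hN : gN (w * δ) = gN δ := by
    rw [gN_mul, R2_isUnit_iff.mp hw, one_mul]
  have hsq : Squarefree (gN (w * δ)) := by rw [hN]; exact h
  set δ' := w * δ with hδ'
  have hcop := R2_coprime hsq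
  have hNc := R2_cast_gN δ'
  have hcop2 : IsCoprime δ'.im ((gN δ' : ℕ) : ℤ) := by
    rw [hNc]
    have h1 : IsCoprime δ'.im (δ'.re ^ 2) := hcop.symm.pow_right
    have h2 : δ'.re ^ 2 + δ'.im ^ 2 = δ'.re ^ 2 + δ'.im * δ'.im := by ring
    rw [h2]
    exact IsCoprime.add_mul_left_right h1 _
  obtain ⟨s, t, hst⟩ := hcop2
  -- `s v + t n = 1`
  refine ⟨a, δ', -(δ'.re * s), hδ, hP, hsq, ?_⟩
  have h0 : 0 < gN δ' := Nat.pos_of_ne_zero hsq.ne_zero
  have hb : ((gN δ' : ℕ) : ℤ) ∣ (-1) * δ'.re - (-(δ'.re * s)) * δ'.im := by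
    refine ⟨-(δ'.re * t), ?_⟩
    have : (-1) * δ'.re - (-(δ'.re * s)) * δ'.im = δ'.re * (s * δ'.im - 1) := by ring
    rw [this]
    have h3 : s * δ'.im - 1 = - (t * ((gN δ' : ℕ) : ℤ)) := by linarith
    rw [h3]; ring
  have hcopN : IsCoprime ((gN δ' : ℕ) : ℤ) δ'.im := ⟨t, s, by linarith⟩
  have ha' : ((gN δ' : ℕ) : ℤ) ∣ (-(δ'.re * s)) * δ'.re + (-1) * δ'.im := by
    apply hcopN.dvd_of_dvd_mul_left
    obtain ⟨k, hk⟩ := hb
    refine ⟨-δ'.re * k - 1, ?_⟩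
    have : δ'.im * (-(δ'.re * s) * δ'.re + -1 * δ'.im) =
        -δ'.re * (-1 * δ'.re - -(δ'.re * s) * δ'.im) - (δ'.re ^ 2 + δ'.im ^ 2) := by ring
    rw [this, hk, ← hNc]; ring
  exact R2_dvd h0 ha' hb

/-- **Shape of `δ`**: `δ = i ^ a (1 + i) ^ b δ'`, `δ'` primary with squarefree norm, and an integer
`c` with `δ' ∣ c - i`. For the last part: `δ' = u + v i` with `gcd(u, v) = 1` (as `N(δ')` is
squarefree) and `N(δ') = n`, `v` is invertible modulo `n`, take `c` with `v c = -u` modulo `n`: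
then `δ' ∣ v (c - i) = v c - v i` because `v i = -u` modulo `δ'`; and `v` is invertible modulo
`δ'`. -/
lemma exists_shape {δ : GaussianInt} (h : Squarefree (gN δ)) :
    ∃ (a b : ℕ) (δ' : GaussianInt) (c : ℤ), δ = (⟨0, 1⟩ : GaussianInt) ^ a * ⟨1, 1⟩ ^ b * δ' ∧
      Prim δ' ∧ Squarefree (gN δ') ∧ δ' ∣ (⟨c, -1⟩ : GaussianInt) := by
  by_cases ho : gOdd δ
  · obtain ⟨a, δ', c, h1, h2, h3, h4⟩ := R2_odd h ho
    exact ⟨a, 0, δ', c, by rw [pow_zero, mul_one]; exact h1, h2, h3, h4⟩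
  · unfold gOdd at ho
    rw [Nat.not_odd_iff_even] at ho
    have hN := R2_cast_gN δ
    have hpar : Even (δ.re + δ.im) := by
      obtain ⟨k, hk⟩ := ho
      rw [hk] at hN
      push_cast at hN
      by_contra hodd
      rw [Int.not_even_iff_odd] at hodd
      obtain ⟨l, hl⟩ := hodd
      have : δ.re ^ 2 + δ.im ^ 2 = (δ.re + δ.im) ^ 2 - 2 * (δ.re * δ.im) := by ring
      rw [this, hl] at hN
      ring_nf at hN
      omega
    obtain ⟨s, hs⟩ := hpar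
    -- `δ = (1 + i) (s + (δ.im - s) i)`
    set η : GaussianInt := ⟨s, δ.im - s⟩ with hη
    have hδ : δ = ⟨1, 1⟩ * η := by
      ext
      · simp [hη]; linarith
      · simp [hη]
    have hN2 : gN δ = 2 * gN η := by
      conv_lhs => rw [hδ]
      rw [gN_mul]
      congr 1
    have hη' : Squarefree (gN η) := h.squarefree_of_dvd ⟨2, by rw [hN2]; ring⟩
    have hηo : gOdd η := by
      unfold gOdd
      rw [← Nat.not_even_iff_odd]
      rintro ⟨k, hk⟩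
      have h4 : 2 * 2 ∣ gN δ := ⟨k, by rw [hN2, hk]; ring⟩
      have := h 2 h4
      rw [Nat.isUnit_iff] at this
      omega
    obtain ⟨a, δ', c, h1, h2, h3, h4⟩ := R2_odd hη' hηo
    refine ⟨a, 1, δ', c, ?_, h2, h3, h4⟩
    rw [hδ, h1]; ring

/-- the symbol `(x + c y | N(δ'))` -/
def jc (δ' : GaussianInt) (c : ℤ) (β : GaussianInt) : ℤ := jacobiSym (β.re + c * β.im) (gN δ')

lemma R2_mod {a b : ℤ} {d : ℕ} (h : (d : ℤ) ∣ a - b) : jacobiSym a d = jacobiSym b d :=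
  jacobiSym.mod_left' (Int.emod_eq_emod_iff_emod_sub_eq_zero.mpr (Int.emod_eq_zero_of_dvd h))

/-- `x + c y` is multiplicative modulo `N(δ')`: `c ^ 2 = -1` modulo `N(δ')`, since `δ' ∣ c ^ 2 + 1`
and `δ'` is primitive. -/
lemma sq_add_one {δ' : GaussianInt} {c : ℤ} (hp : Prim δ') (hs : Squarefree (gN δ'))
    (hc : δ' ∣ (⟨c, -1⟩ : GaussianInt)) : ((gN δ' : ℕ) : ℤ) ∣ c ^ 2 + 1 := by
  obtain ⟨k, hk⟩ := hc
  have h1 : gN (⟨c, -1⟩ : GaussianInt) = gN δ' * gN k := by rw [hk, gN_mul]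
  have h2 := R2_cast_gN (⟨c, -1⟩ : GaussianInt)
  refine ⟨((gN k : ℕ) : ℤ), ?_⟩
  rw [h1] at h2
  push_cast at h2
  rw [h2]

lemma jc_mul {δ' : GaussianInt} {c : ℤ} (hp : Prim δ') (hs : Squarefree (gN δ'))
    (hc : δ' ∣ (⟨c, -1⟩ : GaussianInt)) (a b : GaussianInt) :
    jc δ' c (a * b) = jc δ' c a * jc δ' c b := by
  unfold jc
  rw [← jacobiSym.mul_left]
  apply R2_mod
  have h1 := sq_add_one hp hs hc
  have h2 : (a * b).re + c * (a * b).im - (a.re + c * a.im) * (b.re + c * b.im) =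
      (c ^ 2 + 1) * (-(a.im * b.im)) := by
    simp
    ring
  rw [h2]
  exact dvd_mul_of_dvd_left h1 _

lemma R2_zero {δ' : GaussianInt} {c : ℤ} (hc : δ' ∣ (⟨c, -1⟩ : GaussianInt)) {z : GaussianInt}
    (h : δ' ∣ z) : ((gN δ' : ℕ) : ℤ) ∣ z.re + c * z.im := by
  obtain ⟨k, rfl⟩ := h
  obtain ⟨h1, h2⟩ := R2_dvd' hc
  simp only [] at h1 h2
  have h3 : (δ' * k).re + c * (δ' * k).im =
      (c * δ'.re + (-1) * δ'.im) * k.im - ((-1) * δ'.re - c * δ'.im) * k.re := by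
    simp
    ring
  rw [h3]
  exact dvd_sub (dvd_mul_of_dvd_left h1 _) (dvd_mul_of_dvd_left h2 _)

/-- `x + c y = β` modulo `δ'`; so it is determined modulo `N(δ')` by `β` modulo `δ'`
(`δ'` primitive: `δ' ∣ n`, `n` an integer, implies `N(δ') ∣ n`). -/
lemma jc_per {δ' : GaussianInt} {c : ℤ} (hp : Prim δ') (hs : Squarefree (gN δ'))
    (hc : δ' ∣ (⟨c, -1⟩ : GaussianInt)) {a b : GaussianInt} (h : δ' ∣ a - b) :
    jc δ' c a = jc δ' c b := by
  unfold jc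
  apply R2_mod
  have h1 := R2_zero hc h
  have h2 : a.re + c * a.im - (b.re + c * b.im) = (a - b).re + c * (a - b).im := by
    simp
    ring
  rw [h2]
  exact h1

lemma jc_ne_zero {δ' : GaussianInt} {c : ℤ} (hp : Prim δ') (hs : Squarefree (gN δ'))
    (hc : δ' ∣ (⟨c, -1⟩ : GaussianInt)) {a : GaussianInt} (h : IsCoprime a δ') :
    jc δ' c a ≠ 0 := by
  unfold jc
  apply jacobiSym.ne_zero
  rw [← Int.isCoprime_iff_gcd_eq_one]
  obtain ⟨x, y, hxy⟩ := h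
  obtain ⟨k1, hk1⟩ := sq_add_one hp hs hc
  obtain ⟨k2, hk2⟩ := R2_zero hc (Dvd.intro_left y rfl : δ' ∣ y * δ')
  have h1 := congrArg Zsqrtd.re hxy
  have h2 := congrArg Zsqrtd.im hxy
  refine ⟨x.re + c * x.im, k2 - k1 * (x.im * a.im), ?_⟩
  have h3 : (x.re + c * x.im) * (a.re + c * a.im) = (x * a).re + c * (x * a).im +
      (c ^ 2 + 1) * (x.im * a.im) := by
    simp
    ring
  rw [h3, hk1]
  have h4 : (x * a).re + c * (x * a).im + (((y * δ').re + c * (y * δ').im)) = 1 := by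
    have : (x * a).re + c * (x * a).im + (((y * δ').re + c * (y * δ').im)) =
      (x * a + y * δ').re + c * (x * a + y * δ').im := by
      simp only [Zsqrtd.re_add, Zsqrtd.im_add]
      ring
    rw [this, hxy]
    simp
  rw [hk2] at h4
  linarith

end Pool.Agent.STg
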