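import Pool.Agent.Lib.MP_1ef7cf_nt_g.R2

/-!
# Quadratic reciprocity in `ℤ[i]`: inert primes
-/

namespace Pool.Agent.STg

lemma R3a_gN_eq (a : GaussianInt) : (gN a : ℤ) = a.re ^ 2 + a.im ^ 2 := by
  rw [gN, Int.natAbs_of_nonneg (GaussianInt.norm_nonneg a), Zsqrtd.norm_def]
  ring

lemma R3a_unit {a : GaussianInt} (h : gN a = 1) : IsUnit a := by
  rw [← Zsqrtd.norm_eq_one_iff]; exact h

lemma R3a_gN_unit {a : GaussianInt} (h : IsUnit a) : gN a = 1 := by
  rw [← Zsqrtd.norm_eq_one_iff] at h; exact h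

/-- a Gaussian prime divides a rational prime -/
lemma R3a_over {p : GaussianInt} (hp : Prime p) (n : ℕ) (hn : n ≠ 0) (h : p ∣ (n : GaussianInt)) :
    ∃ l : ℕ, l.Prime ∧ p ∣ (l : GaussianInt) := by
  induction n using Nat.recOnMul with
  | zero => exact absurd rfl hn
  | one =>
    exfalso
    apply hp.not_isUnit
    apply isUnit_of_dvd_one
    simpa using h
  | prime q hq => exact ⟨q, hq, h⟩
  | mul a b iha ihb =>
    rw [Nat.cast_mul] at h
    rcases hp.dvd_or_dvd h with h1 | h1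
    · exact iha (by rintro rfl; simp at hn) h1
    · exact ihb (by rintro rfl; simp at hn) h1

/-- Shape of primary primes: either inert, `p = x` with `|x|` a prime number `= 3` modulo `4`, or
split, `N(p)` a prime number (`= 1` modulo `4`). (Mathlib: `GaussianInt`.) -/
lemma prime_shape {p : GaussianInt} (hp : Prime p) (hP : Prim p) :
    (p.im = 0 ∧ Nat.Prime p.re.natAbs ∧ p.re.natAbs % 4 = 3) ∨ Nat.Prime (gN p) := by
  have hstar := mul_star_eq p
  obtain ⟨l, hl, hpl⟩ := R3a_over hp (gN p) (gN_pos hp.ne_zero).ne' (by rw [← hstar]; exact dvd_mul_right _ _)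
  obtain ⟨s, hs⟩ := hpl
  have hgl : gN (l : GaussianInt) = l ^ 2 := by
    have : ((gN (l : GaussianInt) : ℕ) : ℤ) = (l : ℤ) ^ 2 := by
      rw [R3a_gN_eq, Zsqrtd.re_natCast, Zsqrtd.im_natCast]; ring
    exact_mod_cast this
  have hns : gN p * gN s = l ^ 2 := by rw [← gN_mul, ← hs, hgl]
  obtain ⟨i, hi, hgi⟩ := (Nat.dvd_prime_pow hl).1 (Dvd.intro _ hns)
  have hmod := hP.gN_mod
  interval_cases i
  · exfalso
    exact hp.not_isUnit (R3a_unit (by rw [hgi, pow_zero]))
  · right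
    rw [hgi, pow_one]; exact hl
  · left
    have hgs : gN s = 1 := by
      rw [hgi] at hns
      have hp' : 0 < l ^ 2 := by have := hl.pos; positivity
      exact Nat.eq_of_mul_eq_mul_left hp' (by rw [hns, mul_one])
    have hl2 : l % 2 = 1 := by
      rcases Nat.mod_two_eq_zero_or_one l with h | h
      · exfalso
        obtain ⟨m, rfl⟩ : 2 ∣ l := Nat.dvd_of_mod_eq_zero h
        rw [hgi] at hmod
        have : (2 * m) ^ 2 = 4 * m ^ 2 := by ring
        rw [this] at hmod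
        omega
      · exact h
    have hss : s * star s = 1 := by rw [mul_star_eq, hgs]; simp
    have hpe : p = (l : GaussianInt) * star s := by
      rw [hs, mul_assoc, hss, mul_one]
    have hre : p.re = l * s.re := by
      rw [hpe]; simp
    have him : p.im = -(l * s.im) := by
      rw [hpe]; simp
    have hsn := R3a_gN_eq s
    rw [hgs] at hsn
    push_cast at hsn
    have heven := ((prim_iff p).1 hP).1
    have hsim : s.im = 0 := by
      have hle : s.im ^ 2 ≤ 1 := by nlinarith [sq_nonneg s.re]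
      have h1 : -1 ≤ s.im := by nlinarith
      have h2 : s.im ≤ 1 := by nlinarith
      obtain ⟨e, he⟩ := heven
      interval_cases h : s.im
      · exfalso; omega
      · rfl
      · exfalso; omega
    have hlprime : Prime (l : GaussianInt) := by
      have : Associated p (l : GaussianInt) := by
        refine ⟨(R3a_unit hgs).unit, ?_⟩
        rw [hs]; rfl
      exact this.prime hp
    have := Fact.mk hl
    have hl4 := GaussianInt.mod_four_eq_three_of_nat_prime_of_prime l hlprime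
    rw [hsim] at hsn him
    have hsre : s.re.natAbs = 1 := by
      have h3 : s.re ^ 2 = 1 := by linarith
      have h4 : s.re.natAbs ^ 2 = 1 := by
        have := Int.natAbs_pow s.re 2
        rw [h3] at this
        simpa using this.symm
      nlinarith [Nat.zero_le s.re.natAbs]
    have hrea : p.re.natAbs = l := by
      rw [hre, Int.natAbs_mul, hsre, Int.natAbs_natCast, mul_one]
    refine ⟨by rw [him]; ring, by rw [hrea]; exact hl, by rw [hrea]; exact hl4⟩

/-- Frobenius modulo an inert prime -/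
lemma R3a_frob {l : ℕ} (hl : l.Prime) (h4 : l % 4 = 3) (a : GaussianInt) :
    (l : GaussianInt) ∣ a ^ l - star a := by
  have := Fact.mk hl
  have hI : (⟨0, 1⟩ : GaussianInt) ^ l = -⟨0, 1⟩ := by
    obtain ⟨m, rfl⟩ : ∃ m, l = 4 * m + 3 := ⟨l / 4, by omega⟩
    have h2 : (⟨0, 1⟩ : GaussianInt) ^ 4 = 1 := by decide
    have h3 : (⟨0, 1⟩ : GaussianInt) ^ 3 = -⟨0, 1⟩ := by decide
    rw [pow_add, pow_mul, h2, one_pow, one_mul, h3]
  have hint : ∀ x : ℤ, (l : GaussianInt) ∣ (x : GaussianInt) ^ l - (x : GaussianInt) := by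
    intro x
    have h1 : (l : ℤ) ∣ x ^ l - x := by
      rw [← ZMod.intCast_zmod_eq_zero_iff_dvd]
      push_cast
      rw [ZMod.pow_card, sub_self]
    obtain ⟨c, hc⟩ := h1
    refine ⟨c, ?_⟩
    exact_mod_cast congrArg (Int.cast : ℤ → GaussianInt) hc
  have ha : a = (a.re : GaussianInt) + (a.im : GaussianInt) * ⟨0, 1⟩ := by
    ext <;> simp
  have hsa : star a = (a.re : GaussianInt) - (a.im : GaussianInt) * ⟨0, 1⟩ := by
    ext <;> simp
  obtain ⟨r, hr⟩ := exists_add_pow_prime_eq hl (a.re : GaussianInt) ((a.im : GaussianInt) * ⟨0, 1⟩)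
  obtain ⟨c1, hc1⟩ := hint a.re
  obtain ⟨c2, hc2⟩ := hint a.im
  refine ⟨c1 - c2 * ⟨0, 1⟩ + (a.re : GaussianInt) * ((a.im : GaussianInt) * ⟨0, 1⟩) * r, ?_⟩
  have key : a ^ l = ((a.re : GaussianInt) + (a.im : GaussianInt) * ⟨0, 1⟩) ^ l := by rw [← ha]
  rw [hsa, key, hr, mul_pow, hI]
  linear_combination hc1 - (⟨0, 1⟩ : GaussianInt) * hc2

/-- Inert case: `a ^ ((x ^ 2 - 1) / 2) = N(a) ^ ((|x| - 1) / 2) = (N(a) | |x|)` modulo `x`
(`a ^ |x| = a'` modulo `|x|`, `a'` the conjugate, as `i ^ |x| = -i`; so `a ^ (|x| + 1) = N(a)`). -/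
lemma euler_inert {p : GaussianInt} (hP : Prim p) (him : p.im = 0)
    (hp : Nat.Prime p.re.natAbs) (h4 : p.re.natAbs % 4 = 3) (a : GaussianInt) :
    p ∣ a ^ ((gN p - 1) / 2) - ((jacobiSym (gN a) p.re.natAbs : ℤ) : GaussianInt) := by
  obtain ⟨l, hl⟩ : ∃ l, l = p.re.natAbs := ⟨_, rfl⟩
  rw [← hl] at hp h4 ⊢
  have := Fact.mk hp
  have hgp : gN p = l ^ 2 := by
    have h1 := R3a_gN_eq p
    rw [him] at h1
    have h2 : ((l : ℤ)) ^ 2 = p.re ^ 2 := by rw [hl]; exact Int.natAbs_sq p.re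
    have h3 : ((gN p : ℕ) : ℤ) = (l : ℤ) ^ 2 := by rw [h1, h2]; ring
    exact_mod_cast h3
  have hpl : p ∣ (l : GaussianInt) := by
    rcases Int.natAbs_eq p.re with h | h
    · refine ⟨1, ?_⟩
      ext
      · rw [mul_one, Zsqrtd.re_natCast, hl]; exact h.symm
      · simp [him]
    · refine ⟨-1, ?_⟩
      ext
      · rw [mul_neg_one, Zsqrtd.re_neg, Zsqrtd.re_natCast, hl]; linarith
      · simp [him]
  obtain ⟨m, hm⟩ : ∃ m, l = 2 * m + 1 := ⟨l / 2, by omega⟩
  have he : (gN p - 1) / 2 = (l + 1) * m := by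
    rw [hgp, hm]
    have : (2 * m + 1) ^ 2 - 1 = 2 * ((2 * m + 1 + 1) * m) := by
      have : (2 * m + 1) ^ 2 = 2 * ((2 * m + 1 + 1) * m) + 1 := by ring
      omega
    rw [this]
    exact Nat.mul_div_cancel_left _ (by norm_num)
  refine hpl.trans ?_
  obtain ⟨c, hc⟩ := R3a_frob hp h4 a
  have h5 : (l : GaussianInt) ∣ a ^ (l + 1) - ((gN a : ℕ) : GaussianInt) := by
    refine ⟨c * a, ?_⟩
    rw [← mul_star_eq a, pow_succ]
    linear_combination a * hc
  have h6 : (l : GaussianInt) ∣ (a ^ (l + 1)) ^ m - ((gN a : ℕ) : GaussianInt) ^ m :=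
    h5.trans (sub_dvd_pow_sub_pow _ _ m)
  have h7 : (l : ℤ) ∣ (gN a : ℤ) ^ m - jacobiSym (gN a) l := by
    rw [← ZMod.intCast_zmod_eq_zero_iff_dvd]
    have h8 := legendreSym.eq_pow l (gN a : ℤ)
    rw [jacobiSym.legendreSym.to_jacobiSym] at h8
    have h9 : l / 2 = m := by omega
    rw [h9] at h8
    push_cast at h8 ⊢
    rw [h8, sub_self]
  obtain ⟨c3, hc3⟩ := h7
  have h10 : (l : GaussianInt) ∣ ((gN a : ℕ) : GaussianInt) ^ m - ((jacobiSym (gN a) l : ℤ) : GaussianInt) := by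
    refine ⟨c3, ?_⟩
    exact_mod_cast congrArg (Int.cast : ℤ → GaussianInt) hc3
  rw [he, pow_mul]
  have := dvd_add h6 h10
  rwa [sub_add_sub_cancel] at this

/-- **Reciprocity, inert case**: `(d | |x|) = (x | d)`, `d = N(δ') = 1` modulo `4`. -/
lemma recip_inert {δ' p : GaussianInt} {c : ℤ} (hδ : Prim δ') (hs : Squarefree (gN δ'))
    (hc : δ' ∣ (⟨c, -1⟩ : GaussianInt)) (hP : Prim p) (him : p.im = 0)
    (hp : Nat.Prime p.re.natAbs) (h4 : p.re.natAbs % 4 = 3) :
    jacobiSym (gN δ') p.re.natAbs = jc δ' c p := by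
  unfold jc
  rw [him, mul_zero, add_zero]
  have h1 := hδ.gN_mod
  have hodd : Odd (gN δ') := by rw [Nat.odd_iff]; omega
  have hlodd : Odd p.re.natAbs := by rw [Nat.odd_iff]; omega
  rw [jacobiSym.quadratic_reciprocity_one_mod_four h1 hlodd]
  rcases Int.natAbs_eq p.re with h | h
  · rw [← h]
  · have h2 : jacobiSym p.re (gN δ') = jacobiSym (-(p.re.natAbs : ℤ)) (gN δ') := by rw [← h]
    rw [h2, jacobiSym.neg _ hodd]
    have h3 : ZMod.χ₄ ((gN δ' : ℕ) : ZMod 4) = 1 := ZMod.χ₄_nat_one_mod_four h1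
    rw [h3, one_mul]

end Pool.Agent.STg
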